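import Pool.Agent.Feig.Conc

/-!
# A priori inequalities from concavity on `[0, 1/lam)`
-/

open Set

noncomputable section

namespace Pool.Agent.Feig

lemma yy_wr (W W1 M : ℝ → ℝ) (A B C D p : ℝ) (hW : 0 < W1 p) :
    yy1 W W1 M A B p * yy W W1 C D p - yy W W1 A B p * yy1 W W1 M C D p = B * C - A * D := by
  have hs' : 0 < Real.sqrt (W1 p) := Real.sqrt_pos.mpr hW
  unfold yy1 yy
  field_simp
  ring

lemma limit_ineq {c d q b : ℝ} (hqb : q < b) (h : ∀ p ∈ Ioo q b, c * (p - q) ≤ d) :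
    c * (b - q) ≤ d := by
  have ht : Filter.Tendsto (fun p : ℝ => c * (p - q)) (nhdsWithin b (Iio b)) (nhds (c * (b - q))) := by
    apply Filter.Tendsto.mono_left _ nhdsWithin_le_nhds
    exact (Continuous.tendsto (by fun_prop) b)
  refine le_of_tendsto ht ?_
  filter_upwards [Ioo_mem_nhdsLT hqb] with p hp using h p hp

namespace FV

variable {r lam : ℝ} {V V1 N N1 N2 : ℝ → ℝ}

lemma toWD (h : FV r lam V V1 N N1 N2) : WD (Icc 0 1) V V1 N N1 :=
  ⟨h.dV, h.V1_pos, h.dV1, h.dN⟩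

lemma toWDe (h : FV r lam V V1 N N1 N2) :
    WD (Ico 0 (1 / lam)) (Ve r lam V) (Ve1 r lam V V1) (Ne r lam V V1 N) (Ne1 r lam V V1 N N1) :=
  ⟨fun _ hp => h.dVe hp, fun p hp => by
    have h1 := h.V1_pos _ (h.g_mem' hp)
    have h2 := h.gd_pos hp
    have h3 := h.tau_pos
    unfold Ve1
    positivity, fun _ hp => h.dVe1 hp, fun _ hp => h.dNe hp⟩

lemma Sche_nonneg (h : FV r lam V V1 N N1 N2) {p : ℝ} (hp : p ∈ Ico (0:ℝ) (1 / lam)) :
    0 ≤ Sch (Ne r lam V V1 N) (Ne1 r lam V V1 N N1) p := by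
  rw [h.Sche p]
  have hq := h.q_mem hp
  have h1 := h.Sch_nonneg ⟨hq.1.le, hq.2⟩
  have h2 := h.Sch_nonneg (h.g_mem' hp)
  have h3 := h.cc_pos
  positivity

lemma pst_mem (h : FV r lam V V1 N N1 N2) : 1 / (1 + lam) ∈ Ioo (0:ℝ) 1 := by
  have hl := h.lam_pos
  refine ⟨by positivity, ?_⟩
  rw [div_lt_one (by linarith)]
  linarith

/-- `T = V_e(1/lam)`. -/
def TT (r lam : ℝ) (V : ℝ → ℝ) : ℝ := V (1 / (1 + lam)) / lam ^ r

lemma Ve_lt_T (h : FV r lam V V1 N N1 N2) {p : ℝ} (hp : p ∈ Ico (0:ℝ) (1 / lam)) :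
    Ve r lam V p < TT r lam V := by
  unfold Ve TT
  apply div_lt_div_of_pos_right _ h.tau_pos
  have hg := h.g_mem hp
  exact h.strictMono (h.g_mem' hp) (Ioo_subset_Icc_self h.pst_mem) hg.2

lemma Ve_nonneg (h : FV r lam V V1 N N1 N2) {p : ℝ} (hp : p ∈ Ico (0:ℝ) (1 / lam)) :
    0 ≤ Ve r lam V p := div_nonneg (h.V_nonneg (h.g_mem' hp)) h.tau_pos.le

lemma V_lt_T (h : FV r lam V V1 N N1 N2) {p : ℝ} (hp : p ∈ Icc (0:ℝ) 1) :
    V p < TT r lam V := by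
  rw [← h.Ve_eq hp]; exact h.Ve_lt_T (h.mem_b hp)

lemma T_pos (h : FV r lam V V1 N N1 N2) : 1 < TT r lam V := by
  have := h.V_lt_T (p := 1) ⟨zero_le_one, le_rfl⟩
  rwa [h.V_one] at this

/-- the ramp inequality for `T - V`. -/
lemma y2_ineq (h : FV r lam V V1 N N1 N2) {q : ℝ} (hq : q ∈ Icc (0:ℝ) 1) :
    -(yy1 V V1 N (TT r lam V) (-1) q) * (1 / lam - q) ≤ yy V V1 (TT r lam V) (-1) q := by
  have hqb := h.mem_b hq
  have e1 : yy V V1 (TT r lam V) (-1) q = yy (Ve r lam V) (Ve1 r lam V V1) (TT r lam V) (-1) q := by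
    unfold yy; rw [h.Ve_eq hq, h.Ve1_eq hq]
  have e2 : yy1 V V1 N (TT r lam V) (-1) q
      = yy1 (Ve r lam V) (Ve1 r lam V V1) (Ne r lam V V1 N) (TT r lam V) (-1) q := by
    unfold yy1; rw [e1, h.Ve1_eq hq, h.Ne_eq hq]
  rw [e1, e2]
  apply limit_ineq hqb.2
  intro p hp
  have hsub : Icc q p ⊆ Ico (0:ℝ) (1 / lam) := fun x hx =>
    ⟨hq.1.trans hx.1, lt_of_le_of_lt hx.2 hp.2⟩
  have hnn : ∀ x ∈ Ico (0:ℝ) (1 / lam),
      0 ≤ yy (Ve r lam V) (Ve1 r lam V V1) (TT r lam V) (-1) x := by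
    intro x hx
    unfold yy
    apply div_nonneg _ (Real.sqrt_nonneg _)
    linarith [h.Ve_lt_T hx]
  have := tangent_left hp.1.le (fun x hx => h.toWDe.dyy (TT r lam V) (-1) (hsub hx))
    (fun x hx => h.toWDe.dyy1 (TT r lam V) (-1) (hsub hx)) (fun x hx => by
      have h1 := h.Sche_nonneg (hsub hx)
      have h2 := hnn x (hsub hx)
      nlinarith [mul_nonneg h1 h2])
  have h0 := hnn p ⟨hq.1.trans hp.1.le, hp.2⟩
  linarith

/-- general ramp inequality from the left, for `V - c` vanishing at `a`. -/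
lemma y1_ineq (h : FV r lam V V1 N N1 N2) {a q : ℝ} (ha : a ∈ Icc (0:ℝ) 1) (hq : q ∈ Icc a 1) :
    yy1 V V1 N (-(V a)) 1 q * (q - a) ≤ yy V V1 (-(V a)) 1 q ∧
    yy V V1 (-(V a)) 1 q ≤ yy1 V V1 N (-(V a)) 1 a * (q - a) := by
  have hsub : Icc a q ⊆ Icc (0:ℝ) 1 := fun x hx => ⟨ha.1.trans hx.1, hx.2.trans hq.2⟩
  have hnn : ∀ x ∈ Icc a q, 0 ≤ yy V V1 (-(V a)) 1 x := by
    intro x hx
    unfold yy
    apply div_nonneg _ (Real.sqrt_nonneg _)
    have := h.strictMono.monotoneOn ha (hsub hx) hx.1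
    linarith
  have h0 : yy V V1 (-(V a)) 1 a = 0 := by unfold yy; simp
  have hle : ∀ x ∈ Icc a q, -(1 / 2) * Sch N N1 x * yy V V1 (-(V a)) 1 x ≤ 0 := by
    intro x hx
    have h1 := h.Sch_nonneg (hsub hx)
    have h2 := hnn x hx
    nlinarith [mul_nonneg h1 h2]
  constructor
  · have := tangent_right hq.1 (fun x hx => h.toWD.dyy (-(V a)) 1 (hsub hx))
      (fun x hx => h.toWD.dyy1 (-(V a)) 1 (hsub hx)) hle
    linarith
  · have := tangent_left hq.1 (fun x hx => h.toWD.dyy (-(V a)) 1 (hsub hx))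
      (fun x hx => h.toWD.dyy1 (-(V a)) 1 (hsub hx)) hle
    linarith

/-- The basic three point inequality. -/
lemma three_pt (h : FV r lam V V1 N N1 N2) {a q : ℝ} (ha : a ∈ Icc (0:ℝ) 1) (haq : a < q)
    (hq1 : q ≤ 1) :
    (TT r lam V - V a) * V1 q ≤ (V q - V a) * (TT r lam V - V q)
      * (1 / (q - a) + 1 / (1 / lam - q)) := by
  have hq : q ∈ Icc (0:ℝ) 1 := ⟨ha.1.trans haq.le, hq1⟩
  have hqb := h.mem_b hq
  have hV1 := h.V1_pos q hq
  have hw := yy_wr V V1 N (-(V a)) 1 (TT r lam V) (-1) q hV1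
  have i1 := (h.y1_ineq ha ⟨haq.le, hq1⟩).1
  have i2 := h.y2_ineq hq
  have hpos1 : 0 < yy V V1 (-(V a)) 1 q := by
    unfold yy
    apply div_pos _ (Real.sqrt_pos.mpr hV1)
    have := h.strictMono ha hq haq
    linarith
  have hpos2 : 0 < yy V V1 (TT r lam V) (-1) q := by
    unfold yy
    apply div_pos _ (Real.sqrt_pos.mpr hV1)
    linarith [h.V_lt_T hq]
  have hqa : 0 < q - a := by linarith
  have hbq : 0 < 1 / lam - q := by linarith [hqb.2]
  have j1 : yy1 V V1 N (-(V a)) 1 q ≤ yy V V1 (-(V a)) 1 q * (1 / (q - a)) := by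
    rw [mul_one_div, le_div_iff₀ hqa]; exact i1
  have j2 : -(yy1 V V1 N (TT r lam V) (-1) q) ≤ yy V V1 (TT r lam V) (-1) q * (1 / (1 / lam - q)) := by
    rw [mul_one_div, le_div_iff₀ hbq]; exact i2
  have hprod : TT r lam V - V a ≤ yy V V1 (-(V a)) 1 q * yy V V1 (TT r lam V) (-1) q
      * (1 / (q - a) + 1 / (1 / lam - q)) := by
    have k1 := mul_le_mul_of_nonneg_right j1 hpos2.le
    have k2 := mul_le_mul_of_nonneg_left j2 hpos1.le
    nlinarith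
  have hyy : yy V V1 (-(V a)) 1 q * yy V V1 (TT r lam V) (-1) q
      = (V q - V a) * (TT r lam V - V q) / V1 q := by
    unfold yy
    have hs : Real.sqrt (V1 q) * Real.sqrt (V1 q) = V1 q := Real.mul_self_sqrt hV1.le
    rw [div_mul_div_comm, hs]
    ring
  rw [hyy] at hprod
  have := mul_le_mul_of_nonneg_right hprod hV1.le
  calc (TT r lam V - V a) * V1 q ≤ _ := this
    _ = _ := by field_simp

lemma Y_le (h : FV r lam V V1 N N1 N2) {q : ℝ} (hq : q ∈ Ioc (0:ℝ) 1) :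
    Yf V V1 q * (q * (1 - lam * q)) ≤ 1 := by
  have h0 : (0:ℝ) ∈ Icc (0:ℝ) 1 := ⟨le_rfl, zero_le_one⟩
  have hq' : q ∈ Icc (0:ℝ) 1 := ⟨hq.1.le, hq.2⟩
  have h3 := h.three_pt h0 hq.1 hq.2
  rw [h.V_zero, sub_zero, sub_zero, sub_zero] at h3
  have hT := h.T_pos
  have hVq := h.V_pos hq
  have hVT := h.V_lt_T hq'
  have hl := h.lam_pos
  have hl1 := h.lam_lt
  have hq1 : 0 < 1 - lam * q := by nlinarith [hq.1, hq.2]
  have hid : 1 / q + 1 / (1 / lam - q) = 1 / (q * (1 - lam * q)) := by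
    have : 1 / lam - q = (1 - lam * q) / lam := by field_simp
    have hne : 1 - lam * q ≠ 0 := hq1.ne'
    rw [this, one_div_div, div_add_div _ _ hq.1.ne' hne]
    congr 1
    ring
  rw [hid] at h3
  unfold Yf
  rw [div_mul_eq_mul_div, div_le_one hVq]
  have hqq : 0 < q * (1 - lam * q) := mul_pos hq.1 hq1
  have h4 : TT r lam V * V1 q * (q * (1 - lam * q)) ≤ V q * (TT r lam V - V q) := by
    have := mul_le_mul_of_nonneg_right h3 hqq.le
    rwa [mul_assoc (V q * (TT r lam V - V q)), one_div_mul_cancel hqq.ne', mul_one] at this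
  have h5 : TT r lam V * (V1 q * (q * (1 - lam * q))) ≤ TT r lam V * V q := by nlinarith
  exact le_of_mul_le_mul_left h5 (by linarith)

/-- (B1) -/
lemma B1 (h : FV r lam V V1 N N1 N2) :
    V1 1 * lam * (1 - lam) * (1 - lam ^ r) * V (1 / (1 + lam))
      ≤ (1 - V (1 / (1 + lam))) * (V (1 / (1 + lam)) - lam ^ r) := by
  have hp := h.pst_mem
  have h3 := h.three_pt (Ioo_subset_Icc_self hp) hp.2 le_rfl
  have hl := h.lam_pos
  have hl1 := h.lam_lt
  have ht := h.tau_pos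
  have hid : 1 / (1 - 1 / (1 + lam)) + 1 / (1 / lam - 1) = 1 / (lam * (1 - lam)) := by
    have e1 : 1 - 1 / (1 + lam) = lam / (1 + lam) := by field_simp; ring
    have e2 : 1 / lam - 1 = (1 - lam) / lam := by field_simp
    have : 1 - lam ≠ 0 := by linarith
    rw [e1, e2]
    field_simp
    ring
  rw [hid, h.V_one] at h3
  have hll : 0 < lam * (1 - lam) := mul_pos hl (by linarith)
  have h4 := mul_le_mul_of_nonneg_right h3 hll.le
  rw [mul_assoc (_ * _), one_div_mul_cancel hll.ne', mul_one] at h4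
  unfold TT at h4
  have h5 := mul_le_mul_of_nonneg_right h4 ht.le
  have e3 : V (1 / (1 + lam)) / lam ^ r * lam ^ r = V (1 / (1 + lam)) := div_mul_cancel₀ _ ht.ne'
  have e4 : (V (1 / (1 + lam)) / lam ^ r - V (1 / (1 + lam))) * V1 1 * (lam * (1 - lam)) * lam ^ r
      = (V (1 / (1 + lam)) / lam ^ r * lam ^ r - V (1 / (1 + lam)) * lam ^ r) * V1 1
        * (lam * (1 - lam)) := by ring
  have e5 : (1 - V (1 / (1 + lam))) * (V (1 / (1 + lam)) / lam ^ r - 1) * lam ^ r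
      = (1 - V (1 / (1 + lam))) * (V (1 / (1 + lam)) / lam ^ r * lam ^ r - lam ^ r) := by ring
  rw [e4, e5, e3] at h5
  linarith

/-- (G1) -/
lemma G1 (h : FV r lam V V1 N N1 N2) :
    (1 - V (1 / (1 + lam))) ^ 2 ≤ lam ^ 2 * (1 - lam ^ r) * V1 1 * V (1 / (1 + lam)) := by
  have hp := h.pst_mem
  have hp' := Ioo_subset_Icc_self hp
  have h0 : (0:ℝ) ∈ Icc (0:ℝ) 1 := ⟨le_rfl, zero_le_one⟩
  have h11 : (1:ℝ) ∈ Icc (0:ℝ) 1 := ⟨zero_le_one, le_rfl⟩
  have h3 := h.three_pt h0 hp.1 hp.2.le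
  rw [h.V_zero, sub_zero, sub_zero, sub_zero] at h3
  have hl := h.lam_pos
  have hl1 := h.lam_lt
  have ht := h.tau_pos
  have hy := h.V_pos ⟨hp.1, hp.2.le⟩
  have hid : 1 / (1 / (1 + lam)) + 1 / (1 / lam - 1 / (1 + lam)) = (1 + lam) ^ 2 := by
    have e2 : 1 / lam - 1 / (1 + lam) = 1 / (lam * (1 + lam)) := by field_simp; ring
    rw [e2]
    field_simp
  rw [hid] at h3
  have hT : TT r lam V = V (1 / (1 + lam)) / lam ^ r := rfl
  -- V1(p*) ≤ (1+lam)^2 (1-t) y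
  have hTpos : 0 < TT r lam V := by linarith [h.T_pos]
  have hTy : TT r lam V - V (1 / (1 + lam)) = TT r lam V * (1 - lam ^ r) := by
    rw [hT]; field_simp
  rw [hTy] at h3
  have h4 : V1 (1 / (1 + lam)) ≤ V (1 / (1 + lam)) * (1 - lam ^ r) * (1 + lam) ^ 2 := by
    have : TT r lam V * V1 (1 / (1 + lam))
        ≤ TT r lam V * (V (1 / (1 + lam)) * (1 - lam ^ r) * (1 + lam) ^ 2) := by nlinarith
    exact le_of_mul_le_mul_left this hTpos
  have h5 := (h.y1_ineq hp' ⟨hp.2.le, le_rfl⟩).2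
  have hv := h.V1_pos 1 h11
  have hvp := h.V1_pos _ hp'
  have e1 : yy V V1 (-(V (1 / (1 + lam)))) 1 1 = (1 - V (1 / (1 + lam))) / Real.sqrt (V1 1) := by
    unfold yy; rw [h.V_one]; ring
  have e2 : yy1 V V1 N (-(V (1 / (1 + lam)))) 1 (1 / (1 + lam)) = Real.sqrt (V1 (1 / (1 + lam))) := by
    unfold yy1 yy; simp
  have e3 : 1 - 1 / (1 + lam) = lam / (1 + lam) := by field_simp; ring
  rw [e1, e2, e3, div_le_iff₀ (Real.sqrt_pos.mpr hv)] at h5
  have h6 : 0 ≤ 1 - V (1 / (1 + lam)) := by linarith [h.V_le_one hp']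
  have h7 := pow_le_pow_left₀ h6 h5 2
  have e4 : (Real.sqrt (V1 (1 / (1 + lam))) * (lam / (1 + lam)) * Real.sqrt (V1 1)) ^ 2
      = V1 (1 / (1 + lam)) * (lam ^ 2 / (1 + lam) ^ 2) * V1 1 := by
    rw [mul_pow, mul_pow, Real.sq_sqrt hvp.le, Real.sq_sqrt hv.le, div_pow]
  rw [e4] at h7
  calc (1 - V (1 / (1 + lam))) ^ 2 ≤ _ := h7
    _ ≤ V (1 / (1 + lam)) * (1 - lam ^ r) * (1 + lam) ^ 2 * (lam ^ 2 / (1 + lam) ^ 2) * V1 1 := by
        gcongr
    _ = _ := by field_simp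

end FV

end Pool.Agent.Feig
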