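import Mathlib

/-!
# Data attached to a solution of the period-doubling fixed point equation

`V` is the inverse of `p = (1 - f y) / (1 + lam)`, where `phi x = f (|x| ^ r)`.
-/

open Set

noncomputable section

namespace Pool.Agent.Feig

/-- All the analytic facts about `V` that the argument uses. -/
structure FV (r lam : ℝ) (V V1 N N1 N2 : ℝ → ℝ) : Prop where
  hr : 1 < r
  lam_pos : 0 < lam
  lam_lt : lam < 1
  V_zero : V 0 = 0
  V_one : V 1 = 1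
  dV : ∀ p ∈ Icc (0:ℝ) 1, HasDerivAt V (V1 p) p
  V1_pos : ∀ p ∈ Icc (0:ℝ) 1, 0 < V1 p
  dV1 : ∀ p ∈ Icc (0:ℝ) 1, HasDerivAt V1 (V1 p * N p) p
  dN : ∀ p ∈ Icc (0:ℝ) 1, HasDerivAt N (N1 p) p
  dN1 : ∀ p ∈ Icc (0:ℝ) 1, HasDerivAt N1 (N2 p) p
  cN2 : ContinuousOn N2 (Icc (0:ℝ) 1)
  eqn : ∀ p ∈ Icc (0:ℝ) 1,
    V ((1 - V (1 - lam * p) ^ (1 / r)) / (1 + lam)) = lam ^ r * V p
  kap : lam ^ r < V (1 - lam)

/-- The Schwarzian. -/
def Sch (N N1 : ℝ → ℝ) (p : ℝ) : ℝ := N1 p - N p ^ 2 / 2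

/-- Derivative of the Schwarzian. -/
def Sch1 (N N1 N2 : ℝ → ℝ) (p : ℝ) : ℝ := N2 p - N p * N1 p

/-- The inner map `g`. -/
def gm (r lam : ℝ) (V : ℝ → ℝ) (p : ℝ) : ℝ :=
  (1 - V (1 - lam * p) ^ (1 / r)) / (1 + lam)

/-- `Y = V'/V`. -/
def Yf (V V1 : ℝ → ℝ) (q : ℝ) : ℝ := V1 q / V q

/-- The derivative of `g`. -/
def gd (r lam : ℝ) (V V1 : ℝ → ℝ) (p : ℝ) : ℝ :=
  lam / (r * (1 + lam)) * (Yf V V1 (1 - lam * p) * V (1 - lam * p) ^ (1 / r))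

/-- `g''/g'`. -/
def hh (r lam : ℝ) (V V1 N : ℝ → ℝ) (p : ℝ) : ℝ :=
  lam * ((1 - 1 / r) * Yf V V1 (1 - lam * p) - N (1 - lam * p))

/-- The constant `(1 - 1/r^2)/2`. -/
def cc (r : ℝ) : ℝ := (1 - 1 / r ^ 2) / 2

namespace FV

variable {r lam : ℝ} {V V1 N N1 N2 : ℝ → ℝ}

lemma contV (h : FV r lam V V1 N N1 N2) : ContinuousOn V (Icc 0 1) :=
  fun p hp => (h.dV p hp).continuousAt.continuousWithinAt

lemma contV1 (h : FV r lam V V1 N N1 N2) : ContinuousOn V1 (Icc 0 1) :=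
  fun p hp => (h.dV1 p hp).continuousAt.continuousWithinAt

lemma contN (h : FV r lam V V1 N N1 N2) : ContinuousOn N (Icc 0 1) :=
  fun p hp => (h.dN p hp).continuousAt.continuousWithinAt

lemma contN1 (h : FV r lam V V1 N N1 N2) : ContinuousOn N1 (Icc 0 1) :=
  fun p hp => (h.dN1 p hp).continuousAt.continuousWithinAt

lemma strictMono (h : FV r lam V V1 N N1 N2) : StrictMonoOn V (Icc 0 1) := by
  apply strictMonoOn_of_deriv_pos (convex_Icc 0 1) h.contV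
  intro x hx
  rw [interior_Icc] at hx
  rw [(h.dV x (Ioo_subset_Icc_self hx)).deriv]
  exact h.V1_pos x (Ioo_subset_Icc_self hx)

lemma V_nonneg (h : FV r lam V V1 N N1 N2) {p : ℝ} (hp : p ∈ Icc (0:ℝ) 1) : 0 ≤ V p := by
  rw [← h.V_zero]
  exact h.strictMono.monotoneOn ⟨le_rfl, zero_le_one⟩ hp hp.1

lemma V_le_one (h : FV r lam V V1 N N1 N2) {p : ℝ} (hp : p ∈ Icc (0:ℝ) 1) : V p ≤ 1 := by
  rw [← h.V_one]
  exact h.strictMono.monotoneOn hp ⟨zero_le_one, le_rfl⟩ hp.2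

lemma V_pos (h : FV r lam V V1 N N1 N2) {p : ℝ} (hp : p ∈ Ioc (0:ℝ) 1) : 0 < V p := by
  rw [← h.V_zero]
  exact h.strictMono ⟨le_rfl, zero_le_one⟩ ⟨hp.1.le, hp.2⟩ hp.1

lemma V_lt_one (h : FV r lam V V1 N N1 N2) {p : ℝ} (hp : p ∈ Ico (0:ℝ) 1) : V p < 1 := by
  rw [← h.V_one]
  exact h.strictMono ⟨hp.1, hp.2.le⟩ ⟨zero_le_one, le_rfl⟩ hp.2

lemma r_pos (h : FV r lam V V1 N N1 N2) : 0 < r := lt_trans one_pos h.hr

lemma tau_pos (h : FV r lam V V1 N N1 N2) : 0 < lam ^ r := Real.rpow_pos_of_pos h.lam_pos r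

lemma tau_lt_lam (h : FV r lam V V1 N N1 N2) : lam ^ r < lam := by
  have := Real.rpow_lt_rpow_of_exponent_gt h.lam_pos h.lam_lt h.hr
  simpa using this

lemma tau_lt_one (h : FV r lam V V1 N N1 N2) : lam ^ r < 1 := h.tau_lt_lam.trans h.lam_lt

/-- `q = 1 - lam p` lies in `(0,1]` for `p ∈ [0, 1/lam)`. -/
lemma q_mem (h : FV r lam V V1 N N1 N2) {p : ℝ} (hp : p ∈ Ico (0:ℝ) (1 / lam)) :
    1 - lam * p ∈ Ioc (0:ℝ) 1 := by
  have hl := h.lam_pos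
  constructor
  · have : lam * p < lam * (1 / lam) := mul_lt_mul_of_pos_left hp.2 hl
    rw [mul_one_div_cancel hl.ne'] at this
    linarith
  · have : 0 ≤ lam * p := mul_nonneg hl.le hp.1
    linarith

lemma one_lt_b (h : FV r lam V V1 N N1 N2) : 1 < 1 / lam := by
  rw [lt_div_iff₀ h.lam_pos]; linarith [h.lam_lt]

lemma mem_b (h : FV r lam V V1 N N1 N2) {p : ℝ} (hp : p ∈ Icc (0:ℝ) 1) :
    p ∈ Ico (0:ℝ) (1 / lam) := ⟨hp.1, lt_of_le_of_lt hp.2 h.one_lt_b⟩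

/-- the power `x = V(q)^(1/r)` lies in `(0,1]`. -/
lemma x_mem (h : FV r lam V V1 N N1 N2) {q : ℝ} (hq : q ∈ Ioc (0:ℝ) 1) :
    V q ^ (1 / r) ∈ Ioc (0:ℝ) 1 := by
  constructor
  · exact Real.rpow_pos_of_pos (h.V_pos hq) _
  · exact Real.rpow_le_one (h.V_pos hq).le (h.V_le_one ⟨hq.1.le, hq.2⟩) (by
      have := h.r_pos
      positivity)

lemma g_mem (h : FV r lam V V1 N N1 N2) {p : ℝ} (hp : p ∈ Ico (0:ℝ) (1 / lam)) :
    gm r lam V p ∈ Ico (0:ℝ) (1 / (1 + lam)) := by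
  have hx := h.x_mem (h.q_mem hp)
  have hl := h.lam_pos
  unfold gm
  constructor
  · exact div_nonneg (by linarith [hx.2]) (by linarith)
  · exact div_lt_div_of_pos_right (by linarith [hx.1]) (by linarith)

lemma g_mem' (h : FV r lam V V1 N N1 N2) {p : ℝ} (hp : p ∈ Ico (0:ℝ) (1 / lam)) :
    gm r lam V p ∈ Icc (0:ℝ) 1 := by
  have := h.g_mem hp
  have hl := h.lam_pos
  refine ⟨this.1, this.2.le.trans ?_⟩
  rw [div_le_one (by linarith)]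
  linarith

lemma Y_pos (h : FV r lam V V1 N N1 N2) {q : ℝ} (hq : q ∈ Ioc (0:ℝ) 1) : 0 < Yf V V1 q :=
  div_pos (h.V1_pos q ⟨hq.1.le, hq.2⟩) (h.V_pos hq)

lemma gd_pos (h : FV r lam V V1 N N1 N2) {p : ℝ} (hp : p ∈ Ico (0:ℝ) (1 / lam)) :
    0 < gd r lam V V1 p := by
  have hl := h.lam_pos
  have hr := h.r_pos
  have h1 := h.Y_pos (h.q_mem hp)
  have h2 := (h.x_mem (h.q_mem hp)).1
  unfold gd
  positivity

/-- derivative of the inner map `q`. -/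
lemma dq (p : ℝ) : HasDerivAt (fun p : ℝ => 1 - lam * p) (-lam) p := by
  have := ((hasDerivAt_id p).const_mul lam).const_sub 1
  simpa using this

lemma dY (h : FV r lam V V1 N N1 N2) {q : ℝ} (hq : q ∈ Ioc (0:ℝ) 1) :
    HasDerivAt (Yf V V1) (Yf V V1 q * (N q - Yf V V1 q)) q := by
  have hq' : q ∈ Icc (0:ℝ) 1 := ⟨hq.1.le, hq.2⟩
  have hV := h.V_pos hq
  have := (h.dV1 q hq').div (h.dV q hq') hV.ne'
  refine this.congr_deriv ?_
  unfold Yf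
  field_simp

lemma dg (h : FV r lam V V1 N N1 N2) {p : ℝ} (hp : p ∈ Ico (0:ℝ) (1 / lam)) :
    HasDerivAt (gm r lam V) (gd r lam V V1 p) p := by
  have hq := h.q_mem hp
  have hq' : 1 - lam * p ∈ Icc (0:ℝ) 1 := ⟨hq.1.le, hq.2⟩
  have hV := h.V_pos hq
  have hr := h.r_pos
  have hl := h.lam_pos
  have hc : HasDerivAt (fun p => V (1 - lam * p)) (V1 (1 - lam * p) * (-lam)) p :=
    (h.dV _ hq').comp p (dq p)
  have hx : HasDerivAt (fun p => V (1 - lam * p) ^ (1 / r))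
      (V1 (1 - lam * p) * (-lam) * (1 / r) * V (1 - lam * p) ^ (1 / r - 1)) p :=
    hc.rpow_const (Or.inl hV.ne')
  have := (hx.const_sub 1).div_const (1 + lam)
  refine this.congr_deriv ?_
  unfold gd Yf
  rw [Real.rpow_sub_one hV.ne']
  have h1 : (1 + lam) ≠ 0 := by linarith
  field_simp

lemma dgd (h : FV r lam V V1 N N1 N2) {p : ℝ} (hp : p ∈ Ico (0:ℝ) (1 / lam)) :
    HasDerivAt (gd r lam V V1) (gd r lam V V1 p * hh r lam V V1 N p) p := by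
  have hq := h.q_mem hp
  have hq' : 1 - lam * p ∈ Icc (0:ℝ) 1 := ⟨hq.1.le, hq.2⟩
  have hV := h.V_pos hq
  have hr := h.r_pos
  have hl := h.lam_pos
  have hc : HasDerivAt (fun p => V (1 - lam * p)) (V1 (1 - lam * p) * (-lam)) p :=
    (h.dV _ hq').comp p (dq p)
  have hx : HasDerivAt (fun p => V (1 - lam * p) ^ (1 / r))
      (V1 (1 - lam * p) * (-lam) * (1 / r) * V (1 - lam * p) ^ (1 / r - 1)) p :=
    hc.rpow_const (Or.inl hV.ne')
  have hY := HasDerivAt.comp p (h.dY hq) (dq (lam := lam) p)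
  have := (hY.mul hx).const_mul (lam / (r * (1 + lam)))
  refine this.congr_deriv ?_
  unfold gd hh
  simp only [Function.comp]
  rw [Real.rpow_sub_one hV.ne']
  have h1 : (1 + lam) ≠ 0 := by linarith
  have hYd : Yf V V1 (1 - lam * p) = V1 (1 - lam * p) / V (1 - lam * p) := rfl
  rw [hYd]
  field_simp
  ring

end FV

end Pool.Agent.Feig
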