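import Pool.Agent.Feig.Apriori

/-!
# Numerical a priori bounds for `r ≤ 2`
-/

open Set

noncomputable section

namespace Pool.Agent.Feig

namespace FV

variable {r lam : ℝ} {V V1 N N1 N2 : ℝ → ℝ}

lemma y_bound (h : FV r lam V V1 N N1 N2) :
    1 - lam + lam * lam ^ r ≤ V (1 / (1 + lam)) := by
  have hB := h.B1
  have hG := h.G1
  have hp := h.pst_mem
  have hy1 := h.V_lt_one ⟨hp.1.le, hp.2⟩
  have hl := h.lam_pos
  have hl1 := h.lam_lt
  have ht := h.tau_pos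
  have ht1 := h.tau_lt_one
  set y := V (1 / (1 + lam))
  set t := lam ^ r
  have h1 : (1 - lam) * (1 - y) ^ 2 ≤ lam * ((1 - y) * (y - t)) := by
    have e1 := mul_le_mul_of_nonneg_left hG (by linarith : 0 ≤ 1 - lam)
    have e2 := mul_le_mul_of_nonneg_left hB hl.le
    nlinarith
  have h2 : (1 - y) * ((1 - lam) * (1 - y)) ≤ (1 - y) * (lam * (y - t)) := by nlinarith
  have h3 := le_of_mul_le_mul_left h2 (by linarith)
  linarith

lemma tau_lt_y (h : FV r lam V V1 N N1 N2) : lam ^ r < V (1 / (1 + lam)) := by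
  have h1 := h.T_pos
  unfold TT at h1
  rwa [one_lt_div h.tau_pos] at h1

/-- (A1) -/
lemma A1 (h : FV r lam V V1 N N1 N2) : V1 1 * (1 - lam) ≤ 1 - lam ^ r := by
  have hB := h.B1
  have hy := h.y_bound
  have hyt := h.tau_lt_y
  have hp := h.pst_mem
  have hy1 := h.V_lt_one ⟨hp.1.le, hp.2⟩
  have hl := h.lam_pos
  have hl1 := h.lam_lt
  have ht := h.tau_pos
  have ht1 := h.tau_lt_one
  set y := V (1 / (1 + lam))
  set t := lam ^ r
  have h1 : (1 - y) * (y - t) ≤ lam * (1 - t) * (y - t) :=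
    mul_le_mul_of_nonneg_right (by linarith) (by linarith)
  have h2 : lam * (1 - t) * (V1 1 * (1 - lam) * y) ≤ lam * (1 - t) * (y - t) := by nlinarith
  have h3 := le_of_mul_le_mul_left h2 (mul_pos hl (by linarith))
  have hy0 : 0 < y := ht.trans hyt
  have h4 : V1 1 * (1 - lam) * y ≤ (1 - t) * y := by nlinarith
  exact le_of_mul_le_mul_right h4 hy0

/-- `lam^r` as `lam * lam^(r-1)`. -/
lemma tau_split (h : FV r lam V V1 N N1 N2) : lam ^ r = lam * lam ^ (r - 1) := by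
  have := Real.rpow_add h.lam_pos 1 (r - 1)
  rw [Real.rpow_one] at this
  rw [← this]
  congr 1
  ring

lemma v_eq' (h : FV r lam V V1 N N1 N2) : V1 1 = r * lam ^ (r - 1) * (1 + lam) := by
  have h1 := h.v_eq
  rw [h.tau_split] at h1
  have hl := h.lam_pos
  have : lam * V1 1 = lam * (r * lam ^ (r - 1) * (1 + lam)) := by linarith
  exact mul_left_cancel₀ hl.ne' this

lemma tau_ge_sq (h : FV r lam V V1 N N1 N2) (hr2 : r ≤ 2) : lam ^ 2 ≤ lam ^ r := by
  have := Real.rpow_le_rpow_of_exponent_ge h.lam_pos h.lam_lt.le hr2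
  rwa [Real.rpow_two] at this

lemma lam_le_half (h : FV r lam V V1 N N1 N2) (hr2 : r ≤ 2) : lam ≤ 1 / 2 := by
  by_contra hc
  push Not at hc
  have hA := h.A1
  rw [h.v_eq'] at hA
  have hl := h.lam_pos
  have hl1 := h.lam_lt
  have hr := h.hr
  have hsq := h.tau_ge_sq hr2
  have h1 : (1 / 2 : ℝ) ^ (r - 1) < lam ^ (r - 1) :=
    Real.rpow_lt_rpow (by norm_num) hc (by linarith)
  have h2 : (1 + 1 : ℝ) ^ (r - 1) ≤ 1 + (r - 1) * 1 :=
    rpow_one_add_le_one_add_mul_self (by norm_num) (by linarith) (by linarith)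
  have h3 : (1 / 2 : ℝ) ^ (r - 1) * (1 + 1 : ℝ) ^ (r - 1) = 1 := by
    rw [← Real.mul_rpow (by norm_num) (by norm_num)]
    norm_num
  have h4 : 0 < (1 / 2 : ℝ) ^ (r - 1) := Real.rpow_pos_of_pos (by norm_num) _
  have h5 : 1 ≤ r * (1 / 2 : ℝ) ^ (r - 1) := by
    have := mul_le_mul_of_nonneg_left h2 h4.le
    rw [h3] at this
    linarith
  have h6 : 1 < r * lam ^ (r - 1) := by nlinarith
  have h7 : 0 < 1 - lam ^ 2 := by nlinarith
  nlinarith

lemma w_ge (h : FV r lam V V1 N N1 N2) (hr2 : r ≤ 2) : 2 * lam ≤ r * lam ^ (r - 1) := by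
  have hl := h.lam_pos
  have hr := h.hr
  have hh := h.lam_le_half hr2
  have h1 : lam ^ (2 - r) ≤ (1 / 2 : ℝ) ^ (2 - r) :=
    Real.rpow_le_rpow hl.le hh (by linarith)
  have h2 : (1 + (-(1/2)) : ℝ) ^ (2 - r) ≤ 1 + (2 - r) * (-(1/2)) :=
    rpow_one_add_le_one_add_mul_self (by norm_num) (by linarith) (by linarith)
  have h3 : lam ^ (2 - r) ≤ r / 2 := by
    calc lam ^ (2 - r) ≤ (1 / 2 : ℝ) ^ (2 - r) := h1
      _ = (1 + (-(1/2)) : ℝ) ^ (2 - r) := by norm_num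
      _ ≤ _ := h2
      _ = r / 2 := by ring
  have h4 : lam ^ (r - 1) * lam ^ (2 - r) = lam := by
    rw [← Real.rpow_add hl]
    have : r - 1 + (2 - r) = 1 := by ring
    rw [this, Real.rpow_one]
  have h5 : 0 < lam ^ (r - 1) := Real.rpow_pos_of_pos hl _
  nlinarith

lemma v_ge (h : FV r lam V V1 N N1 N2) (hr2 : r ≤ 2) : 2 * lam * (1 + lam) ≤ V1 1 := by
  rw [h.v_eq']
  have := h.w_ge hr2
  have hl := h.lam_pos
  nlinarith

/-- (B2) -/
lemma B2 (h : FV r lam V V1 N N1 N2) (hr2 : r ≤ 2) :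
    V1 1 * (1 - lam + lam * lam ^ r) ≤ 1 - lam ^ r := by
  have hh := h.lam_le_half hr2
  have hB := h.B1
  have hy := h.y_bound
  have hyt := h.tau_lt_y
  have hl := h.lam_pos
  have hl1 := h.lam_lt
  have ht := h.tau_pos
  have ht1 := h.tau_lt_one
  set y := V (1 / (1 + lam))
  set t := lam ^ r
  set y0 := 1 - lam + lam * t with hy0
  have h0 : (1 + t) / 2 ≤ y0 := by rw [hy0]; nlinarith
  have h1 : t ≤ y0 ^ 2 := by nlinarith
  have hy0p : 0 < y0 := by linarith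
  have h2 : t ≤ y * y0 := by nlinarith
  have h3 : (1 - y) * (y - t) * y0 ≤ (1 - y0) * (y0 - t) * y := by
    have : 0 ≤ (y - y0) * (y * y0 - t) := mul_nonneg (by linarith) (by linarith)
    nlinarith
  have e1 : (1 - y0) * (y0 - t) = lam * (1 - t) * ((1 - lam) * (1 - t)) := by rw [hy0]; ring
  rw [e1] at h3
  have h4 := mul_le_mul_of_nonneg_right hB hy0p.le
  have hyp : 0 < y := ht.trans hyt
  have h5 : (lam * (1 - lam) * (1 - t) * y) * (V1 1 * y0) ≤ (lam * (1 - lam) * (1 - t) * y) * (1 - t) := by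
    nlinarith
  exact le_of_mul_le_mul_left h5 (by
    have : 0 < 1 - lam := by linarith
    have : 0 < 1 - t := by linarith
    positivity)

lemma v_nonneg (h : FV r lam V V1 N N1 N2) : 0 < V1 1 :=
  h.V1_pos 1 ⟨zero_le_one, le_rfl⟩

lemma B2' (h : FV r lam V V1 N N1 N2) (hr2 : r ≤ 2) :
    V1 1 * (1 - lam + lam ^ 3) ≤ 1 - lam ^ 2 := by
  have h1 := h.B2 hr2
  have h2 := h.tau_ge_sq hr2
  have hv := h.v_nonneg
  have hl := h.lam_pos
  have h3 : lam ^ 3 ≤ lam * lam ^ r := by nlinarith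
  nlinarith

lemma lam_le_716 (h : FV r lam V V1 N N1 N2) (hr2 : r ≤ 2) : lam ≤ 7 / 16 := by
  by_contra hc
  push Not at hc
  have h1 := h.B2' hr2
  have h2 := h.v_ge hr2
  have hl := h.lam_pos
  have hh := h.lam_le_half hr2
  have h3 : 0 < 1 - lam + lam ^ 3 := by nlinarith [pow_pos hl 3]
  have h4 : 2 * lam * (1 + lam) * (1 - lam + lam ^ 3) ≤ (1 - lam) * (1 + lam) := by nlinarith
  have h5 : 2 * lam * (1 - lam + lam ^ 3) ≤ 1 - lam := by nlinarith
  nlinarith [mul_pos hl hl, pow_pos hl 3, mul_nonneg (sub_nonneg.mpr hc.le) (sub_nonneg.mpr hh),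
    mul_nonneg (mul_nonneg (sub_nonneg.mpr hc.le) (sub_nonneg.mpr hh)) hl.le]

lemma v_le (h : FV r lam V V1 N N1 N2) (hr2 : r ≤ 2) : V1 1 ≤ 32 / 25 := by
  have h1 := h.B2' hr2
  have hl := h.lam_pos
  have hh := h.lam_le_716 hr2
  have h3 : 0 < 1 - lam + lam ^ 3 := by nlinarith [pow_pos hl 3]
  have h4 : 1 - lam ^ 2 ≤ 32 / 25 * (1 - lam + lam ^ 3) := by
    nlinarith [sq_nonneg (lam - 37 / 100), mul_nonneg hl.le (sq_nonneg (lam - 37 / 100))]
  have h5 : V1 1 * (1 - lam + lam ^ 3) ≤ 32 / 25 * (1 - lam + lam ^ 3) := h1.trans h4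
  exact le_of_mul_le_mul_right h5 h3

end FV

end Pool.Agent.Feig
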