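import Pool.Agent.Feig.Bounds

/-!
# Numerical a priori bound for `r ≤ 3/2`
-/

open Set

noncomputable section

namespace Pool.Agent.Feig

namespace FV

variable {r lam : ℝ} {V V1 N N1 N2 : ℝ → ℝ}

lemma w_ge_one (h : FV r lam V V1 N N1 N2) (hr2 : r ≤ 3 / 2) (hl49 : 4 / 9 ≤ lam) :
    1 ≤ r * lam ^ (r - 1) := by
  have hl := h.lam_pos
  have hr := h.hr
  have h1 : (4 / 9 : ℝ) ^ (r - 1) ≤ lam ^ (r - 1) :=
    Real.rpow_le_rpow (by norm_num) hl49 (by linarith)
  have h2 : (1 + 1 / 2 : ℝ) ^ (2 * (r - 1)) ≤ 1 + 2 * (r - 1) * (1 / 2) :=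
    rpow_one_add_le_one_add_mul_self (by norm_num) (by linarith) (by linarith)
  have h3 : (4 / 9 : ℝ) ^ (r - 1) * (1 + 1 / 2 : ℝ) ^ (2 * (r - 1)) = 1 := by
    rw [Real.rpow_mul (by norm_num), ← Real.mul_rpow (by norm_num) (by positivity)]
    norm_num
  have h4 : 0 < (4 / 9 : ℝ) ^ (r - 1) := Real.rpow_pos_of_pos (by norm_num) _
  have h5 := mul_le_mul_of_nonneg_left h2 h4.le
  rw [h3] at h5
  nlinarith

lemma w_ge_sqrt (h : FV r lam V V1 N N1 N2) (hr2 : r ≤ 3 / 2) (hl49 : lam ≤ 4 / 9) :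
    3 / 2 * lam ^ (1 / 2 : ℝ) ≤ r * lam ^ (r - 1) := by
  have hl := h.lam_pos
  have hr := h.hr
  have h1 : lam ^ (3 / 2 - r) ≤ (4 / 9 : ℝ) ^ (3 / 2 - r) :=
    Real.rpow_le_rpow hl.le hl49 (by linarith)
  have h2 : (1 + (-(1/3)) : ℝ) ^ (2 * (3 / 2 - r)) ≤ 1 + 2 * (3 / 2 - r) * (-(1/3)) :=
    rpow_one_add_le_one_add_mul_self (by norm_num) (by linarith) (by linarith)
  have h3 : (4 / 9 : ℝ) ^ (3 / 2 - r) = (1 + (-(1/3)) : ℝ) ^ (2 * (3 / 2 - r)) := by
    rw [Real.rpow_mul (by norm_num)]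
    norm_num
  have h3' : lam ^ (3 / 2 - r) ≤ 2 * r / 3 := by
    rw [h3] at h1
    linarith
  have h4 : lam ^ (r - 1) * lam ^ (3 / 2 - r) = lam ^ (1 / 2 : ℝ) := by
    rw [← Real.rpow_add hl]
    congr 1
    ring
  have h5 : 0 < lam ^ (r - 1) := Real.rpow_pos_of_pos hl _
  rw [← h4]
  nlinarith

lemma lam_le_third (h : FV r lam V V1 N N1 N2) (hr2 : r ≤ 3 / 2) : lam ≤ 1 / 3 := by
  by_contra hc
  push Not at hc
  have hl := h.lam_pos
  have hl1 := h.lam_lt
  have hr2' : r ≤ 2 := by linarith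
  have hB := h.B2 hr2'
  have ht := h.tau_pos
  have hsq := h.tau_ge_sq hr2'
  have hve := h.v_eq'
  rcases le_total (4 / 9) lam with h49 | h49
  · have hw := h.w_ge_one hr2 h49
    have hv : 1 + lam ≤ V1 1 := by rw [hve]; nlinarith
    have h1 : (1 + lam) * (1 - lam + lam * lam ^ r) ≤ 1 - lam ^ r := by
      refine le_trans (mul_le_mul_of_nonneg_right hv ?_) hB
      have := mul_pos hl ht
      linarith
    nlinarith [mul_pos hl ht, mul_pos hl (mul_pos hl ht)]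
  · have hw := h.w_ge_sqrt hr2 h49
    set s := lam ^ (1 / 2 : ℝ) with hs
    have hs0 : 0 < s := Real.rpow_pos_of_pos hl _
    have hss : s ^ 2 = lam := by
      rw [hs, ← Real.rpow_natCast, ← Real.rpow_mul hl.le]
      norm_num
    have ht3 : s ^ 3 ≤ lam ^ r := by
      have e1 : s ^ 3 = lam ^ (3 / 2 : ℝ) := by
        rw [hs, ← Real.rpow_natCast, ← Real.rpow_mul hl.le]
        norm_num
      rw [e1]
      exact Real.rpow_le_rpow_of_exponent_ge hl hl1.le hr2
    have hv : 3 / 2 * s * (1 + lam) ≤ V1 1 := by rw [hve]; nlinarith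
    have h1 : 3 / 2 * s * (1 + lam) * (1 - lam + lam * s ^ 3) ≤ 1 - s ^ 3 := by
      have e1 : 3 / 2 * s * (1 + lam) * (1 - lam + lam * s ^ 3)
          ≤ V1 1 * (1 - lam + lam * lam ^ r) := by
        have : 0 ≤ 1 - lam + lam * s ^ 3 := by
          have : 0 < lam * s ^ 3 := by positivity
          linarith
        apply mul_le_mul hv _ this h.v_nonneg.le
        nlinarith
      linarith
    rw [← hss] at h1 hc h49
    have hs1 : 577 / 1000 ≤ s := by nlinarith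
    have hs2 : s ≤ 2 / 3 := by nlinarith
    have h2 : 3 / 2 * s + s ^ 3 - 1 ≤ 3 / 2 * s ^ 5 * (1 - s - s ^ 3) := by nlinarith
    have h3 : s ^ 3 ≥ 1920 / 10000 := by
      have := pow_le_pow_left₀ (by norm_num) hs1 3
      norm_num at this ⊢
      linarith
    have h4 : s ^ 5 ≤ 132 / 1000 := by
      have := pow_le_pow_left₀ hs0.le hs2 5
      norm_num at this ⊢
      linarith
    have h5 : 1 - s - s ^ 3 ≤ 232 / 1000 := by linarith
    have h6 : s ^ 5 * (1 - s - s ^ 3) ≤ 132 / 1000 * (232 / 1000) := by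
      have : 0 ≤ 1 - s - s ^ 3 := by
        have := pow_le_pow_left₀ hs0.le hs2 3
        norm_num at this
        linarith
      exact mul_le_mul h4 h5 this (by norm_num)
    nlinarith

end FV

end Pool.Agent.Feig
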