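import Pool.Agent.Feig.Pair7

/-!
# The two parameter boxes
-/

open Set Filter Topology

noncomputable section

namespace Pool.Agent.Feig

/-- box for `3/2 ≤ r ≤ 2` -/
def boxB : Bx where
  L := 7 / 16
  ra := 3 / 2
  em := 1 / 2
  cm := 3 / 8
  x0 := 2359 / 1000
  S0 := 69 / 100
  G0 := 2292 / 10000
  H := 94 / 100
  vm := 877 / 1000
  xi := 209 / 100
  G := 12 / 100
  gam := 3465 / 10000
  s := 635 / 100
  rho := 998 / 100
  nu := 805 / 1000
  nm := 476 / 1000
  hb := 153 / 100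

lemma boxB_ok : boxB.Ok := by
  constructor <;> norm_num [boxB]

def boxB2 : Bx2 where
  rb := 2
  D := 13044 / 10000
  e6 := 1887 / 10000
  tg := 3187 / 1000
  Gd := 148 / 100
  T := 3394 / 100
  T' := 713 / 100
  C := 574 / 10

lemma boxB2_ok : boxB2.Ok boxB := by
  constructor <;> norm_num [boxB, boxB2]

lemma boxB_fin : Fin2 boxB boxB2 (5 / 9) := by
  constructor <;> norm_num [boxB, boxB2]

/-- box for `1 < r ≤ 3/2` -/
def boxA : Bx where
  L := 1 / 3
  ra := 1
  em := 1 / 3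
  cm := 5 / 18
  x0 := 27 / 14
  S0 := 175 / 1000
  G0 := 2325 / 10000
  H := 98 / 100
  vm := 97 / 100
  xi := 177 / 100
  G := 1537 / 10000
  gam := 3921 / 10000
  s := 427 / 100
  rho := 426 / 100
  nu := 62 / 100
  nm := 304 / 1000
  hb := 9 / 10

lemma boxA_ok : boxA.Ok := by
  constructor <;> norm_num [boxA]

def boxA2 : Bx2 where
  rb := 3 / 2
  D := 75 / 100
  e6 := 1736 / 10000
  tg := 2301 / 1000
  Gd := 134 / 100
  T := 1841 / 100
  T' := 474 / 100
  C := 26

lemma boxA2_ok : boxA2.Ok boxA := by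
  constructor <;> norm_num [boxA, boxA2]

lemma boxA_fin : Fin2 boxA boxA2 1 := by
  constructor <;> norm_num [boxA, boxA2]

lemma cc_le_of_le {r rb : ℝ} (hr : 1 < r) (hrb : r ≤ rb) : cc r ≤ cc rb := by
  unfold cc
  have : 1 / rb ^ 2 ≤ 1 / r ^ 2 := by
    apply one_div_le_one_div_of_le (by positivity)
    exact pow_le_pow_left₀ (by linarith) hrb 2
  linarith

theorem unique_of_le {r la lb : ℝ} {V V1 N N1 N2 W W1 M M1 M2 : ℝ → ℝ}
    (h : FV r la V V1 N N1 N2) (h' : FV r lb W W1 M M1 M2) (hr2 : r ≤ 2) (hab : la ≤ lb) :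
    la = lb ∧ ∀ p ∈ Icc (0:ℝ) 1, V p = W p := by
  have hr := h.hr
  rcases le_total r (3 / 2) with hc | hc
  · have em : 1 - 1 / r ≤ boxA.em := by
      have : 1 / (3 / 2 : ℝ) ≤ 1 / r := one_div_le_one_div_of_le (by linarith) hc
      norm_num [boxA] at this ⊢
      linarith
    have cm : cc r ≤ boxA.cm := by
      refine (cc_le_of_le hr hc).trans ?_
      norm_num [cc, boxA]
    have ra : boxA.ra ≤ r := by norm_num [boxA]; linarith
    have la3 : la ≤ boxA.L := by norm_num [boxA]; exact h.lam_le_third hc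
    have lb3 : lb ≤ boxA.L := by norm_num [boxA]; exact h'.lam_le_third hc
    exact unique_box h h' (h.sing hr2 boxA_ok ra em cm la3) (h'.sing hr2 boxA_ok ra em cm lb3)
      boxA_ok boxA2_ok boxA_fin hr2 ra (by norm_num [boxA2]; exact hc) cm hab lb3
  · have em : 1 - 1 / r ≤ boxB.em := by
      have : 1 / (2 : ℝ) ≤ 1 / r := one_div_le_one_div_of_le (by linarith) hr2
      norm_num [boxB] at this ⊢
      linarith
    have cm : cc r ≤ boxB.cm := by
      refine (cc_le_of_le hr hr2).trans ?_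
      norm_num [cc, boxB]
    have ra : boxB.ra ≤ r := by norm_num [boxB]; linarith
    have la3 : la ≤ boxB.L := by norm_num [boxB]; exact h.lam_le_716 hr2
    have lb3 : lb ≤ boxB.L := by norm_num [boxB]; exact h'.lam_le_716 hr2
    exact unique_box h h' (h.sing hr2 boxB_ok ra em cm la3) (h'.sing hr2 boxB_ok ra em cm lb3)
      boxB_ok boxB2_ok boxB_fin hr2 ra (by norm_num [boxB2]; exact hr2) cm hab lb3

theorem unique {r la lb : ℝ} {V V1 N N1 N2 W W1 M M1 M2 : ℝ → ℝ}
    (h : FV r la V V1 N N1 N2) (h' : FV r lb W W1 M M1 M2) (hr2 : r ≤ 2) :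
    la = lb ∧ ∀ p ∈ Icc (0:ℝ) 1, V p = W p := by
  rcases le_total la lb with hab | hab
  · exact unique_of_le h h' hr2 hab
  · have := unique_of_le h' h hr2 hab
    exact ⟨this.1.symm, fun p hp => (this.2 p hp).symm⟩

end Pool.Agent.Feig
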