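import Pool.Agent.Feig.SPos

/-!
# Concavity consequences of the positivity of the Schwarzian
-/

open Set

noncomputable section

namespace Pool.Agent.Feig

/-- Tangent inequality at the left end for a concave function. -/
lemma tangent_left {f f1 f2 : ℝ → ℝ} {a b : ℝ} (hab : a ≤ b)
    (h1 : ∀ x ∈ Icc a b, HasDerivAt f (f1 x) x) (h2 : ∀ x ∈ Icc a b, HasDerivAt f1 (f2 x) x)
    (h3 : ∀ x ∈ Icc a b, f2 x ≤ 0) : f b ≤ f a + f1 a * (b - a) := by
  have hanti : AntitoneOn f1 (Icc a b) := by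
    apply antitoneOn_of_deriv_nonpos (convex_Icc a b)
    · exact fun x hx => (h2 x hx).continuousAt.continuousWithinAt
    · intro x hx
      rw [interior_Icc] at hx
      exact (h2 x (Ioo_subset_Icc_self hx)).differentiableAt.differentiableWithinAt
    · intro x hx
      rw [interior_Icc] at hx
      rw [(h2 x (Ioo_subset_Icc_self hx)).deriv]
      exact h3 x (Ioo_subset_Icc_self hx)
  rcases hab.eq_or_lt with hab' | hab'
  · subst hab'; simp
  · obtain ⟨c, hc, hc'⟩ := exists_hasDerivAt_eq_slope f f1 hab'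
      (fun x hx => (h1 x hx).continuousAt.continuousWithinAt)
      (fun x hx => h1 x (Ioo_subset_Icc_self hx))
    have := hanti ⟨le_rfl, hab⟩ (Ioo_subset_Icc_self hc) hc.1.le
    rw [hc', div_le_iff₀ (by linarith)] at this
    linarith

/-- Tangent inequality at the right end for a concave function. -/
lemma tangent_right {f f1 f2 : ℝ → ℝ} {a b : ℝ} (hab : a ≤ b)
    (h1 : ∀ x ∈ Icc a b, HasDerivAt f (f1 x) x) (h2 : ∀ x ∈ Icc a b, HasDerivAt f1 (f2 x) x)
    (h3 : ∀ x ∈ Icc a b, f2 x ≤ 0) : f a ≤ f b - f1 b * (b - a) := by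
  have hanti : AntitoneOn f1 (Icc a b) := by
    apply antitoneOn_of_deriv_nonpos (convex_Icc a b)
    · exact fun x hx => (h2 x hx).continuousAt.continuousWithinAt
    · intro x hx
      rw [interior_Icc] at hx
      exact (h2 x (Ioo_subset_Icc_self hx)).differentiableAt.differentiableWithinAt
    · intro x hx
      rw [interior_Icc] at hx
      rw [(h2 x (Ioo_subset_Icc_self hx)).deriv]
      exact h3 x (Ioo_subset_Icc_self hx)
  rcases hab.eq_or_lt with hab' | hab'
  · subst hab'; simp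
  · obtain ⟨c, hc, hc'⟩ := exists_hasDerivAt_eq_slope f f1 hab'
      (fun x hx => (h1 x hx).continuousAt.continuousWithinAt)
      (fun x hx => h1 x (Ioo_subset_Icc_self hx))
    have := hanti (Ioo_subset_Icc_self hc) ⟨hab, le_rfl⟩ hc.2.le
    rw [hc', le_div_iff₀ (by linarith)] at this
    linarith

/-- differentiability data of a diffeomorphism `W` with nonlinearity `M`. -/
structure WD (I : Set ℝ) (W W1 M M1 : ℝ → ℝ) : Prop where
  dW : ∀ p ∈ I, HasDerivAt W (W1 p) p
  W1_pos : ∀ p ∈ I, 0 < W1 p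
  dW1 : ∀ p ∈ I, HasDerivAt W1 (W1 p * M p) p
  dM : ∀ p ∈ I, HasDerivAt M (M1 p) p

/-- solutions `(A + B W)/sqrt W'` of `y'' = - S y / 2`. -/
def yy (W W1 : ℝ → ℝ) (A B : ℝ) (p : ℝ) : ℝ := (A + B * W p) / Real.sqrt (W1 p)

def yy1 (W W1 M : ℝ → ℝ) (A B : ℝ) (p : ℝ) : ℝ :=
  B * Real.sqrt (W1 p) - 1 / 2 * M p * yy W W1 A B p

namespace WD

variable {I : Set ℝ} {W W1 M M1 : ℝ → ℝ}

lemma ds (h : WD I W W1 M M1) {p : ℝ} (hp : p ∈ I) :
    HasDerivAt (fun p => Real.sqrt (W1 p)) (1 / 2 * M p * Real.sqrt (W1 p)) p := by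
  have hW := h.W1_pos p hp
  have := (h.dW1 p hp).sqrt hW.ne'
  refine this.congr_deriv ?_
  have hs : Real.sqrt (W1 p) ^ 2 = W1 p := Real.sq_sqrt hW.le
  have hs' : 0 < Real.sqrt (W1 p) := Real.sqrt_pos.mpr hW
  rw [div_eq_iff (by positivity)]
  linear_combination (-(M p)) * hs

lemma dyy (h : WD I W W1 M M1) (A B : ℝ) {p : ℝ} (hp : p ∈ I) :
    HasDerivAt (yy W W1 A B) (yy1 W W1 M A B p) p := by
  have hW := h.W1_pos p hp
  have hs : Real.sqrt (W1 p) ^ 2 = W1 p := Real.sq_sqrt hW.le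
  have hs' : 0 < Real.sqrt (W1 p) := Real.sqrt_pos.mpr hW
  have := (((h.dW p hp).const_mul B).const_add A).div (h.ds hp) hs'.ne'
  refine this.congr_deriv ?_
  unfold yy1 yy
  rw [div_eq_iff (by positivity)]
  field_simp
  linear_combination (-2 * B) * hs

lemma dyy1 (h : WD I W W1 M M1) (A B : ℝ) {p : ℝ} (hp : p ∈ I) :
    HasDerivAt (yy1 W W1 M A B) (-(1 / 2) * Sch M M1 p * yy W W1 A B p) p := by
  have := ((h.ds hp).const_mul B).sub (((h.dM p hp).const_mul (1/2)).mul (h.dyy A B hp))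
  refine this.congr_deriv ?_
  unfold yy1 Sch
  ring

end WD

end Pool.Agent.Feig
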