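import Pool.Agent.Feig.Basic

/-!
# Extension of `V` to `[0, 1/lam)` and the Schwarzian equation
-/

open Set

noncomputable section

namespace Pool.Agent.Feig

/-- derivatives of functions agreeing on `[0,1]` agree. -/
lemma deriv_unique {f g : ℝ → ℝ} {a b p : ℝ} (hfg : ∀ x ∈ Icc (0:ℝ) 1, f x = g x)
    (hp : p ∈ Icc (0:ℝ) 1) (hf : HasDerivAt f a p) (hg : HasDerivAt g b p) : a = b := by
  have h1 : HasDerivWithinAt f a (Icc 0 1) p := hf.hasDerivWithinAt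
  have h2 : HasDerivWithinAt f b (Icc 0 1) p :=
    hg.hasDerivWithinAt.congr (fun x hx => hfg x hx) (hfg p hp)
  exact (uniqueDiffOn_Icc zero_lt_one p hp).eq_deriv _ h1 h2

def Ve (r lam : ℝ) (V : ℝ → ℝ) (p : ℝ) : ℝ := V (gm r lam V p) / lam ^ r

def Ve1 (r lam : ℝ) (V V1 : ℝ → ℝ) (p : ℝ) : ℝ :=
  V1 (gm r lam V p) * gd r lam V V1 p / lam ^ r

def Ne (r lam : ℝ) (V V1 N : ℝ → ℝ) (p : ℝ) : ℝ :=
  N (gm r lam V p) * gd r lam V V1 p + hh r lam V V1 N p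

def hh1 (r lam : ℝ) (V V1 N N1 : ℝ → ℝ) (p : ℝ) : ℝ :=
  lam ^ 2 * (N1 (1 - lam * p) - (1 - 1 / r) *
    (Yf V V1 (1 - lam * p) * (N (1 - lam * p) - Yf V V1 (1 - lam * p))))

def Ne1 (r lam : ℝ) (V V1 N N1 : ℝ → ℝ) (p : ℝ) : ℝ :=
  N1 (gm r lam V p) * gd r lam V V1 p ^ 2
    + N (gm r lam V p) * (gd r lam V V1 p * hh r lam V V1 N p) + hh1 r lam V V1 N N1 p

namespace FV

variable {r lam : ℝ} {V V1 N N1 N2 : ℝ → ℝ}

lemma dVe (h : FV r lam V V1 N N1 N2) {p : ℝ} (hp : p ∈ Ico (0:ℝ) (1 / lam)) :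
    HasDerivAt (Ve r lam V) (Ve1 r lam V V1 p) p := by
  have := (HasDerivAt.comp p (h.dV _ (h.g_mem' hp)) (h.dg hp)).div_const (lam ^ r)
  exact this

lemma dVe1 (h : FV r lam V V1 N N1 N2) {p : ℝ} (hp : p ∈ Ico (0:ℝ) (1 / lam)) :
    HasDerivAt (Ve1 r lam V V1) (Ve1 r lam V V1 p * Ne r lam V V1 N p) p := by
  have := ((HasDerivAt.comp p (h.dV1 _ (h.g_mem' hp)) (h.dg hp)).mul (h.dgd hp)).div_const
    (lam ^ r)
  refine this.congr_deriv ?_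
  simp only [Function.comp, Ve1, Ne]
  ring

lemma dhh (h : FV r lam V V1 N N1 N2) {p : ℝ} (hp : p ∈ Ico (0:ℝ) (1 / lam)) :
    HasDerivAt (hh r lam V V1 N) (hh1 r lam V V1 N N1 p) p := by
  have hq := h.q_mem hp
  have hq' : 1 - lam * p ∈ Icc (0:ℝ) 1 := ⟨hq.1.le, hq.2⟩
  have hY := HasDerivAt.comp p (h.dY hq) (dq (lam := lam) p)
  have hN := HasDerivAt.comp p (h.dN _ hq') (dq (lam := lam) p)
  have := ((hY.const_mul (1 - 1 / r)).sub hN).const_mul lam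
  refine this.congr_deriv ?_
  unfold hh1
  ring

lemma dNe (h : FV r lam V V1 N N1 N2) {p : ℝ} (hp : p ∈ Ico (0:ℝ) (1 / lam)) :
    HasDerivAt (Ne r lam V V1 N) (Ne1 r lam V V1 N N1 p) p := by
  have hN := HasDerivAt.comp p (h.dN _ (h.g_mem' hp)) (h.dg hp)
  have := (hN.mul (h.dgd hp)).add (h.dhh hp)
  refine this.congr_deriv ?_
  simp only [Function.comp, Ne1]
  ring

lemma Sche (h : FV r lam V V1 N N1 N2) (p : ℝ) :
    Sch (Ne r lam V V1 N) (Ne1 r lam V V1 N N1) p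
      = lam ^ 2 * Sch N N1 (1 - lam * p) + gd r lam V V1 p ^ 2 * Sch N N1 (gm r lam V p)
        + cc r * lam ^ 2 * Yf V V1 (1 - lam * p) ^ 2 := by
  have hr := h.r_pos
  unfold Sch Ne Ne1 hh1 hh cc
  field_simp
  ring

lemma Ve_eq (h : FV r lam V V1 N N1 N2) {p : ℝ} (hp : p ∈ Icc (0:ℝ) 1) :
    Ve r lam V p = V p := by
  unfold Ve gm
  rw [h.eqn p hp, mul_div_cancel_left₀ _ h.tau_pos.ne']

lemma Ve1_eq (h : FV r lam V V1 N N1 N2) {p : ℝ} (hp : p ∈ Icc (0:ℝ) 1) :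
    Ve1 r lam V V1 p = V1 p :=
  deriv_unique (fun _ hx => h.Ve_eq hx) hp (h.dVe (h.mem_b hp)) (h.dV p hp)

lemma Ne_eq (h : FV r lam V V1 N N1 N2) {p : ℝ} (hp : p ∈ Icc (0:ℝ) 1) :
    Ne r lam V V1 N p = N p := by
  have := deriv_unique (fun _ hx => h.Ve1_eq hx) hp (h.dVe1 (h.mem_b hp)) (h.dV1 p hp)
  rw [h.Ve1_eq hp] at this
  exact mul_left_cancel₀ (h.V1_pos p hp).ne' this

lemma Ne1_eq (h : FV r lam V V1 N N1 N2) {p : ℝ} (hp : p ∈ Icc (0:ℝ) 1) :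
    Ne1 r lam V V1 N N1 p = N1 p :=
  deriv_unique (fun _ hx => h.Ne_eq hx) hp (h.dNe (h.mem_b hp)) (h.dN p hp)

/-- The Schwarzian equation on `[0,1]`. -/
lemma Sch_eq (h : FV r lam V V1 N N1 N2) {p : ℝ} (hp : p ∈ Icc (0:ℝ) 1) :
    Sch N N1 p
      = lam ^ 2 * Sch N N1 (1 - lam * p) + gd r lam V V1 p ^ 2 * Sch N N1 (gm r lam V p)
        + cc r * lam ^ 2 * Yf V V1 (1 - lam * p) ^ 2 := by
  rw [← h.Sche p]
  unfold Sch
  rw [h.Ne_eq hp, h.Ne1_eq hp]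

/-- The equation for `N` on `[0,1]`. -/
lemma N_eq (h : FV r lam V V1 N N1 N2) {p : ℝ} (hp : p ∈ Icc (0:ℝ) 1) :
    N p = N (gm r lam V p) * gd r lam V V1 p + hh r lam V V1 N p :=
  (h.Ne_eq hp).symm

/-- `V'(g) g' = τ V'`. -/
lemma V1_eq (h : FV r lam V V1 N N1 N2) {p : ℝ} (hp : p ∈ Icc (0:ℝ) 1) :
    V1 (gm r lam V p) * gd r lam V V1 p = lam ^ r * V1 p := by
  have := h.Ve1_eq hp
  unfold Ve1 at this
  rw [div_eq_iff h.tau_pos.ne'] at this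
  linarith

lemma cc_pos (h : FV r lam V V1 N N1 N2) : 0 < cc r := by
  have hr := h.hr
  unfold cc
  have : 1 / r ^ 2 < 1 := by
    rw [div_lt_one (by positivity)]
    nlinarith
  linarith

lemma contSch (h : FV r lam V V1 N N1 N2) : ContinuousOn (Sch N N1) (Icc 0 1) := by
  unfold Sch
  exact h.contN1.sub ((h.contN.pow 2).div_const 2)

lemma dSch (h : FV r lam V V1 N N1 N2) {p : ℝ} (hp : p ∈ Icc (0:ℝ) 1) :
    HasDerivAt (Sch N N1) (Sch1 N N1 N2 p) p := by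
  have := (h.dN1 p hp).sub (((h.dN p hp).pow 2).div_const 2)
  refine this.congr_deriv ?_
  unfold Sch1
  simp
  ring

lemma gm_zero (h : FV r lam V V1 N N1 N2) : gm r lam V 0 = 0 := by
  unfold gm
  simp [h.V_one]

lemma gd_zero (h : FV r lam V V1 N N1 N2) : gd r lam V V1 0 = lam ^ r := by
  have h0 : (0:ℝ) ∈ Icc (0:ℝ) 1 := ⟨le_rfl, zero_le_one⟩
  have := h.V1_eq h0
  rw [h.gm_zero] at this
  have hp := h.V1_pos 0 h0
  exact mul_left_cancel₀ hp.ne' (by linarith)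

/-- `V'(1) = r (1+lam) lam^(r-1)`, in the form used below. -/
lemma v_eq (h : FV r lam V V1 N N1 N2) : lam * V1 1 = r * (1 + lam) * lam ^ r := by
  have := h.gd_zero
  unfold gd Yf at this
  simp only [mul_zero, sub_zero, h.V_one, div_one, Real.one_rpow, mul_one] at this
  have hr := h.r_pos
  have hl := h.lam_pos
  rw [← this]
  field_simp

/-- The relation (Z) obtained from `N_eq` at `0`. -/
lemma Z_eq (h : FV r lam V V1 N N1 N2) :
    (1 - lam ^ r) * N 0 + lam * N 1 = (1 - 1 / r) * lam * V1 1 := by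
  have := h.N_eq (p := 0) ⟨le_rfl, zero_le_one⟩
  rw [h.gm_zero, h.gd_zero] at this
  unfold hh Yf at this
  simp only [mul_zero, sub_zero, h.V_one, div_one] at this
  linarith

end FV

end Pool.Agent.Feig
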