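import Pool.Agent.Feig.Boxes

/-!
# From solutions of the functional equation to `FV`
-/

open Set Filter Topology

noncomputable section

namespace Pool.Agent.Feig

/-- inverse function data. -/
lemma inverse_data {U : Set ℝ} (hU : IsOpen U) (hsub : Icc (0:ℝ) 1 ⊆ U) {P : ℝ → ℝ}
    (hP : ∀ y ∈ U, AnalyticAt ℝ P y) (hP' : ∀ y ∈ U, 0 < deriv P y) (h0 : P 0 = 0) (h1 : P 1 = 1) :
    ∃ V V1 N N1 N2 : ℝ → ℝ,
      (∀ p ∈ Icc (0:ℝ) 1, HasDerivAt V (V1 p) p) ∧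
      (∀ p ∈ Icc (0:ℝ) 1, 0 < V1 p) ∧
      (∀ p ∈ Icc (0:ℝ) 1, HasDerivAt V1 (V1 p * N p) p) ∧
      (∀ p ∈ Icc (0:ℝ) 1, HasDerivAt N (N1 p) p) ∧
      (∀ p ∈ Icc (0:ℝ) 1, HasDerivAt N1 (N2 p) p) ∧
      ContinuousOn N2 (Icc (0:ℝ) 1) ∧
      (∀ y ∈ Icc (0:ℝ) 1, P y ∈ Icc (0:ℝ) 1 ∧ V (P y) = y) ∧
      (∀ p ∈ Icc (0:ℝ) 1, V p ∈ Icc (0:ℝ) 1 ∧ P (V p) = p) := by
  have hU0 : U ∈ 𝓝 (0:ℝ) := hU.mem_nhds (hsub ⟨le_rfl, zero_le_one⟩)
  have hU1 : U ∈ 𝓝 (1:ℝ) := hU.mem_nhds (hsub ⟨zero_le_one, le_rfl⟩)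
  obtain ⟨e0, he0, hb0⟩ := Metric.mem_nhds_iff.mp hU0
  obtain ⟨e1, he1, hb1⟩ := Metric.mem_nhds_iff.mp hU1
  set d := min e0 e1 / 2 with hd
  have hdp : 0 < d := by positivity
  have hd0 : d < e0 := by
    have := min_le_left e0 e1
    rw [hd]; linarith
  have hd1 : d < e1 := by
    have := min_le_right e0 e1
    rw [hd]; linarith
  have hI : Icc (-d) (1 + d) ⊆ U := by
    intro x hx
    rcases lt_or_ge x 0 with hx0 | hx0
    · apply hb0
      rw [Metric.mem_ball, Real.dist_eq, sub_zero, abs_of_neg hx0]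
      linarith [hx.1]
    rcases lt_or_ge 1 x with hx1 | hx1
    · apply hb1
      rw [Metric.mem_ball, Real.dist_eq, abs_of_pos (by linarith)]
      linarith [hx.2]
    · exact hsub ⟨hx0, hx1⟩
  have hPd : ∀ y ∈ U, HasDerivAt P (deriv P y) y := fun y hy =>
    (hP y hy).differentiableAt.hasDerivAt
  have hcont : ContinuousOn P (Icc (-d) (1 + d)) := fun y hy =>
    (hP y (hI hy)).continuousAt.continuousWithinAt
  have hmono : StrictMonoOn P (Icc (-d) (1 + d)) := by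
    apply strictMonoOn_of_deriv_pos (convex_Icc _ _) hcont
    intro x hx
    rw [interior_Icc] at hx
    exact hP' x (hI (Ioo_subset_Icc_self hx))
  have hle : -d ≤ 1 + d := by linarith
  have himg : P '' Icc (-d) (1 + d) = Icc (P (-d)) (P (1 + d)) :=
    hcont.image_Icc_of_monotoneOn hle hmono.monotoneOn
  set V := Function.invFunOn P (Icc (-d) (1 + d)) with hV
  have hVP : ∀ y ∈ Icc (-d) (1 + d), V (P y) = y := fun y hy =>
    hmono.injOn.leftInvOn_invFunOn hy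
  have hPV : ∀ p ∈ Icc (P (-d)) (P (1 + d)), V p ∈ Icc (-d) (1 + d) ∧ P (V p) = p := by
    intro p hp
    rw [← himg] at hp
    exact ⟨Function.invFunOn_mem hp, Function.invFunOn_eq hp⟩
  have hm0 : P (-d) < 0 := by
    rw [← h0]
    exact hmono ⟨le_rfl, hle⟩ ⟨by linarith, by linarith⟩ (by linarith)
  have hm1 : 1 < P (1 + d) := by
    have := hmono (a := 1) (b := 1 + d) ⟨by linarith, by linarith⟩ ⟨hle, le_rfl⟩ (by linarith)
    rwa [h1] at this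
  have hVmono : StrictMonoOn V (Icc (P (-d)) (P (1 + d))) := by
    intro a ha b hb hab
    by_contra hc
    push Not at hc
    have := hmono.monotoneOn (hPV b hb).1 (hPV a ha).1 hc
    rw [(hPV a ha).2, (hPV b hb).2] at this
    linarith
  have hVimg : V '' Icc (P (-d)) (P (1 + d)) = Icc (-d) (1 + d) := by
    ext y
    constructor
    · rintro ⟨p, hp, rfl⟩
      exact (hPV p hp).1
    · intro hy
      exact ⟨P y, by rw [← himg]; exact mem_image_of_mem P hy, hVP y hy⟩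
  have hV0 : V 0 = 0 := by
    have := hVP 0 ⟨by linarith, by linarith⟩
    rwa [h0] at this
  have hV1 : V 1 = 1 := by
    have := hVP 1 ⟨by linarith, by linarith⟩
    rwa [h1] at this
  have hVmem : ∀ p ∈ Icc (0:ℝ) 1, V p ∈ Icc (0:ℝ) 1 := by
    intro p hp
    have hpJ : p ∈ Icc (P (-d)) (P (1 + d)) := ⟨by linarith [hp.1], by linarith [hp.2]⟩
    constructor
    · rw [← hV0]
      exact hVmono.monotoneOn ⟨hm0.le, by linarith⟩ hpJ hp.1
    · rw [← hV1]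
      exact hVmono.monotoneOn hpJ ⟨by linarith, hm1.le⟩ hp.2
  have hPVp : ∀ p ∈ Icc (0:ℝ) 1, P (V p) = p := fun p hp =>
    (hPV p ⟨by linarith [hp.1], by linarith [hp.2]⟩).2
  have hPmem : ∀ y ∈ Icc (0:ℝ) 1, P y ∈ Icc (0:ℝ) 1 := by
    intro y hy
    have hyJ : y ∈ Icc (-d) (1 + d) := ⟨by linarith [hy.1], by linarith [hy.2]⟩
    constructor
    · rw [← h0]
      exact hmono.monotoneOn ⟨by linarith, by linarith⟩ hyJ hy.1
    · rw [← h1]
      exact hmono.monotoneOn hyJ ⟨by linarith, by linarith⟩ hy.2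
  -- derivative of V
  have hdV : ∀ p ∈ Icc (0:ℝ) 1, HasDerivAt V (deriv P (V p))⁻¹ p := by
    intro p hp
    have hpJ : p ∈ Ioo (P (-d)) (P (1 + d)) := ⟨by linarith [hp.1], by linarith [hp.2]⟩
    have hVp := hVmem p hp
    have hVU : V p ∈ U := hsub hVp
    have hJn : Icc (P (-d)) (P (1 + d)) ∈ 𝓝 p := Icc_mem_nhds hpJ.1 hpJ.2
    have hcV : ContinuousAt V p := by
      apply hVmono.continuousAt_of_image_mem_nhds hJn
      rw [hVimg]
      exact Icc_mem_nhds (by linarith [hVp.1]) (by linarith [hVp.2])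
    apply HasDerivAt.of_local_left_inverse hcV (hPd _ hVU) (hP' _ hVU).ne'
    filter_upwards [hJn] with y hy
    exact (hPV y hy).2
  -- analytic functions
  set a := deriv P with ha
  set n := fun y => -(deriv a y) / a y ^ 2 with hn
  set m := fun y => deriv n y / a y with hm
  set l := fun y => deriv m y / a y with hl
  have haA : ∀ y ∈ U, AnalyticAt ℝ a y := fun y hy => (hP y hy).deriv
  have hnA : ∀ y ∈ U, AnalyticAt ℝ n y := fun y hy =>
    ((haA y hy).deriv.neg).div ((haA y hy).pow 2) (pow_ne_zero 2 (hP' y hy).ne')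
  have hmA : ∀ y ∈ U, AnalyticAt ℝ m y := fun y hy =>
    (hnA y hy).deriv.div (haA y hy) (hP' y hy).ne'
  have hlA : ∀ y ∈ U, AnalyticAt ℝ l y := fun y hy =>
    (hmA y hy).deriv.div (haA y hy) (hP' y hy).ne'
  refine ⟨V, fun p => (a (V p))⁻¹, fun p => n (V p), fun p => m (V p), fun p => l (V p),
    hdV, ?_, ?_, ?_, ?_, ?_, fun y hy => ⟨hPmem y hy, hVP y ⟨by linarith [hy.1], by linarith [hy.2]⟩⟩,
    fun p hp => ⟨hVmem p hp, hPVp p hp⟩⟩
  · intro p hp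
    exact inv_pos.mpr (hP' _ (hsub (hVmem p hp)))
  · intro p hp
    have hVU : V p ∈ U := hsub (hVmem p hp)
    have hpos := hP' _ hVU
    have e1 := HasDerivAt.comp p (haA _ hVU).differentiableAt.hasDerivAt (hdV p hp)
    have e2 := e1.inv hpos.ne'
    refine e2.congr_deriv ?_
    simp only [Function.comp, hn]
    ring
  · intro p hp
    have hVU : V p ∈ U := hsub (hVmem p hp)
    have e1 := HasDerivAt.comp p (hnA _ hVU).differentiableAt.hasDerivAt (hdV p hp)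
    refine e1.congr_deriv ?_
    simp only [hm]
    ring
  · intro p hp
    have hVU : V p ∈ U := hsub (hVmem p hp)
    have e1 := HasDerivAt.comp p (hmA _ hVU).differentiableAt.hasDerivAt (hdV p hp)
    refine e1.congr_deriv ?_
    simp only [hl]
    ring
  · intro p hp
    have hVU : V p ∈ U := hsub (hVmem p hp)
    exact (ContinuousAt.comp (f := V) (g := l) (hlA _ hVU).continuousAt
      (hdV p hp).continuousAt).continuousWithinAt

/-- The hypotheses of the problem on one map. -/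
lemma extract {D : Set ℂ} (hD : IsOpen D) (hDI : ∀ t : ℝ, t ∈ Icc (0:ℝ) 1 → (t : ℂ) ∈ D)
    {r : ℝ} (hr : 1 < r) {φ : ℝ → ℝ} {F : ℂ → ℂ} (hF : AnalyticOnNhd ℂ F D) (hF0 : F 0 = 0)
    (hF' : ∀ y : ℝ, y ∈ Icc (0:ℝ) 1 → (deriv F (y : ℂ)).re < 0)
    (hφ : ∀ x : ℝ, x ∈ Icc (-1:ℝ) 1 → φ x = 1 + (F (((|x| ^ r : ℝ)) : ℂ)).re)
    (hrange : ∀ x : ℝ, x ∈ Icc (-1:ℝ) 1 → -1 < φ x ∧ φ x ≤ 1)
    (h2 : φ^[2] 0 < 0) (h3 : -(φ^[2] 0) < φ^[3] 0)
    (heq : ∀ x : ℝ, x ∈ Icc (-1:ℝ) 1 → φ x = (φ 1)⁻¹ * φ (φ (φ 1 * x))) :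
    ∃ lam : ℝ, ∃ V V1 N N1 N2 : ℝ → ℝ, FV r lam V V1 N N1 N2 ∧
      ∀ x ∈ Icc (-1:ℝ) 1, ∃ p ∈ Icc (0:ℝ) 1, V p = |x| ^ r ∧ φ x = 1 - (1 + lam) * p := by
  have hr0 : 0 < r := by linarith
  have one_mem : (1:ℝ) ∈ Icc (-1:ℝ) 1 := ⟨by norm_num, le_rfl⟩
  have zero_mem : (0:ℝ) ∈ Icc (-1:ℝ) 1 := ⟨by norm_num, by norm_num⟩
  have hφ0 : φ 0 = 1 := by
    rw [hφ 0 zero_mem, abs_zero, Real.zero_rpow hr0.ne']
    simp [hF0]
  have i2 : φ^[2] 0 = φ 1 := by simp [Function.iterate_succ, hφ0]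
  have i3 : φ^[3] 0 = φ (φ 1) := by simp [Function.iterate_succ, hφ0]
  rw [i2] at h2
  rw [i2, i3] at h3
  set lam := -(φ 1) with hlam
  have hφ1 : φ 1 = -lam := by rw [hlam]; ring
  have hl : 0 < lam := by rw [hlam]; linarith
  have hl1 : lam < 1 := by
    have := (hrange 1 one_mem).1
    rw [hlam]; linarith
  -- the real function f
  set f : ℝ → ℝ := fun y => 1 + (F (y : ℂ)).re with hf
  have hfφ : ∀ x ∈ Icc (-1:ℝ) 1, φ x = f (|x| ^ r) := fun x hx => hφ x hx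
  have hf1 : f 1 = -lam := by
    have := hfφ 1 one_mem
    rw [abs_one, Real.one_rpow, hφ1] at this
    exact this.symm
  have hf0 : f 0 = 1 := by simp [hf, hF0]
  set P : ℝ → ℝ := fun y => (1 - f y) / (1 + lam) with hPd
  have hfP : ∀ y, f y = 1 - (1 + lam) * P y := by
    intro y
    simp only [hPd]
    field_simp
    ring
  have hfA : ∀ y : ℝ, (y:ℂ) ∈ D → AnalyticAt ℝ f y := fun y hy =>
    analyticAt_const.add (hF _ hy).re_ofReal
  have hPA : ∀ y : ℝ, (y:ℂ) ∈ D → AnalyticAt ℝ P y := fun y hy =>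
    (analyticAt_const.sub (hfA y hy)).div analyticAt_const (by linarith)
  have hPder : ∀ y : ℝ, (y:ℂ) ∈ D → deriv P y = -(deriv F (y:ℂ)).re / (1 + lam) := by
    intro y hy
    have e1 : HasDerivAt F (deriv F (y:ℂ)) (y:ℂ) := (hF _ hy).differentiableAt.hasDerivAt
    have e2 := e1.real_of_complex
    have e3 := (((e2.const_add 1).const_sub 1).div_const (1 + lam))
    exact e3.deriv
  -- the open set
  set D' : Set ℝ := (fun y : ℝ => (y:ℂ)) ⁻¹' D with hD'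
  have hD'o : IsOpen D' := hD.preimage Complex.continuous_ofReal
  have hdc : ContinuousOn (deriv P) D' := fun y hy =>
    ((hPA y hy).deriv.continuousAt).continuousWithinAt
  have hUo : IsOpen (D' ∩ deriv P ⁻¹' (Ioi 0)) := hdc.isOpen_inter_preimage hD'o isOpen_Ioi
  have hUs : Icc (0:ℝ) 1 ⊆ D' ∩ deriv P ⁻¹' (Ioi 0) := by
    intro y hy
    refine ⟨hDI y hy, ?_⟩
    rw [mem_preimage, mem_Ioi, hPder y (hDI y hy)]
    exact div_pos (by linarith [hF' y hy]) (by linarith)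
  have hP0 : P 0 = 0 := by simp [hPd, hf0]
  have hP1 : P 1 = 1 := by
    simp only [hPd, hf1]
    rw [sub_neg_eq_add]
    exact div_self (by linarith)
  obtain ⟨V, V1, N, N1, N2, dV, V1pos, dV1, dN, dN1, cN2, hVP, hPV⟩ :=
    inverse_data hUo hUs (fun y hy => hPA y hy.1) (fun y hy => hy.2) hP0 hP1
  have hV0 : V 0 = 0 := by
    have := (hVP 0 ⟨le_rfl, zero_le_one⟩).2
    rwa [hP0] at this
  have hV1 : V 1 = 1 := by
    have := (hVP 1 ⟨zero_le_one, le_rfl⟩).2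
    rwa [hP1] at this
  have htau0 : 0 < lam ^ r := Real.rpow_pos_of_pos hl r
  have htau1 : lam ^ r < 1 := Real.rpow_lt_one hl.le hl1 hr0
  -- monotonicity of P on [0,1]
  have hPmono : ∀ a ∈ Icc (0:ℝ) 1, ∀ b ∈ Icc (0:ℝ) 1, a ≤ b → P a ≤ P b := by
    intro a ha b hb hab
    have hm : MonotoneOn P (Icc 0 1) := by
      apply monotoneOn_of_deriv_nonneg (convex_Icc 0 1)
      · exact fun y hy => (hPA y (hDI y hy)).continuousAt.continuousWithinAt
      · intro y hy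
        rw [interior_Icc] at hy
        exact (hPA y (hDI y (Ioo_subset_Icc_self hy))).differentiableAt.differentiableWithinAt
      · intro y hy
        rw [interior_Icc] at hy
        exact (hUs (Ioo_subset_Icc_self hy)).2.le
    exact hm ha hb hab
  -- κ
  have hkap : f (lam ^ r) = φ (φ 1) := by
    have : φ (φ 1) = f (|φ 1| ^ r) := by
      apply hfφ
      rw [hφ1]
      exact ⟨by linarith, by linarith⟩
    rw [this, hφ1, abs_neg, abs_of_pos hl]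
  have hkap' : lam < f (lam ^ r) := by rw [hkap]; linarith
  have hf_le_one : ∀ y ∈ Icc (0:ℝ) 1, f y ≤ 1 := by
    intro y hy
    rw [hfP y]
    have := (hVP y hy).1.1
    have : 0 ≤ (1 + lam) * P y := mul_nonneg (by linarith) this
    linarith
  -- the functional equation for f
  have hfe : ∀ y ∈ Icc (0:ℝ) 1, f (f (lam ^ r * y) ^ r) = -lam * f y ∧ 0 < f (lam ^ r * y)
      ∧ f (lam ^ r * y) ≤ 1 := by
    intro y hy
    set x := y ^ (1 / r) with hx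
    have hx0 : 0 ≤ x := Real.rpow_nonneg hy.1 _
    have hx1 : x ≤ 1 := Real.rpow_le_one hy.1 hy.2 (by positivity)
    have hxm : x ∈ Icc (-1:ℝ) 1 := ⟨by linarith, hx1⟩
    have hxr : x ^ r = y := by
      rw [hx, ← Real.rpow_mul hy.1, one_div_mul_cancel hr0.ne', Real.rpow_one]
    have e := heq x hxm
    rw [hφ1] at e
    have hlx0 : 0 ≤ lam * x := mul_nonneg hl.le hx0
    have hlx : lam * x ≤ 1 := by nlinarith
    have e1 : φ (-lam * x) = f (lam ^ r * y) := by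
      rw [hfφ (-lam * x) ⟨by linarith, by linarith⟩]
      congr 1
      rw [neg_mul, abs_neg, abs_of_nonneg hlx0, Real.mul_rpow hl.le hx0, hxr]
    have hty : lam ^ r * y ∈ Icc (0:ℝ) 1 :=
      ⟨mul_nonneg htau0.le hy.1, by nlinarith [hy.1, hy.2]⟩
    have htm : lam ^ r ∈ Icc (0:ℝ) 1 := ⟨htau0.le, htau1.le⟩
    have hge : f (lam ^ r) ≤ f (lam ^ r * y) := by
      rw [hfP, hfP (lam ^ r * y)]
      have := hPmono _ hty _ htm (by nlinarith [hy.2])
      nlinarith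
    have hpos : 0 < f (lam ^ r * y) := by linarith
    have hle1 : f (lam ^ r * y) ≤ 1 := hf_le_one _ hty
    refine ⟨?_, hpos, hle1⟩
    have e2 : φ (φ (-lam * x)) = f (f (lam ^ r * y) ^ r) := by
      rw [e1, hfφ _ ⟨by linarith, hle1⟩, abs_of_pos hpos]
    have e3 : φ x = f y := by
      rw [hfφ x hxm, abs_of_nonneg hx0, hxr]
    rw [e3, e2] at e
    rw [e]
    field_simp
  -- the equation for V
  have heqn : ∀ p ∈ Icc (0:ℝ) 1, f (lam ^ r * V p) = V (1 - lam * p) ^ (1 / r) ∧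
      V ((1 - V (1 - lam * p) ^ (1 / r)) / (1 + lam)) = lam ^ r * V p := by
    intro p hp
    have hVp := (hPV p hp).1
    obtain ⟨g1, g2, g3⟩ := hfe (V p) hVp
    set z := f (lam ^ r * V p) with hz
    have hzr : z ^ r ∈ Icc (0:ℝ) 1 := ⟨Real.rpow_nonneg g2.le _, Real.rpow_le_one g2.le g3 hr0.le⟩
    have e1 : P (z ^ r) = 1 - lam * p := by
      have a1 : f (z ^ r) = 1 - (1 + lam) * P (z ^ r) := hfP _
      have a2 : f (V p) = 1 - (1 + lam) * p := by rw [hfP, (hPV p hp).2]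
      rw [g1, a2] at a1
      have : (1 + lam) * P (z ^ r) = (1 + lam) * (1 - lam * p) := by linarith
      exact mul_left_cancel₀ (by linarith) this
    have e2 : V (1 - lam * p) = z ^ r := by
      rw [← e1]; exact (hVP _ hzr).2
    have e3 : V (1 - lam * p) ^ (1 / r) = z := by
      rw [e2, ← Real.rpow_mul g2.le, mul_one_div_cancel hr0.ne', Real.rpow_one]
    refine ⟨e3.symm, ?_⟩
    rw [e3]
    have e4 : (1 - z) / (1 + lam) = P (lam ^ r * V p) := by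
      rw [hz]
    rw [e4]
    apply (hVP _ _).2
    exact ⟨mul_nonneg htau0.le hVp.1, by nlinarith [hVp.1, hVp.2]⟩
  refine ⟨lam, V, V1, N, N1, N2, ⟨hr, hl, hl1, hV0, hV1, dV, V1pos, dV1, dN, dN1, cN2,
    fun p hp => (heqn p hp).2, ?_⟩, ?_⟩
  · -- kap
    have e := (heqn 1 ⟨zero_le_one, le_rfl⟩).1
    rw [hV1, mul_one, mul_one] at e
    have hVm := (hPV (1 - lam) ⟨by linarith, by linarith⟩).1
    have e2 : (V (1 - lam) ^ (1 / r)) ^ r = V (1 - lam) := by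
      rw [← Real.rpow_mul hVm.1, one_div_mul_cancel hr0.ne', Real.rpow_one]
    rw [← e2, ← e]
    exact Real.rpow_lt_rpow hl.le hkap' hr0
  · intro x hx
    have hy : |x| ^ r ∈ Icc (0:ℝ) 1 :=
      ⟨Real.rpow_nonneg (abs_nonneg _) _, Real.rpow_le_one (abs_nonneg _) (abs_le.mpr ⟨hx.1, hx.2⟩)
        hr0.le⟩
    refine ⟨P (|x| ^ r), (hVP _ hy).1, (hVP _ hy).2, ?_⟩
    rw [hfφ x hx, hfP]

/-- Main theorem of the development. -/
theorem main (D : Set ℂ) (hD : IsOpen D) (hDI : ∀ t : ℝ, t ∈ Icc (0:ℝ) 1 → (t : ℂ) ∈ D)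
    (r : ℝ) (hr : 1 < r) (hr2 : r ≤ 2) (φ₁ φ₂ : ℝ → ℝ)
    (H : ∀ φ ∈ ({φ₁, φ₂} : Set (ℝ → ℝ)),
          (∃ F : ℂ → ℂ,
            AnalyticOnNhd ℂ F D ∧
            ContinuousOn F (closure D) ∧
            (∃ C : ℝ, ∀ z ∈ closure D, ‖F z‖ ≤ C) ∧
            (∀ y : ℝ, y ∈ Set.Icc (0:ℝ) 1 → (F (y : ℂ)).im = 0) ∧
            F 0 = 0 ∧
            (∀ y : ℝ, y ∈ Set.Icc (0:ℝ) 1 → (deriv F (y : ℂ)).re < 0) ∧
            (∀ x : ℝ, x ∈ Set.Icc (-1:ℝ) 1 →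
              φ x = 1 + (F (((|x| ^ r : ℝ)) : ℂ)).re)) ∧
          (∀ x : ℝ, x ∈ Set.Icc (-1:ℝ) 1 → -1 < φ x ∧ φ x ≤ 1) ∧
          (φ^[2] 0 < 0 ∧ 0 < φ^[4] 0 ∧ φ^[4] 0 < -(φ^[2] 0) ∧
            -(φ^[2] 0) < φ^[3] 0 ∧ φ^[3] 0 < 1) ∧
          (∀ x : ℝ, x ∈ Set.Icc (-1:ℝ) 1 →
            φ x = (φ 1)⁻¹ * φ (φ (φ 1 * x)))) :
    ∀ x : ℝ, x ∈ Set.Icc (-1:ℝ) 1 → φ₁ x = φ₂ x := by
  obtain ⟨⟨F, hF, -, -, -, hF0, hF', hφ⟩, hrange, ⟨h2, -, -, h3, -⟩, heq⟩ := H φ₁ (by simp)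
  obtain ⟨⟨G, hG, -, -, -, hG0, hG', hψ⟩, hrange', ⟨h2', -, -, h3', -⟩, heq'⟩ := H φ₂ (by simp)
  obtain ⟨la, V, V1, N, N1, N2, h, hx⟩ := extract hD hDI hr hF hF0 hF' hφ hrange h2 h3 heq
  obtain ⟨lb, W, W1, M, M1, M2, h', hx'⟩ := extract hD hDI hr hG hG0 hG' hψ hrange' h2' h3' heq'
  obtain ⟨hlab, hVW⟩ := unique h h' hr2
  intro x hxI
  obtain ⟨p, hp, e1, e2⟩ := hx x hxI
  obtain ⟨q, hq, e3, e4⟩ := hx' x hxI
  have : p = q := by
    apply h.strictMono.injOn hp hq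
    rw [e1, hVW q hq, e3]
  rw [e2, e4, this, hlab]

end Pool.Agent.Feig
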