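import Pool.Agent.Feig.Bounds2

/-!
# The basis `k, j` of `y'' = - S y / 2` and comparison
-/

open Set

noncomputable section

namespace Pool.Agent.Feig

lemma monotone_sub {f f1 : ℝ → ℝ} {a b : ℝ} (hab : a ≤ b)
    (h1 : ∀ x ∈ Icc a b, HasDerivAt f (f1 x) x) (h2 : ∀ x ∈ Icc a b, 0 ≤ f1 x) : f a ≤ f b := by
  have : MonotoneOn f (Icc a b) := by
    apply monotoneOn_of_deriv_nonneg (convex_Icc a b)
    · exact fun x hx => (h1 x hx).continuousAt.continuousWithinAt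
    · intro x hx
      rw [interior_Icc] at hx
      exact (h1 x (Ioo_subset_Icc_self hx)).differentiableAt.differentiableWithinAt
    · intro x hx
      rw [interior_Icc] at hx
      rw [(h1 x (Ioo_subset_Icc_self hx)).deriv]
      exact h2 x (Ioo_subset_Icc_self hx)
  exact this ⟨le_rfl, hab⟩ ⟨hab, le_rfl⟩ hab

lemma abs_sub_le_of_deriv {f f1 B B1 : ℝ → ℝ} {a b : ℝ} (hab : a ≤ b)
    (h1 : ∀ x ∈ Icc a b, HasDerivAt f (f1 x) x) (h2 : ∀ x ∈ Icc a b, HasDerivAt B (B1 x) x)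
    (h3 : ∀ x ∈ Icc a b, |f1 x| ≤ B1 x) : |f b - f a| ≤ B b - B a := by
  have e1 := monotone_sub hab (f := fun x => B x - f x) (f1 := fun x => B1 x - f1 x)
    (fun x hx => (h2 x hx).sub (h1 x hx)) (fun x hx => by
      have := h3 x hx; rw [abs_le] at this; linarith)
  have e2 := monotone_sub hab (f := fun x => B x + f x) (f1 := fun x => B1 x + f1 x)
    (fun x hx => (h2 x hx).add (h1 x hx)) (fun x hx => by
      have := h3 x hx; rw [abs_le] at this; linarith)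
  rw [abs_le]
  constructor <;> linarith

/-- the pair `k, j`. -/
structure KJ (S k k1 j j1 : ℝ → ℝ) (H : ℝ) : Prop where
  dk : ∀ p ∈ Icc (0:ℝ) 1, HasDerivAt k (k1 p) p
  dk1 : ∀ p ∈ Icc (0:ℝ) 1, HasDerivAt k1 (-(1 / 2) * S p * k p) p
  dj : ∀ p ∈ Icc (0:ℝ) 1, HasDerivAt j (j1 p) p
  dj1 : ∀ p ∈ Icc (0:ℝ) 1, HasDerivAt j1 (-(1 / 2) * S p * j p) p
  wr : ∀ p ∈ Icc (0:ℝ) 1, k1 p * j p - k p * j1 p = 1
  k_zero : k 0 = 0
  j_one : j 1 = 0
  Hpos : 0 < H
  k_ge : ∀ p ∈ Icc (0:ℝ) 1, p ≤ k p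
  k_le : ∀ p ∈ Icc (0:ℝ) 1, k p ≤ p / H
  j_le : ∀ p ∈ Icc (0:ℝ) 1, j p ≤ 1 - p
  j_ge : ∀ p ∈ Icc (0:ℝ) 1, H * (1 - p) ≤ j p

/-- construction of `KJ` from positivity of `S` and an upper bound. -/
lemma KJ.mk' {S k k1 j j1 : ℝ → ℝ} {H s : ℝ}
    (dk : ∀ p ∈ Icc (0:ℝ) 1, HasDerivAt k (k1 p) p)
    (dk1 : ∀ p ∈ Icc (0:ℝ) 1, HasDerivAt k1 (-(1 / 2) * S p * k p) p)
    (dj : ∀ p ∈ Icc (0:ℝ) 1, HasDerivAt j (j1 p) p)
    (dj1 : ∀ p ∈ Icc (0:ℝ) 1, HasDerivAt j1 (-(1 / 2) * S p * j p) p)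
    (wr : ∀ p ∈ Icc (0:ℝ) 1, k1 p * j p - k p * j1 p = 1)
    (k_zero : k 0 = 0) (k_one : k 1 = 1) (j_one : j 1 = 0) (j1_one : j1 1 = -1)
    (hk : ∀ p ∈ Icc (0:ℝ) 1, 0 ≤ k p) (hj : ∀ p ∈ Icc (0:ℝ) 1, 0 ≤ j p)
    (hS : ∀ p ∈ Icc (0:ℝ) 1, 0 ≤ S p) (hSs : ∀ p ∈ Icc (0:ℝ) 1, S p ≤ s)
    (hH : 0 < H) (hHs : H ≤ 1 - s / 12) : KJ S k k1 j j1 H := by
  have hk2 : ∀ p ∈ Icc (0:ℝ) 1, -(1 / 2) * S p * k p ≤ 0 := fun p hp => by
    nlinarith [mul_nonneg (hS p hp) (hk p hp)]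
  have hj2 : ∀ p ∈ Icc (0:ℝ) 1, -(1 / 2) * S p * j p ≤ 0 := fun p hp => by
    nlinarith [mul_nonneg (hS p hp) (hj p hp)]
  have hjle : ∀ p ∈ Icc (0:ℝ) 1, j p ≤ 1 - p := by
    intro p hp
    have hsub : Icc p 1 ⊆ Icc (0:ℝ) 1 := fun x hx => ⟨hp.1.trans hx.1, hx.2⟩
    have := tangent_right hp.2 (fun x hx => dj x (hsub hx)) (fun x hx => dj1 x (hsub hx))
      (fun x hx => hj2 x (hsub hx))
    rw [j_one, j1_one] at this
    linarith
  have hs0 : 0 ≤ s := (hS 0 ⟨le_rfl, zero_le_one⟩).trans (hSs 0 ⟨le_rfl, zero_le_one⟩)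
  have hjge : ∀ p ∈ Icc (0:ℝ) 1, H * (1 - p) ≤ j p := by
    intro p hp
    have hsub : Icc p 1 ⊆ Icc (0:ℝ) 1 := fun x hx => ⟨hp.1.trans hx.1, hx.2⟩
    have := tangent_right (f := fun t => (1 - t) - s * (1 - t) ^ 3 / 12 - j t)
      (f1 := fun t => -1 + s * (1 - t) ^ 2 / 4 - j1 t)
      (f2 := fun t => - s * (1 - t) / 2 - (-(1 / 2) * S t * j t)) hp.2
      (fun x hx => by
        have h1 : HasDerivAt (fun t : ℝ => 1 - t) (-1) x := by
          simpa using (hasDerivAt_id x).const_sub 1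
        have h2 := ((h1.pow 3).const_mul s).div_const 12
        refine ((h1.sub h2).sub (dj x (hsub hx))).congr_deriv ?_
        simp
        ring)
      (fun x hx => by
        have h1 : HasDerivAt (fun t : ℝ => 1 - t) (-1) x := by
          simpa using (hasDerivAt_id x).const_sub 1
        have h2 := ((h1.pow 2).const_mul s).div_const 4
        refine ((h2.const_add (-1)).sub (dj1 x (hsub hx))).congr_deriv ?_
        simp
        ring)
      (fun x hx => by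
        have h1 := hSs x (hsub hx)
        have h2 := hjle x (hsub hx)
        have h3 := hj x (hsub hx)
        have h4 : S x * j x ≤ s * (1 - x) := mul_le_mul h1 h2 h3 hs0
        nlinarith)
    simp only [sub_self] at this
    rw [j_one, j1_one] at this
    have hp1 : 0 ≤ 1 - p := by linarith [hp.2]
    have hp2 : (1 - p) ^ 2 ≤ 1 := by
      have := hp.1
      nlinarith
    have h5 : s * (1 - p) ^ 3 / 12 ≤ (1 - p) * (s / 12) := by
      have : (1 - p) ^ 3 ≤ 1 - p := by nlinarith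
      nlinarith
    nlinarith
  refine ⟨dk, dk1, dj, dj1, wr, k_zero, j_one, hH, ?_, ?_, hjle, hjge⟩
  · intro p hp
    rcases hp.1.eq_or_lt with h0 | h0
    · rw [← h0, k_zero]
    have hsub1 : Icc 0 p ⊆ Icc (0:ℝ) 1 := fun x hx => ⟨hx.1, hx.2.trans hp.2⟩
    have hsub2 : Icc p 1 ⊆ Icc (0:ℝ) 1 := fun x hx => ⟨hp.1.trans hx.1, hx.2⟩
    have e1 := tangent_right hp.1 (fun x hx => dk x (hsub1 hx)) (fun x hx => dk1 x (hsub1 hx))
      (fun x hx => hk2 x (hsub1 hx))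
    have e2 := tangent_left hp.2 (fun x hx => dk x (hsub2 hx)) (fun x hx => dk1 x (hsub2 hx))
      (fun x hx => hk2 x (hsub2 hx))
    rw [k_zero] at e1
    rw [k_one] at e2
    have hp1 : 0 ≤ 1 - p := by linarith [hp.2]
    nlinarith [mul_nonneg hp1 (by linarith : 0 ≤ k p - k1 p * p)]
  · intro p hp
    have hsub1 : Icc 0 p ⊆ Icc (0:ℝ) 1 := fun x hx => ⟨hx.1, hx.2.trans hp.2⟩
    have e2 := tangent_left hp.1 (fun x hx => dk x (hsub1 hx)) (fun x hx => dk1 x (hsub1 hx))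
      (fun x hx => hk2 x (hsub1 hx))
    have e3 := wr 0 ⟨le_rfl, zero_le_one⟩
    rw [k_zero] at e2 e3
    have e4 := hjge 0 ⟨le_rfl, zero_le_one⟩
    rw [le_div_iff₀ hH]
    have hk1 : 0 < k1 0 := by
      by_contra hc
      push Not at hc
      have := hj 0 ⟨le_rfl, zero_le_one⟩
      nlinarith
    have e5 : k1 0 * H ≤ 1 := by nlinarith
    have := hp.1
    nlinarith

/-- lower bound for `k'(1)`. -/
lemma KJ.k1_one_ge {S k k1 j j1 : ℝ → ℝ} {H s : ℝ} (h : KJ S k k1 j j1 H) (k_one : k 1 = 1)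
    (hSs : ∀ p ∈ Icc (0:ℝ) 1, S p ≤ s) (hs : 0 ≤ s) : 1 - s / (6 * H) ≤ k1 1 := by
  have hH := h.Hpos
  have := tangent_right (a := 0) (b := 1)
    (f := fun t => (1 + k1 1 * (t - 1) - s / (12 * H) * (t ^ 3 - 3 * t + 2)) - k t)
    (f1 := fun t => (k1 1 - s / (12 * H) * (3 * t ^ 2 - 3)) - k1 t)
    (f2 := fun t => (- (s / (12 * H) * (6 * t))) - (-(1 / 2) * S t * k t)) zero_le_one
    (fun x hx => by
      have h1 : HasDerivAt (fun t : ℝ => 1 + k1 1 * (t - 1)) (k1 1) x := by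
        simpa using (((hasDerivAt_id x).sub_const 1).const_mul (k1 1)).const_add 1
      have h2 : HasDerivAt (fun t : ℝ => t ^ 3 - 3 * t + 2) (3 * x ^ 2 - 3) x := by
        have := ((hasDerivAt_pow 3 x).sub ((hasDerivAt_id x).const_mul 3)).add_const 2
        refine this.congr_deriv ?_
        norm_num
      exact (h1.sub (h2.const_mul (s / (12 * H)))).sub (h.dk x hx))
    (fun x hx => by
      have h2 : HasDerivAt (fun t : ℝ => 3 * t ^ 2 - 3) (6 * x) x := by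
        have := ((hasDerivAt_pow 2 x).const_mul 3).sub_const 3
        refine this.congr_deriv ?_
        norm_num
        ring
      exact ((h2.const_mul (s / (12 * H))).const_sub (k1 1)).sub (h.dk1 x hx))
    (fun x hx => by
      have h1 := hSs x hx
      have h2 := h.k_le x hx
      have h3 : 0 ≤ k x := hx.1.trans (h.k_ge x hx)
      have h4 : S x * k x ≤ s * (x / H) := by
        calc S x * k x ≤ s * k x := mul_le_mul_of_nonneg_right h1 h3
          _ ≤ s * (x / H) := mul_le_mul_of_nonneg_left h2 hs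
      have h5 : s / (12 * H) * (6 * x) = s * (x / H) / 2 := by field_simp; ring
      rw [h5]
      linarith)
  simp only [k_one, h.k_zero] at this
  have h6 : s / (12 * H) * 2 = s / (6 * H) := by field_simp; ring
  norm_num at this
  linarith

/-- Comparison of two pairs. -/
lemma KJ.diff {S k k1 j j1 : ℝ → ℝ} {H : ℝ} {S' k' k1' j' j1' : ℝ → ℝ} {H' σ : ℝ}
    (h : KJ S k k1 j j1 H) (h' : KJ S' k' k1' j' j1' H')
    (hσ : ∀ p ∈ Icc (0:ℝ) 1, |S p - S' p| ≤ σ) {p : ℝ} (hp : p ∈ Ioo (0:ℝ) 1) :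
    |1 / (k p * j p) - 1 / (k' p * j' p)| ≤ σ / (6 * H * H') := by
  have hH := h.Hpos
  have hH' := h'.Hpos
  have hpI := Ioo_subset_Icc_self hp
  have hσ0 : 0 ≤ σ := (abs_nonneg _).trans (hσ p hpI)
  have hp0 := hp.1
  have hp1 : 0 < 1 - p := by linarith [hp.2]
  -- Wronskian of the k's
  have w1 : |(k1 p * k' p - k p * k1' p) - (k1 0 * k' 0 - k 0 * k1' 0)|
      ≤ σ / (6 * H * H') * p ^ 3 - σ / (6 * H * H') * 0 ^ 3 := by
    have hsub1 : Icc 0 p ⊆ Icc (0:ℝ) 1 := fun x hx => ⟨hx.1, hx.2.trans hpI.2⟩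
    apply abs_sub_le_of_deriv (f := fun t => k1 t * k' t - k t * k1' t)
      (f1 := fun t => -(1/2) * (S t - S' t) * (k t * k' t))
      (B := fun t => σ / (6 * H * H') * t ^ 3) (B1 := fun t => σ / (6 * H * H') * (3 * t ^ 2)) hp0.le
    · intro x hx
      have hx' := hsub1 hx
      have := ((h.dk1 x hx').mul (h'.dk x hx')).sub ((h.dk x hx').mul (h'.dk1 x hx'))
      refine this.congr_deriv ?_
      ring
    · intro x _
      have := (hasDerivAt_pow 3 x).const_mul (σ / (6 * H * H'))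
      refine this.congr_deriv ?_
      norm_num
    · intro x hx
      have hx' := hsub1 hx
      have h1 := hσ x hx'
      have h2 := h.k_le x hx'
      have h3 := h'.k_le x hx'
      have h4 : 0 ≤ k x := hx'.1.trans (h.k_ge x hx')
      have h5 : 0 ≤ k' x := hx'.1.trans (h'.k_ge x hx')
      have h6 : k x * k' x ≤ x / H * (x / H') := mul_le_mul h2 h3 h5 (h4.trans h2)
      rw [abs_mul, abs_mul, abs_of_nonneg (mul_nonneg h4 h5)]
      have h7 : |(-(1/2) : ℝ)| = 1 / 2 := by norm_num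
      rw [h7]
      calc 1 / 2 * |S x - S' x| * (k x * k' x) ≤ 1 / 2 * σ * (x / H * (x / H')) := by
            apply mul_le_mul (by linarith) h6 (mul_nonneg h4 h5) (by positivity)
        _ = σ / (6 * H * H') * (3 * x ^ 2) := by field_simp; ring
  rw [h.k_zero, h'.k_zero] at w1
  have w1' : |k1 p * k' p - k p * k1' p| ≤ σ / (6 * H * H') * p ^ 3 := by
    simpa using w1
  -- Wronskian of the j's
  have w2 : |(j1 1 * j' 1 - j 1 * j1' 1) - (j1 p * j' p - j p * j1' p)|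
      ≤ -(σ / 6 * (1 - 1) ^ 3) - -(σ / 6 * (1 - p) ^ 3) := by
    have hsub1 : Icc p 1 ⊆ Icc (0:ℝ) 1 := fun x hx => ⟨hpI.1.trans hx.1, hx.2⟩
    apply abs_sub_le_of_deriv (f := fun t => j1 t * j' t - j t * j1' t)
      (f1 := fun t => -(1/2) * (S t - S' t) * (j t * j' t))
      (B := fun t => -(σ / 6 * (1 - t) ^ 3)) (B1 := fun t => σ / 2 * (1 - t) ^ 2) hpI.2
    · intro x hx
      have hx' := hsub1 hx
      have := ((h.dj1 x hx').mul (h'.dj x hx')).sub ((h.dj x hx').mul (h'.dj1 x hx'))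
      refine this.congr_deriv ?_
      ring
    · intro x _
      have h1 : HasDerivAt (fun t : ℝ => 1 - t) (-1) x := by
        simpa using (hasDerivAt_id x).const_sub 1
      have := ((h1.pow 3).const_mul (σ / 6)).neg
      refine this.congr_deriv ?_
      norm_num
      ring
    · intro x hx
      have hx' := hsub1 hx
      have h1 := hσ x hx'
      have h2 := h.j_le x hx'
      have h3 := h'.j_le x hx'
      have hx1 : 0 ≤ 1 - x := by linarith [hx.2]
      have h4 : 0 ≤ j x := (mul_nonneg hH.le hx1).trans (h.j_ge x hx')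
      have h5 : 0 ≤ j' x := (mul_nonneg hH'.le hx1).trans (h'.j_ge x hx')
      have h6 : j x * j' x ≤ (1 - x) * (1 - x) := mul_le_mul h2 h3 h5 hx1
      rw [abs_mul, abs_mul, abs_of_nonneg (mul_nonneg h4 h5)]
      have h7 : |(-(1/2) : ℝ)| = 1 / 2 := by norm_num
      rw [h7]
      calc 1 / 2 * |S x - S' x| * (j x * j' x) ≤ 1 / 2 * σ * ((1 - x) * (1 - x)) := by
            apply mul_le_mul (by linarith) h6 (mul_nonneg h4 h5) (by positivity)
        _ = σ / 2 * (1 - x) ^ 2 := by ring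
  rw [h.j_one, h'.j_one] at w2
  have w2' : |j1 p * j' p - j p * j1' p| ≤ σ / 6 * (1 - p) ^ 3 := by
    have : |(j1 1 * 0 - 0 * j1' 1) - (j1 p * j' p - j p * j1' p)|
      = |j1 p * j' p - j p * j1' p| := by
      rw [← abs_neg]; congr 1; ring
    rw [this] at w2
    simpa using w2
  have hkp : 0 < k p := lt_of_lt_of_le hp0 (h.k_ge p hpI)
  have hkp' : 0 < k' p := lt_of_lt_of_le hp0 (h'.k_ge p hpI)
  have hjp : 0 < j p := lt_of_lt_of_le (mul_pos hH hp1) (h.j_ge p hpI)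
  have hjp' : 0 < j' p := lt_of_lt_of_le (mul_pos hH' hp1) (h'.j_ge p hpI)
  have e1 : 1 / (k p * j p) - 1 / (k' p * j' p)
      = (k1 p * k' p - k p * k1' p) / (k p * k' p) - (j1 p * j' p - j p * j1' p) / (j p * j' p) := by
    have a1 := h.wr p hpI
    have a2 := h'.wr p hpI
    have b1 : 1 / (k p * j p) = k1 p / k p - j1 p / j p := by
      rw [← a1]; field_simp
    have b2 : 1 / (k' p * j' p) = k1' p / k' p - j1' p / j' p := by
      rw [← a2]; field_simp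
    rw [b1, b2]
    field_simp
    ring
  rw [e1]
  have f1 : |(k1 p * k' p - k p * k1' p) / (k p * k' p)| ≤ σ / (6 * H * H') * p := by
    rw [abs_div, abs_of_pos (mul_pos hkp hkp'), div_le_iff₀ (mul_pos hkp hkp')]
    refine w1'.trans ?_
    have hk1 := h.k_ge p hpI
    have hk2 := h'.k_ge p hpI
    have : p * p ≤ k p * k' p := mul_le_mul hk1 hk2 hp0.le hkp.le
    calc σ / (6 * H * H') * p ^ 3 = σ / (6 * H * H') * p * (p * p) := by ring
      _ ≤ σ / (6 * H * H') * p * (k p * k' p) := by gcongr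
  have f2 : |(j1 p * j' p - j p * j1' p) / (j p * j' p)| ≤ σ / (6 * H * H') * (1 - p) := by
    rw [abs_div, abs_of_pos (mul_pos hjp hjp'), div_le_iff₀ (mul_pos hjp hjp')]
    refine w2'.trans ?_
    have hk1 := h.j_ge p hpI
    have hk2 := h'.j_ge p hpI
    have : H * (1 - p) * (H' * (1 - p)) ≤ j p * j' p :=
      mul_le_mul hk1 hk2 (mul_nonneg hH'.le hp1.le) hjp.le
    calc σ / 6 * (1 - p) ^ 3
        = σ / (6 * H * H') * (1 - p) * (H * (1 - p) * (H' * (1 - p))) := by field_simp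
      _ ≤ σ / (6 * H * H') * (1 - p) * (j p * j' p) := by gcongr
  calc |(k1 p * k' p - k p * k1' p) / (k p * k' p) - (j1 p * j' p - j p * j1' p) / (j p * j' p)|
      ≤ |(k1 p * k' p - k p * k1' p) / (k p * k' p)| + |(j1 p * j' p - j p * j1' p) / (j p * j' p)| :=
        abs_sub _ _
    _ ≤ σ / (6 * H * H') * p + σ / (6 * H * H') * (1 - p) := add_le_add f1 f2
    _ = σ / (6 * H * H') := by ring

end Pool.Agent.Feig
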