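import Pool.Agent.Feig.Single3

/-!
# Two solutions: elementary comparisons
-/

open Set Filter Topology

noncomputable section

namespace Pool.Agent.Feig

/-- logit -/
def lgt (x : ℝ) : ℝ := Real.log x - Real.log (1 - x)

/-- Gibbs' inequality. -/
lemma gibbs {x y : ℝ} (hx : x ∈ Ioo (0:ℝ) 1) (hy : y ∈ Ioo (0:ℝ) 1) :
    x * (Real.log y - Real.log x) + (1 - x) * (Real.log (1 - y) - Real.log (1 - x)) ≤ 0 := by
  have hx0 := hx.1
  have hy0 := hy.1
  have hx1 : 0 < 1 - x := by linarith [hx.2]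
  have hy1 : 0 < 1 - y := by linarith [hy.2]
  have e1 : Real.log y - Real.log x ≤ y / x - 1 := by
    rw [← Real.log_div hy0.ne' hx0.ne']
    exact Real.log_le_sub_one_of_pos (by positivity)
  have e2 : Real.log (1 - y) - Real.log (1 - x) ≤ (1 - y) / (1 - x) - 1 := by
    rw [← Real.log_div hy1.ne' hx1.ne']
    exact Real.log_le_sub_one_of_pos (by positivity)
  have e3 := mul_le_mul_of_nonneg_left e1 hx0.le
  have e4 := mul_le_mul_of_nonneg_left e2 hx1.le
  have e5 : x * (y / x - 1) + (1 - x) * ((1 - y) / (1 - x) - 1) = 0 := by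
    field_simp
    ring
  linarith

/-- `log (1-y) - log (1-x) ≤ x (lgt x - lgt y)`. -/
lemma gibbs1 {x y : ℝ} (hx : x ∈ Ioo (0:ℝ) 1) (hy : y ∈ Ioo (0:ℝ) 1) :
    Real.log (1 - y) - Real.log (1 - x) ≤ x * (lgt x - lgt y) := by
  have := gibbs hx hy
  unfold lgt
  linarith

lemma gibbs1' {x y : ℝ} (hx : x ∈ Ioo (0:ℝ) 1) (hy : y ∈ Ioo (0:ℝ) 1) :
    y * (lgt x - lgt y) ≤ Real.log (1 - y) - Real.log (1 - x) := by
  have := gibbs hy hx
  unfold lgt
  linarith

/-- `log y - log x ≤ (1-x) (lgt y - lgt x)`. -/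
lemma gibbs2 {x y : ℝ} (hx : x ∈ Ioo (0:ℝ) 1) (hy : y ∈ Ioo (0:ℝ) 1) :
    Real.log y - Real.log x ≤ (1 - x) * (lgt y - lgt x) := by
  have := gibbs hx hy
  unfold lgt
  linarith

lemma gibbs2' {x y : ℝ} (hx : x ∈ Ioo (0:ℝ) 1) (hy : y ∈ Ioo (0:ℝ) 1) :
    (1 - y) * (lgt y - lgt x) ≤ Real.log y - Real.log x := by
  have := gibbs hy hx
  unfold lgt
  linarith

lemma lgt_inj {x y : ℝ} (hx : x ∈ Ioo (0:ℝ) 1) (hy : y ∈ Ioo (0:ℝ) 1) (h : lgt x = lgt y) :
    x = y := by
  have e1 := gibbs2 hx hy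
  have e2 := gibbs2' hx hy
  rw [h] at e1 e2
  simp only [sub_self, mul_zero] at e1 e2
  have : Real.log x = Real.log y := by linarith
  exact Real.log_injOn_pos hx.1 hy.1 this

lemma lgt_mono {x y : ℝ} (hx : x ∈ Ioo (0:ℝ) 1) (hy : y ∈ Ioo (0:ℝ) 1) (h : lgt x ≤ lgt y) :
    x ≤ y := by
  have e2 := gibbs2' hx hy
  have : 0 ≤ (1 - y) * (lgt y - lgt x) := mul_nonneg (by linarith [hy.2]) (by linarith)
  exact (Real.log_le_log_iff hx.1 hy.1).mp (by linarith)

/-- difference of squares by logarithms. -/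
lemma sq_diff_log {x y m : ℝ} (hx : 0 < x) (hy : 0 < y) (hxm : x ^ 2 ≤ m) (hym : y ^ 2 ≤ m) :
    |x ^ 2 - y ^ 2| ≤ 2 * m * |Real.log x - Real.log y| := by
  have key : ∀ a b : ℝ, 0 < a → 0 < b → b ≤ a → a ^ 2 ≤ m →
      a ^ 2 - b ^ 2 ≤ 2 * m * (Real.log a - Real.log b) := by
    intro a b ha hb hab ham
    have e1 : Real.log (b / a) * 2 ≤ (b / a) ^ 2 - 1 := by
      have := Real.log_le_sub_one_of_pos (x := (b / a) ^ 2) (by positivity)
      rw [Real.log_pow] at this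
      push_cast at this
      linarith
    rw [Real.log_div hb.ne' ha.ne'] at e1
    have e2 : a ^ 2 * (1 - (b / a) ^ 2) = a ^ 2 - b ^ 2 := by field_simp
    rw [← e2]
    have e3 : 0 ≤ Real.log a - Real.log b := by
      have := Real.log_le_log hb hab
      linarith
    calc a ^ 2 * (1 - (b / a) ^ 2) ≤ a ^ 2 * (2 * (Real.log a - Real.log b)) :=
          mul_le_mul_of_nonneg_left (by linarith) (sq_nonneg _)
      _ ≤ m * (2 * (Real.log a - Real.log b)) := mul_le_mul_of_nonneg_right ham (by linarith)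
      _ = _ := by ring
  rcases le_total y x with h | h
  · have e := key x y hx hy h hxm
    have e0 : 0 ≤ x ^ 2 - y ^ 2 := by nlinarith
    have e1 := Real.log_le_log hy h
    rw [abs_of_nonneg e0, abs_of_nonneg (by linarith)]
    exact e
  · have e := key y x hy hx h hym
    have e0 : x ^ 2 - y ^ 2 ≤ 0 := by nlinarith
    have e1 := Real.log_le_log hx h
    rw [abs_of_nonpos e0, abs_of_nonpos (by linarith)]
    linarith

/-- difference of numbers in `(0,1]` by logarithms. -/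
lemma sub_le_log {x y : ℝ} (hx : 0 < x) (hy : 0 < y) (hx1 : x ≤ 1) {d : ℝ} (hd : 0 ≤ d)
    (h : Real.log x - Real.log y ≤ d) : x - y ≤ d := by
  rcases le_total x y with hxy | hxy
  · linarith
  have e1 := Real.log_le_sub_one_of_pos (x := y / x) (by positivity)
  rw [Real.log_div hy.ne' hx.ne'] at e1
  have e2 : x * (1 - y / x) = x - y := by field_simp
  rw [← e2]
  have e3 : 1 - y / x ≤ Real.log x - Real.log y := by linarith
  have e4 : 0 ≤ 1 - y / x := by
    rw [sub_nonneg, div_le_one hx]; exact hxy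
  calc x * (1 - y / x) ≤ 1 * (1 - y / x) := mul_le_mul_of_nonneg_right hx1 e4
    _ ≤ d := by linarith

namespace FV

variable {r lam : ℝ} {V V1 N N1 N2 : ℝ → ℝ}

lemma V_mem (h : FV r lam V V1 N N1 N2) {p : ℝ} (hp : p ∈ Ioo (0:ℝ) 1) :
    V p ∈ Ioo (0:ℝ) 1 := ⟨h.V_pos ⟨hp.1, hp.2.le⟩, h.V_lt_one ⟨hp.1.le, hp.2⟩⟩

lemma dlgt (h : FV r lam V V1 N N1 N2) {p : ℝ} (hp : p ∈ Ioo (0:ℝ) 1) :
    HasDerivAt (fun p => lgt (V p)) (V1 p / (V p * (1 - V p))) p := by
  have hp' := Ioo_subset_Icc_self hp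
  have hV := h.V_mem hp
  have hV1 : 0 < 1 - V p := by linarith [hV.2]
  have e1 := (h.dV p hp').log hV.1.ne'
  have e2 := ((h.dV p hp').const_sub 1).log hV1.ne'
  refine (e1.sub e2).congr_deriv ?_
  have := hV.1.ne'
  field_simp
  ring

/-- `log Y` shift, upper and lower bounds. -/
lemma logY_shift (h : FV r lam V V1 N N1 N2) {nm nu : ℝ} (hle : ∀ p ∈ Icc (0:ℝ) 1, N p ≤ nu)
    (hge : ∀ p ∈ Icc (0:ℝ) 1, -nm ≤ N p) {a b : ℝ} (ha : 0 < a) (hab : a ≤ b) (hb : b ≤ 1) :
    Real.log (Yf V V1 a) - Real.log (Yf V V1 b) ≤ Real.log b - Real.log a + nm / 2 * (b - a) ∧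
    -(nu * (b - a)) ≤ Real.log (Yf V V1 a) - Real.log (Yf V V1 b) := by
  have hsub : ∀ x ∈ Icc a b, x ∈ Ioc (0:ℝ) 1 := fun x hx =>
    ⟨lt_of_lt_of_le ha hx.1, hx.2.trans hb⟩
  have hd : ∀ x ∈ Icc a b, HasDerivAt (fun t => Real.log (Yf V V1 t)) (N x - Yf V V1 x) x := by
    intro x hx
    have hY := h.Y_pos (hsub x hx)
    have := (h.dY (hsub x hx)).log hY.ne'
    refine this.congr_deriv ?_
    field_simp
  constructor
  · have := monotone_sub hab
      (f := fun t => Real.log (Yf V V1 t) + Real.log t + nm / 2 * t)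
      (f1 := fun t => N t - Yf V V1 t + 1 / t + nm / 2)
      (fun x hx => by
        have hx0 := (hsub x hx).1
        have e1 := Real.hasDerivAt_log hx0.ne'
        have e2 := (hasDerivAt_id x).const_mul (nm / 2)
        refine (((hd x hx).add e1).add e2).congr_deriv ?_
        simp)
      (fun x hx => by
        have e1 := h.Y_sub_N (hsub x hx)
        have e2 := hge x ⟨(hsub x hx).1.le, (hsub x hx).2⟩
        linarith)
    linarith
  · have := monotone_sub hab
      (f := fun t => nu * t - Real.log (Yf V V1 t))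
      (f1 := fun t => nu - (N t - Yf V V1 t))
      (fun x hx => by
        have e2 := (hasDerivAt_id x).const_mul nu
        refine (e2.sub (hd x hx)).congr_deriv ?_
        simp)
      (fun x hx => by
        have e1 := h.Y_pos (hsub x hx)
        have e2 := hle x ⟨(hsub x hx).1.le, (hsub x hx).2⟩
        linarith)
    linarith

/-- `log V` shift. -/
lemma logV_shift (h : FV r lam V V1 N N1 N2) {xi a b : ℝ} (ha : 0 < a) (hab : a ≤ b) (hb : b ≤ 1)
    (hY : ∀ q ∈ Icc a b, Yf V V1 q ≤ xi) :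
    Real.log (V b) - Real.log (V a) ≤ xi * (b - a) ∧ Real.log (V a) ≤ Real.log (V b) := by
  have hsub : ∀ x ∈ Icc a b, x ∈ Ioc (0:ℝ) 1 := fun x hx =>
    ⟨lt_of_lt_of_le ha hx.1, hx.2.trans hb⟩
  have hd : ∀ x ∈ Icc a b, HasDerivAt (fun t => Real.log (V t)) (Yf V V1 x) x := by
    intro x hx
    have hV := h.V_pos (hsub x hx)
    exact (h.dV x ⟨(hsub x hx).1.le, (hsub x hx).2⟩).log hV.ne'
  constructor
  · have := monotone_sub hab
      (f := fun t => xi * t - Real.log (V t))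
      (f1 := fun t => xi - Yf V V1 t)
      (fun x hx => by
        have e2 := (hasDerivAt_id x).const_mul xi
        refine (e2.sub (hd x hx)).congr_deriv ?_
        simp)
      (fun x hx => by linarith [hY x hx])
    linarith
  · exact monotone_sub hab (f := fun t => Real.log (V t)) (f1 := Yf V V1) hd
      (fun x hx => (h.Y_pos (hsub x hx)).le)

/-- `(1 - V p) / (1 - p) → V'(1)`. -/
lemma tendsto_one_sub (h : FV r lam V V1 N N1 N2) :
    Tendsto (fun p => (1 - V p) / (1 - p)) (𝓝[<] 1) (𝓝 (V1 1)) := by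
  have h1 := (h.dV 1 ⟨zero_le_one, le_rfl⟩).tendsto_slope
  have h2 : Tendsto (slope V 1) (𝓝[<] 1) (𝓝 (V1 1)) :=
    h1.mono_left (nhdsWithin_mono _ (fun x hx => ne_of_lt hx))
  refine h2.congr' ?_
  filter_upwards [self_mem_nhdsWithin] with p hp
  rw [slope_def_field, h.V_one, ← neg_div_neg_eq]
  congr 1 <;> ring

end FV

end Pool.Agent.Feig
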