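import Pool.Agent.Feig.Pair1

/-!
# Two solutions: logit comparison
-/

open Set Filter Topology

noncomputable section

namespace Pool.Agent.Feig

/-- the `KJ` structure of the zero Schwarzian. -/
lemma KJ_triv : KJ (fun _ => 0) (fun p => p) (fun _ => 1) (fun p => 1 - p) (fun _ => -1) 1 where
  dk p _ := hasDerivAt_id p
  dk1 p _ := (hasDerivAt_const p (1:ℝ)).congr_deriv (by ring)
  dj p _ := by simpa using (hasDerivAt_id p).const_sub 1
  dj1 p _ := (hasDerivAt_const p (-1:ℝ)).congr_deriv (by ring)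
  wr p _ := by ring
  k_zero := rfl
  j_one := by ring
  Hpos := one_pos
  k_ge p _ := le_rfl
  k_le p _ := by simp
  j_le p _ := le_rfl
  j_ge p _ := by simp

variable {r la lb : ℝ} {V V1 N N1 N2 W W1 M M1 M2 : ℝ → ℝ}

/-- derivative bound integrated. -/
lemma abs_sub_le_mul {f f1 : ℝ → ℝ} {a b E : ℝ} (hab : a ≤ b)
    (h1 : ∀ x ∈ Icc a b, HasDerivAt f (f1 x) x) (h3 : ∀ x ∈ Icc a b, |f1 x| ≤ E) :
    |f b - f a| ≤ E * (b - a) := by
  have := abs_sub_le_of_deriv (B := fun x => E * x) (B1 := fun _ => E) hab h1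
    (fun x _ => by simpa using (hasDerivAt_id x).const_mul E) h3
  linarith

lemma tdiff (h : FV r la V V1 N N1 N2) (h' : FV r lb W W1 M M1 M2) {E : ℝ}
    (hE : ∀ p ∈ Ioo (0:ℝ) 1, |V1 p / (V p * (1 - V p)) - W1 p / (W p * (1 - W p))| ≤ E)
    {p : ℝ} (hp : p ∈ Ioo (0:ℝ) 1) :
    |lgt (V p) - lgt (W p) - (Real.log (W1 1) - Real.log (V1 1))| ≤ E * (1 - p) := by
  have hlim : Tendsto (fun x => |(lgt (V x) - lgt (W x)) - (lgt (V p) - lgt (W p))|) (𝓝[<] 1)
      (𝓝 |(Real.log (W1 1) - Real.log (V1 1)) - (lgt (V p) - lgt (W p))|) := by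
    apply Tendsto.abs
    apply Tendsto.sub_const
    have hv := h.v_nonneg
    have hw := h'.v_nonneg
    have t1 := (h.tendsto_one_sub).log hv.ne'
    have t2 := (h'.tendsto_one_sub).log hw.ne'
    have c1 : Tendsto (fun x => Real.log (V x)) (𝓝[<] 1) (𝓝 0) := by
      have := ((h.dV 1 FV.one_mem).continuousAt.log (by rw [h.V_one]; norm_num)).tendsto
      rw [h.V_one, Real.log_one] at this
      exact this.mono_left nhdsWithin_le_nhds
    have c2 : Tendsto (fun x => Real.log (W x)) (𝓝[<] 1) (𝓝 0) := by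
      have := ((h'.dV 1 FV.one_mem).continuousAt.log (by rw [h'.V_one]; norm_num)).tendsto
      rw [h'.V_one, Real.log_one] at this
      exact this.mono_left nhdsWithin_le_nhds
    have t3 := ((c1.sub c2).add t2).sub t1
    have : (0:ℝ) - 0 + Real.log (W1 1) - Real.log (V1 1) = Real.log (W1 1) - Real.log (V1 1) := by
      ring
    rw [this] at t3
    refine t3.congr' ?_
    have hmem : Ioo (0:ℝ) 1 ∈ 𝓝[<] (1:ℝ) := Ioo_mem_nhdsLT zero_lt_one
    filter_upwards [hmem] with x hx
    have a1 := h.V_mem hx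
    have a2 := h'.V_mem hx
    have b1 : 0 < 1 - V x := by linarith [a1.2]
    have b2 : 0 < 1 - W x := by linarith [a2.2]
    have b3 : 0 < 1 - x := by linarith [hx.2]
    rw [Real.log_div b1.ne' b3.ne', Real.log_div b2.ne' b3.ne']
    unfold lgt
    ring
  have hle : ∀ᶠ x in 𝓝[<] (1:ℝ), |(lgt (V x) - lgt (W x)) - (lgt (V p) - lgt (W p))|
      ≤ E * (1 - p) := by
    have hmem : Ioo p 1 ∈ 𝓝[<] (1:ℝ) := Ioo_mem_nhdsLT hp.2
    have hE0 : 0 ≤ E := (abs_nonneg _).trans (hE p hp)
    filter_upwards [hmem] with x hx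
    have := abs_sub_le_mul (f := fun x => lgt (V x) - lgt (W x))
      (f1 := fun p => V1 p / (V p * (1 - V p)) - W1 p / (W p * (1 - W p))) hx.1.le
      (fun y hy => by
        have hy' : y ∈ Ioo (0:ℝ) 1 := ⟨lt_of_lt_of_le hp.1 hy.1, lt_of_le_of_lt hy.2 hx.2⟩
        exact (h.dlgt hy').sub (h'.dlgt hy'))
      (fun y hy => by
        have hy' : y ∈ Ioo (0:ℝ) 1 := ⟨lt_of_lt_of_le hp.1 hy.1, lt_of_le_of_lt hy.2 hx.2⟩
        exact hE y hy')
    refine this.trans ?_
    apply mul_le_mul_of_nonneg_left _ hE0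
    linarith [hx.2]
  have := le_of_tendsto hlim hle
  rw [abs_sub_comm] at this
  exact this

/-- `log (L_b / L_a)` bound. -/
lemma logL_diff {x y P d : ℝ} (hx : 0 < x) (hy : 0 < y) (hxP : 1 / x ≤ P) (hyP : 1 / y ≤ P)
    (hd : |x - y| ≤ d) : |Real.log x - Real.log y| ≤ P * d := by
  have key : ∀ a b : ℝ, 0 < a → 0 < b → 1 / b ≤ P → |a - b| ≤ d →
      Real.log a - Real.log b ≤ P * d := by
    intro a b ha hb hbP hab
    have e1 := Real.log_le_sub_one_of_pos (x := a / b) (by positivity)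
    rw [Real.log_div ha.ne' hb.ne'] at e1
    have e2 : a / b - 1 = 1 / b * (a - b) := by field_simp
    rw [e2] at e1
    have hd0 : 0 ≤ d := (abs_nonneg _).trans hab
    calc Real.log a - Real.log b ≤ 1 / b * (a - b) := e1
      _ ≤ 1 / b * d := mul_le_mul_of_nonneg_left ((le_abs_self _).trans hab) (by positivity)
      _ ≤ P * d := mul_le_mul_of_nonneg_right hbP hd0
  rw [abs_le]
  constructor
  · have := key y x hy hx hxP (by rw [abs_sub_comm]; exact hd)
    linarith
  · exact key x y hx hy hyP hd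

/-- bounds for `Δ = log (v_b / v_a)`. -/
lemma Delta_bounds (h : FV r la V V1 N N1 N2) (h' : FV r lb W W1 M M1 M2) (hab : la ≤ lb)
    {L D rb : ℝ} (hL : lb ≤ L) (hrb : r ≤ rb) (hD : rb - 1 + L / (1 + L) ≤ D) :
    (r - 1) * (Real.log lb - Real.log la) ≤ Real.log (W1 1) - Real.log (V1 1) ∧
    Real.log (W1 1) - Real.log (V1 1) ≤ D * (Real.log lb - Real.log la) ∧
    0 ≤ Real.log (1 + lb) - Real.log (1 + la) ∧
    Real.log (1 + lb) - Real.log (1 + la) ≤ L / (1 + L) * (Real.log lb - Real.log la) := by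
  have hla := h.lam_pos
  have hlb := h'.lam_pos
  have hr := h.r_pos
  have e1 : Real.log (V1 1) = Real.log r + (r - 1) * Real.log la + Real.log (1 + la) := by
    rw [h.v_eq', Real.log_mul (by positivity) (by positivity),
      Real.log_mul (by positivity) (by positivity), Real.log_rpow hla]
  have e2 : Real.log (W1 1) = Real.log r + (r - 1) * Real.log lb + Real.log (1 + lb) := by
    rw [h'.v_eq', Real.log_mul (by positivity) (by positivity),
      Real.log_mul (by positivity) (by positivity), Real.log_rpow hlb]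
  have hd : 0 ≤ Real.log lb - Real.log la := by linarith [Real.log_le_log hla hab]
  have hm : 0 ≤ Real.log (1 + lb) - Real.log (1 + la) := by
    linarith [Real.log_le_log (by linarith : 0 < 1 + la) (by linarith : 1 + la ≤ 1 + lb)]
  have hLp : 0 < L := hlb.trans_le hL
  -- Gibbs
  have hm2 : Real.log (1 + lb) - Real.log (1 + la) ≤ L / (1 + L) * (Real.log lb - Real.log la) := by
    have ma : 1 / (1 + la) ∈ Ioo (0:ℝ) 1 := h.pst_mem
    have mb : 1 / (1 + lb) ∈ Ioo (0:ℝ) 1 := h'.pst_mem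
    -- x = 1/(1+lb), y = 1/(1+la)
    have g := gibbs2 mb ma
    have f1 : ∀ t : ℝ, 0 < t → lgt (1 / (1 + t)) = - Real.log t := by
      intro t ht
      unfold lgt
      have : 1 - 1 / (1 + t) = t / (1 + t) := by field_simp; ring
      rw [this, Real.log_div one_ne_zero (by positivity), Real.log_div ht.ne' (by positivity),
        Real.log_one]
      ring
    rw [f1 la hla, f1 lb hlb, Real.log_div one_ne_zero (by positivity),
      Real.log_div one_ne_zero (by positivity), Real.log_one] at g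
    have f2 : 1 - 1 / (1 + lb) ≤ L / (1 + L) := by
      have : 1 - 1 / (1 + lb) = lb / (1 + lb) := by field_simp; ring
      rw [this, div_le_div_iff₀ (by positivity) (by positivity)]
      nlinarith
    have f3 := mul_le_mul_of_nonneg_right f2 hd
    linarith
  refine ⟨?_, ?_, hm, hm2⟩
  · rw [e1, e2]; linarith
  · rw [e1, e2]
    have : (r - 1) * (Real.log lb - Real.log la) ≤ (rb - 1) * (Real.log lb - Real.log la) :=
      mul_le_mul_of_nonneg_right (by linarith) hd
    have g2 := mul_le_mul_of_nonneg_right hD hd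
    linarith

/-- `lb - la ≤ lb δ`. -/
lemma lam_diff_le {la lb : ℝ} (hla : 0 < la) (hlb : 0 < lb) :
    lb - la ≤ lb * (Real.log lb - Real.log la) := by
  have := Real.log_le_sub_one_of_pos (x := la / lb) (by positivity)
  rw [Real.log_div hla.ne' hlb.ne'] at this
  have e : lb * (la / lb - 1) = la - lb := by field_simp
  have := mul_le_mul_of_nonneg_left this hlb.le
  linarith

end Pool.Agent.Feig
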