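import Pool.Agent.Feig.Pair2

/-!
# Two solutions: the pieces of the Schwarzian difference
-/

open Set Filter Topology

noncomputable section

namespace Pool.Agent.Feig

lemma mul_le_self_of {x y : ℝ} (hx : 0 < x) (hy : y ≤ 1) : x * y ≤ x := by nlinarith

lemma q_le_q {a b p : ℝ} (hab : a ≤ b) (hp : 0 < p) : 1 - b * p ≤ 1 - a * p := by nlinarith

lemma quarter {t : ℝ} : (1 - t) * t ≤ 1 / 4 := by nlinarith [sq_nonneg (t - 1 / 2)]

lemma le_mul_prod {x a b : ℝ} (hx : 0 ≤ x) (ha : 0 < a) (hb : 0 < b) :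
    x ≤ x * ((1 + a) * (1 + b)) := by
  have : 1 ≤ (1 + a) * (1 + b) := by nlinarith
  nlinarith

structure PairH (B : Bx) (r la lb E D : ℝ) (V V1 N N1 N2 W W1 M M1 M2 : ℝ → ℝ) : Prop where
  h : FV r la V V1 N N1 N2
  h' : FV r lb W W1 M M1 M2
  s : Sing B r la V V1 N N1 N2
  s' : Sing B r lb W W1 M M1 M2
  ok : B.Ok
  hra : B.ra ≤ r
  hab : la ≤ lb
  hL : lb ≤ B.L
  hD : r - 1 + B.L / (1 + B.L) ≤ D
  hnu : B.L * B.nu ≤ 1
  hE : ∀ p ∈ Ioo (0:ℝ) 1, |V1 p / (V p * (1 - V p)) - W1 p / (W p * (1 - W p))| ≤ E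

namespace PairH

variable {B : Bx} {r la lb E D : ℝ} {V V1 N N1 N2 W W1 M M1 M2 : ℝ → ℝ}

lemma E_nonneg (H : PairH B r la lb E D V V1 N N1 N2 W W1 M M1 M2) : 0 ≤ E :=
  (abs_nonneg _).trans (H.hE (1 / 2) ⟨by norm_num, by norm_num⟩)

lemma d_nonneg (H : PairH B r la lb E D V V1 N N1 N2 W W1 M M1 M2) :
    0 ≤ Real.log lb - Real.log la := by
  have := Real.log_le_log H.h.lam_pos H.hab
  linarith

lemma D_nonneg (H : PairH B r la lb E D V V1 N N1 N2 W W1 M M1 M2) : 0 ≤ D := by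
  have h1 := H.hD
  have h2 := H.h.hr
  have h3 := H.ok.L_pos
  have : 0 < B.L / (1 + B.L) := by positivity
  linarith

lemma pieces (H : PairH B r la lb E D V V1 N N1 N2 W W1 M M1 M2) {p : ℝ} (hp : p ∈ Ioc (0:ℝ) 1) :
    ∃ A0 A1 A2 A3 A4 : ℝ,
      Real.log (lb * Yf W W1 (1 - lb * p)) - Real.log (la * Yf V V1 (1 - la * p)) = A0 + A1 + A2 ∧
      Real.log (W (1 - lb * p)) - Real.log (V (1 - la * p)) = A3 + A4 ∧
      0 ≤ A0 ∧ A0 ≤ (Real.log lb - Real.log la) * (1 / (1 - lb * p) + B.L * (B.nm / 2)) ∧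
      -(W (1 - lb * p) * (E * (lb * p))) ≤ A1 ∧
      A1 ≤ V (1 - lb * p) * (D * (Real.log lb - Real.log la) + E * (lb * p)) ∧
      |A2| ≤ (1 - lb * p) * (lb * p) / B.H * E ∧
      -((1 - W (1 - lb * p)) * (D * (Real.log lb - Real.log la) + E * (lb * p))) ≤ A3 ∧
      A3 ≤ (1 - V (1 - lb * p)) * (E * (lb * p)) ∧
      -(B.xi * (B.L * (Real.log lb - Real.log la))) ≤ A4 ∧ A4 ≤ 0 := by
  have h := H.h
  have h' := H.h'
  have hab := H.hab
  have hL := H.hL
  have hla := h.lam_pos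
  have hlb := h'.lam_pos
  have hla1 := h.lam_lt
  have hlb1 := h'.lam_lt
  have hLp := H.ok.L_pos
  have hL2 := H.ok.L_le
  have hp0 := hp.1
  have hp1 := hp.2
  have hd := H.d_nonneg
  have hE0 := H.E_nonneg
  have hdl := lam_diff_le hla hlb
  set δ := Real.log lb - Real.log la with hδ
  set t := lb * p with ht
  have ht0 : 0 < t := mul_pos hlb hp0
  have htl : t ≤ lb := by
    rw [ht]; exact mul_le_self_of hlb hp1
  have htL : t ≤ B.L := htl.trans hL
  set q := 1 - la * p with hq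
  set q' := 1 - t with hq'
  have hqq : q' ≤ q := by
    rw [hq', hq, ht]; exact q_le_q hab hp0
  have hq'0 : 0 < q' := by rw [hq']; linarith
  have hq'1 : q' < 1 := by rw [hq']; linarith
  have hq1 : q < 1 := by
    have : 0 < la * p := mul_pos hla hp0
    rw [hq]; linarith
  have hq0 : 0 < q := hq'0.trans_le hqq
  have hq'm : q' ∈ Ioo (0:ℝ) 1 := ⟨hq'0, hq'1⟩
  have hq'I : q' ∈ Icc (0:ℝ) 1 := ⟨hq'0.le, hq'1.le⟩
  have hdq : q - q' ≤ t * δ := by
    have e : q - q' = (lb - la) * p := by rw [hq, hq', ht]; ring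
    rw [e, ht]
    calc (lb - la) * p ≤ lb * δ * p := mul_le_mul_of_nonneg_right hdl hp0.le
      _ = lb * p * δ := by ring
  have hdqL : q - q' ≤ B.L * δ := hdq.trans (mul_le_mul_of_nonneg_right htL hd)
  have hV := h.V_mem hq'm
  have hW := h'.V_mem hq'm
  have hYa := h.Y_pos (q := q) ⟨hq0, hq1.le⟩
  have hYa' := h.Y_pos (q := q') ⟨hq'0, hq'1.le⟩
  have hYb := h'.Y_pos (q := q') ⟨hq'0, hq'1.le⟩
  have hV1 := h.V1_pos q' hq'I
  have hW1 := h'.V1_pos q' hq'I
  have hVc : 0 < 1 - V q' := by linarith [hV.2]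
  have hWc : 0 < 1 - W q' := by linarith [hW.2]
  have hVp := hV.1
  have hWp := hW.1
  obtain ⟨D1, D2, -, -⟩ := Delta_bounds h h' hab hL le_rfl H.hD
  have hD0 := H.D_nonneg
  have hr1 := h.hr
  have hDel0 : 0 ≤ Real.log (W1 1) - Real.log (V1 1) :=
    le_trans (mul_nonneg (by linarith) hd) D1
  have hT := tdiff h h' H.hE hq'm
  have h1q : 1 - q' = t := by rw [hq']; ring
  rw [h1q, abs_le] at hT
  have hnm := H.ok.nm_nn
  refine ⟨δ + Real.log (Yf V V1 q') - Real.log (Yf V V1 q),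
    Real.log (1 - W q') - Real.log (1 - V q'),
    Real.log (W1 q' / (W q' * (1 - W q'))) - Real.log (V1 q' / (V q' * (1 - V q'))),
    Real.log (W q') - Real.log (V q'), Real.log (V q') - Real.log (V q), ?_, by ring, ?_, ?_,
    ?_, ?_, ?_, ?_, ?_, ?_, ?_⟩
  · rw [Real.log_mul hlb.ne' hYb.ne', Real.log_mul hla.ne' hYa.ne']
    have e1 : Yf W W1 q' = (1 - W q') * (W1 q' / (W q' * (1 - W q'))) := by
      unfold Yf; field_simp
    have e2 : Yf V V1 q' = (1 - V q') * (V1 q' / (V q' * (1 - V q'))) := by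
      unfold Yf; field_simp
    rw [e1, e2, Real.log_mul hWc.ne' (by positivity), Real.log_mul hVc.ne' (by positivity)]
    rw [hδ]
    ring
  · -- A0 ≥ 0
    have := (h.logY_shift H.s.N_le H.s.N_ge hq'0 hqq hq1.le).2
    have hnu := H.hnu
    have hnu0 := H.ok.nu_nn
    have : B.nu * (q - q') ≤ δ := by
      calc B.nu * (q - q') ≤ B.nu * (B.L * δ) := mul_le_mul_of_nonneg_left hdqL hnu0
        _ = (B.L * B.nu) * δ := by ring
        _ ≤ 1 * δ := mul_le_mul_of_nonneg_right hnu hd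
        _ = δ := one_mul _
    linarith
  · have e1 := (h.logY_shift H.s.N_le H.s.N_ge hq'0 hqq hq1.le).1
    have e2 : Real.log q - Real.log q' ≤ t * δ / q' := by
      have := Real.log_le_sub_one_of_pos (x := q / q') (by positivity)
      rw [Real.log_div hq0.ne' hq'0.ne'] at this
      have e : q / q' - 1 = (q - q') / q' := by field_simp
      rw [e] at this
      exact this.trans (div_le_div_of_nonneg_right hdq hq'0.le)
    have e3 : B.nm / 2 * (q - q') ≤ B.nm / 2 * (B.L * δ) :=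
      mul_le_mul_of_nonneg_left hdqL (by linarith)
    have e4 : δ + t * δ / q' = δ * (1 / q') := by
      have : t = 1 - q' := h1q.symm
      rw [this]
      field_simp
      ring
    calc δ + Real.log (Yf V V1 q') - Real.log (Yf V V1 q)
        ≤ (δ + t * δ / q') + B.nm / 2 * (B.L * δ) := by linarith
      _ = δ * (1 / q' + B.L * (B.nm / 2)) := by rw [e4]; ring
  · have := gibbs1' hV hW
    have e : W q' * (-(E * t)) ≤ W q' * (lgt (V q') - lgt (W q')) :=
      mul_le_mul_of_nonneg_left (by linarith [hT.1]) hWp.le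
    linarith
  · have := gibbs1 hV hW
    have e : V q' * (lgt (V q') - lgt (W q')) ≤ V q' * (D * δ + E * t) :=
      mul_le_mul_of_nonneg_left (by linarith [hT.2]) hVp.le
    linarith
  · have e1 := h.P_le H.s.kj hq'I
    have e2 := h'.P_le H.s'.kj hq'I
    have hH := H.ok.H_pos
    rw [← le_div_iff₀ hH, h1q] at e1 e2
    have := logL_diff (x := W1 q' / (W q' * (1 - W q'))) (y := V1 q' / (V q' * (1 - V q')))
      (P := q' * t / B.H) (d := E) (by positivity) (by positivity) (by rw [one_div_div]; exact e2)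
      (by rw [one_div_div]; exact e1) (by rw [abs_sub_comm]; exact H.hE q' hq'm)
    exact this
  · have := gibbs2' hV hW
    have e : (1 - W q') * (-(D * δ + E * t)) ≤ (1 - W q') * (lgt (W q') - lgt (V q')) :=
      mul_le_mul_of_nonneg_left (by linarith [hT.2]) hWc.le
    linarith
  · have := gibbs2 hV hW
    have e : (1 - V q') * (lgt (W q') - lgt (V q')) ≤ (1 - V q') * (E * t) :=
      mul_le_mul_of_nonneg_left (by linarith [hT.1]) hVc.le
    linarith
  · have e1 := (h.logV_shift (xi := B.xi) hq'0 hqq hq1.le (fun x hx => H.s.Y_le x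
      ⟨by rw [hq'] at hx; linarith [hx.1], hx.2.trans hq1.le⟩)).1
    have e2 : B.xi * (q - q') ≤ B.xi * (B.L * δ) :=
      mul_le_mul_of_nonneg_left hdqL H.ok.xi_pos.le
    linarith
  · have e1 := (h.logV_shift (xi := B.xi) hq'0 hqq hq1.le (fun x hx => H.s.Y_le x
      ⟨by rw [hq'] at hx; linarith [hx.1], hx.2.trans hq1.le⟩)).2
    linarith

end PairH

end Pool.Agent.Feig
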