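import Pool.Agent.Feig.Pair3

/-!
# Two solutions: the three terms
-/

open Set Filter Topology

noncomputable section

namespace Pool.Agent.Feig

lemma gd_log {r lam : ℝ} {V V1 N N1 N2 : ℝ → ℝ} (h : FV r lam V V1 N N1 N2) {p : ℝ}
    (hp : p ∈ Icc (0:ℝ) 1) :
    Real.log (gd r lam V V1 p) = Real.log (lam * Yf V V1 (1 - lam * p)) - Real.log r
      - Real.log (1 + lam) + 1 / r * Real.log (V (1 - lam * p)) := by
  have hl := h.lam_pos
  have hr := h.r_pos
  have hq := h.q_mem (h.mem_b hp)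
  have hY := h.Y_pos hq
  have hV := h.V_pos hq
  have hx := (h.x_mem hq).1
  unfold gd
  rw [Real.log_mul (by positivity) (by positivity), Real.log_mul hY.ne' hx.ne',
    Real.log_div hl.ne' (by positivity), Real.log_mul hr.ne' (by positivity),
    Real.log_rpow hV, Real.log_mul hl.ne' hY.ne']
  ring

namespace PairH

variable {B : Bx} {r la lb E D : ℝ} {V V1 N N1 N2 W W1 M M1 M2 : ℝ → ℝ}

/-- `q (q + a (1-q))` is increasing on `[1-L, 1]`. -/
lemma xi_mono {a x y : ℝ} (ha0 : 0 ≤ a) (ha : a ≤ 2) (hx : 0 ≤ x) (hxy : x ≤ y) (hy : y ≤ 1) :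
    x * (x + a * (1 - x)) ≤ y * (y + a * (1 - y)) := by
  have : 0 ≤ (y - x) * (a + (1 - a) * (x + y)) := by
    apply mul_nonneg (by linarith)
    rcases le_total (1 - a) 0 with hs | hs
    · nlinarith
    · have := mul_nonneg hs (by linarith : 0 ≤ x + y)
      nlinarith
  nlinarith

/-- product inequality `(1 + α t)^2 (1 - β t) ≥ 1`. -/
lemma prod_ge_one {α β t L : ℝ} (ha : 0 ≤ α) (hb : 0 ≤ β) (ht : 0 ≤ t) (htL : t ≤ L)
    (hc : β + 2 * α * β * L + α ^ 2 * β * L ^ 2 ≤ 2 * α) : 1 ≤ (1 + α * t) ^ 2 * (1 - β * t) := by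
  have e1 : 2 * α * β * t ≤ 2 * α * β * L := mul_le_mul_of_nonneg_left htL (by positivity)
  have e2 : α ^ 2 * β * t ^ 2 ≤ α ^ 2 * β * L ^ 2 := by gcongr
  have e3 : 0 ≤ t * (2 * α - β - 2 * α * β * t - α ^ 2 * β * t ^ 2 + α ^ 2 * t) :=
    mul_nonneg ht (by
      have : 0 ≤ α ^ 2 * t := by positivity
      linarith)
  nlinarith

lemma T3 (H : PairH B r la lb E D V V1 N N1 N2 W W1 M M1 M2)
    (ha1 : 1 ≤ 32 / 25 * B.H) (ha2 : 32 / 25 * B.H ≤ 2) (hb : B.vm * B.H ^ 2 ≤ 1)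
    (hprod : (1 - B.vm * B.H ^ 2) + 2 * (32 / 25 * B.H - 1) * (1 - B.vm * B.H ^ 2) * B.L
      + (32 / 25 * B.H - 1) ^ 2 * (1 - B.vm * B.H ^ 2) * B.L ^ 2 ≤ 2 * (32 / 25 * B.H - 1))
    {p : ℝ} (hp : p ∈ Ioc (0:ℝ) 1) :
    |cc r * la ^ 2 * Yf V V1 (1 - la * p) ^ 2 - cc r * lb ^ 2 * Yf W W1 (1 - lb * p) ^ 2|
      ≤ cc r * lb ^ 2 * (2 * ((B.xi ^ 2 * (1 / (1 - B.L) + B.L * (B.nm / 2))
          + (32 / 25) ^ 2 / (1 - B.L) * D) * (Real.log lb - Real.log la)
        + (32 / 25) ^ 2 * (B.L / (1 - B.L)) * (1 + 1 / B.H) * E)) := by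
  obtain ⟨A0, A1, A2, A3, A4, hX, -, a0, a0', a1, a1', a2, -, -, -, -⟩ := H.pieces hp
  have h := H.h
  have h' := H.h'
  have hab := H.hab
  have hL := H.hL
  have hla := h.lam_pos
  have hlb := h'.lam_pos
  have hla1 := h.lam_lt
  have hlb1 := h'.lam_lt
  have hLp := H.ok.L_pos
  have hL2 := H.ok.L_le
  have hp0 := hp.1
  have hp1 := hp.2
  have hd := H.d_nonneg
  have hE0 := H.E_nonneg
  have hD0 := H.D_nonneg
  have hHp := H.ok.H_pos
  have hc := h.cc_pos
  set δ := Real.log lb - Real.log la with hδ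
  set t := lb * p with ht
  have ht0 : 0 < t := mul_pos hlb hp0
  have htL : t ≤ B.L := by
    have : t ≤ lb := by rw [ht]; exact mul_le_self_of hlb hp1
    linarith
  set q := 1 - la * p with hq
  set q' := 1 - t with hq'
  have hqq : q' ≤ q := by
    rw [hq', hq, ht]; exact q_le_q hab hp0
  have hq'0 : 0 < q' := by rw [hq']; linarith
  have hq'1 : q' < 1 := by rw [hq']; linarith
  have hq1 : q < 1 := by
    have : 0 < la * p := mul_pos hla hp0
    rw [hq]; linarith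
  have hq0 : 0 < q := hq'0.trans_le hqq
  have hq'm : q' ∈ Ioo (0:ℝ) 1 := ⟨hq'0, hq'1⟩
  have hq'I : q' ∈ Icc (0:ℝ) 1 := ⟨hq'0.le, hq'1.le⟩
  have h1q : 1 - q' = t := by rw [hq']; ring
  have hV := h.V_mem hq'm
  have hW := h'.V_mem hq'm
  have hYa := h.Y_pos (q := q) ⟨hq0, hq1.le⟩
  have hYb := h'.Y_pos (q := q') ⟨hq'0, hq'1.le⟩
  -- m and n
  set m := q' + 32 / 25 * (B.H * (1 - q')) with hm
  set n := q' + B.vm * (B.H ^ 2 * (1 - q')) with hn
  have hm1 : m = 1 + (32 / 25 * B.H - 1) * t := by rw [hm, h1q, hq']; ring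
  have hn1 : n = 1 - (1 - B.vm * B.H ^ 2) * t := by rw [hn, h1q, hq']; ring
  have hvm := H.ok.vm_pos
  have hm1' : 1 ≤ m := by
    rw [hm1]
    have : 0 ≤ (32 / 25 * B.H - 1) * t := mul_nonneg (by linarith) ht0.le
    linarith
  have hnp : 0 < n := by
    rw [hn, h1q]; positivity
  have hmn : 1 ≤ m ^ 2 * n := by
    rw [hm1, hn1]
    exact prod_ge_one (by linarith) (by linarith) ht0.le htL hprod
  -- V, W ≤ q'/n
  have hVn : ∀ {x v : ℝ}, 0 ≤ x → B.vm ≤ v → x * (q' + v * (B.H ^ 2 * (1 - q'))) ≤ q' →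
      x ≤ q' / n := by
    intro x v hx hv hxv
    rw [le_div_iff₀ hnp]
    refine le_trans ?_ hxv
    rw [hn]
    have : B.vm * (B.H ^ 2 * (1 - q')) ≤ v * (B.H ^ 2 * (1 - q')) :=
      mul_le_mul_of_nonneg_right hv (by rw [h1q]; positivity)
    exact mul_le_mul_of_nonneg_left (by linarith) hx
  have hVq : V q' ≤ q' / n := hVn hV.1.le H.s.v_ge (h.V_le' H.s.kj ⟨hq'0, hq'1.le⟩)
  have hWq : W q' ≤ q' / n := hVn hW.1.le H.s'.v_ge (h'.V_le' H.s'.kj ⟨hq'0, hq'1.le⟩)
  -- ξ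
  set ξ := 32 / 25 / (q' * m) with hξ
  have hξ0 : 0 < ξ := by rw [hξ]; positivity
  have hYaξ : Yf V V1 q ≤ ξ := by
    have e1 := h.Y_le_v H.s.kj H.s.v_le (q := q) ⟨hq0, hq1.le⟩
    rw [hξ, le_div_iff₀ (by positivity)]
    refine le_trans ?_ e1
    apply mul_le_mul_of_nonneg_left _ hYa.le
    have := xi_mono (a := 32 / 25 * B.H) (by linarith) ha2 hq'0.le hqq hq1.le
    rw [hm]
    linarith
  have hYbξ : Yf W W1 q' ≤ ξ := by
    have e1 := h'.Y_le_v H.s'.kj H.s'.v_le (q := q') ⟨hq'0, hq'1.le⟩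
    rw [hξ, le_div_iff₀ (by positivity)]
    exact e1
  have hξxi : ξ ≤ B.xi := by
    rw [hξ, div_le_iff₀ (by positivity)]
    refine H.ok.ok6.trans ?_
    apply mul_le_mul_of_nonneg_left _ H.ok.xi_pos.le
    have := xi_mono (a := 32 / 25 * B.H) (x := 1 - B.L) (y := q') (by linarith) ha2 (by linarith)
      (by rw [hq']; linarith) hq'1.le
    rw [hm]
    linarith
  -- sizes
  have hXa : (la * Yf V V1 q) ^ 2 ≤ lb ^ 2 * ξ ^ 2 := by
    rw [← mul_pow]
    apply pow_le_pow_left₀ (by positivity)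
    exact mul_le_mul hab hYaξ hYa.le hlb.le
  have hXb : (lb * Yf W W1 q') ^ 2 ≤ lb ^ 2 * ξ ^ 2 := by
    rw [← mul_pow]
    apply pow_le_pow_left₀ (by positivity)
    exact mul_le_mul_of_nonneg_left hYbξ hlb.le
  have hsq := sq_diff_log (x := la * Yf V V1 q) (y := lb * Yf W W1 q') (by positivity)
    (by positivity) hXa hXb
  rw [abs_sub_comm (Real.log (la * Yf V V1 q)), hX] at hsq
  -- bound of A0+A1+A2
  have hDE : 0 ≤ D * δ + E * t := by positivity
  have hA : |A0 + A1 + A2| ≤ δ * (1 / q' + B.L * (B.nm / 2)) + q' / n * (D * δ + E * t)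
      + q' * t / B.H * E := by
    have g0 : |A0| ≤ δ * (1 / q' + B.L * (B.nm / 2)) := by
      rw [abs_of_nonneg a0]; exact a0'
    have g1 : |A1| ≤ q' / n * (D * δ + E * t) := by
      rw [abs_le]
      constructor
      · have e1 : W q' * (E * t) ≤ q' / n * (D * δ + E * t) := by
          apply mul_le_mul hWq _ (by positivity) (by positivity)
          have : 0 ≤ D * δ := by positivity
          linarith
        linarith
      · exact a1'.trans (mul_le_mul_of_nonneg_right hVq hDE)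
    exact (abs_add_le _ _).trans (add_le_add ((abs_add_le _ _).trans (add_le_add g0 g1)) a2)
  -- multiply by ξ^2
  have h1L : 0 < 1 - B.L := by linarith
  have hq'L : 1 - B.L ≤ q' := by rw [hq']; linarith
  have i1 : ξ ^ 2 * (1 / q' + B.L * (B.nm / 2)) ≤ B.xi ^ 2 * (1 / (1 - B.L) + B.L * (B.nm / 2)) := by
    have hnm := H.ok.nm_nn
    have : 1 / q' ≤ 1 / (1 - B.L) := one_div_le_one_div_of_le h1L hq'L
    have e0 : 0 ≤ 1 / q' + B.L * (B.nm / 2) := by positivity
    exact mul_le_mul (pow_le_pow_left₀ hξ0.le hξxi 2) (by linarith) e0 (sq_nonneg _)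
  have i2 : ξ ^ 2 * (q' / n) ≤ (32 / 25) ^ 2 / q' := by
    have e : ξ ^ 2 * (q' / n) = (32 / 25) ^ 2 / q' * (1 / (m ^ 2 * n)) := by
      rw [hξ]; field_simp
    rw [e]
    have : 1 / (m ^ 2 * n) ≤ 1 := by
      rw [div_le_one (by positivity)]; exact hmn
    calc (32 / 25) ^ 2 / q' * (1 / (m ^ 2 * n)) ≤ (32 / 25) ^ 2 / q' * 1 :=
          mul_le_mul_of_nonneg_left this (by positivity)
      _ = _ := mul_one _
  have i2' : (32 / 25 : ℝ) ^ 2 / q' ≤ (32 / 25) ^ 2 / (1 - B.L) :=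
    div_le_div_of_nonneg_left (by positivity) h1L hq'L
  have i3 : t / q' ≤ B.L / (1 - B.L) := div_le_div₀ hLp.le htL h1L hq'L
  have i4 : ξ ^ 2 * (q' * t) ≤ (32 / 25) ^ 2 * (B.L / (1 - B.L)) := by
    have e : ξ ^ 2 * (q' * t) = (32 / 25) ^ 2 * (t / q') * (1 / m ^ 2) := by
      rw [hξ]; field_simp
    rw [e]
    have : 1 / m ^ 2 ≤ 1 := by
      rw [div_le_one (by positivity)]; exact one_le_pow₀ hm1'
    calc (32 / 25) ^ 2 * (t / q') * (1 / m ^ 2) ≤ (32 / 25) ^ 2 * (t / q') * 1 :=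
          mul_le_mul_of_nonneg_left this (by positivity)
      _ ≤ (32 / 25) ^ 2 * (B.L / (1 - B.L)) := by
          rw [mul_one]; exact mul_le_mul_of_nonneg_left i3 (by positivity)
  have j1 : ξ ^ 2 * (q' / n * (D * δ + E * t)) ≤ (32 / 25) ^ 2 / (1 - B.L) * D * δ
      + (32 / 25) ^ 2 * (B.L / (1 - B.L)) * E := by
    calc ξ ^ 2 * (q' / n * (D * δ + E * t)) = ξ ^ 2 * (q' / n) * (D * δ + E * t) := by ring
      _ ≤ (32 / 25) ^ 2 / q' * (D * δ + E * t) := mul_le_mul_of_nonneg_right i2 hDE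
      _ = (32 / 25) ^ 2 / q' * (D * δ) + (32 / 25) ^ 2 * (t / q') * E := by ring
      _ ≤ (32 / 25) ^ 2 / (1 - B.L) * (D * δ) + (32 / 25) ^ 2 * (B.L / (1 - B.L)) * E := by
          apply add_le_add
          · exact mul_le_mul_of_nonneg_right i2' (by positivity)
          · apply mul_le_mul_of_nonneg_right _ hE0
            exact mul_le_mul_of_nonneg_left i3 (by positivity)
      _ = _ := by ring
  have j2 : ξ ^ 2 * (q' * t / B.H * E) ≤ (32 / 25) ^ 2 * (B.L / (1 - B.L)) * (1 / B.H) * E := by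
    calc ξ ^ 2 * (q' * t / B.H * E) = ξ ^ 2 * (q' * t) * (1 / B.H) * E := by ring
      _ ≤ _ := by gcongr
  have tot : ξ ^ 2 * |A0 + A1 + A2| ≤ (B.xi ^ 2 * (1 / (1 - B.L) + B.L * (B.nm / 2))
          + (32 / 25) ^ 2 / (1 - B.L) * D) * δ
        + (32 / 25) ^ 2 * (B.L / (1 - B.L)) * (1 + 1 / B.H) * E := by
    calc ξ ^ 2 * |A0 + A1 + A2| ≤ ξ ^ 2 * (δ * (1 / q' + B.L * (B.nm / 2))
          + q' / n * (D * δ + E * t) + q' * t / B.H * E) :=
          mul_le_mul_of_nonneg_left hA (sq_nonneg _)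
      _ = ξ ^ 2 * (1 / q' + B.L * (B.nm / 2)) * δ + ξ ^ 2 * (q' / n * (D * δ + E * t))
          + ξ ^ 2 * (q' * t / B.H * E) := by ring
      _ ≤ B.xi ^ 2 * (1 / (1 - B.L) + B.L * (B.nm / 2)) * δ + ((32 / 25) ^ 2 / (1 - B.L) * D * δ
      + (32 / 25) ^ 2 * (B.L / (1 - B.L)) * E) + (32 / 25) ^ 2 * (B.L / (1 - B.L)) * (1 / B.H) * E := by
          apply add_le_add (add_le_add (mul_le_mul_of_nonneg_right i1 hd) j1) j2
      _ = _ := by ring
  have e1 : cc r * la ^ 2 * Yf V V1 q ^ 2 - cc r * lb ^ 2 * Yf W W1 q' ^ 2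
      = cc r * ((la * Yf V V1 q) ^ 2 - (lb * Yf W W1 q') ^ 2) := by ring
  rw [e1, abs_mul, abs_of_pos hc]
  calc cc r * |(la * Yf V V1 q) ^ 2 - (lb * Yf W W1 q') ^ 2|
      ≤ cc r * (2 * (lb ^ 2 * ξ ^ 2) * |A0 + A1 + A2|) := mul_le_mul_of_nonneg_left hsq hc.le
    _ = cc r * lb ^ 2 * (2 * (ξ ^ 2 * |A0 + A1 + A2|)) := by ring
    _ ≤ _ := by
        apply mul_le_mul_of_nonneg_left _ (by positivity)
        linarith

/-- difference of `log g'`. -/
lemma Gdiff (H : PairH B r la lb E D V V1 N N1 N2 W W1 M M1 M2) {tg : ℝ}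
    (ht1 : 1 / (1 - B.L) + B.L * (B.nm / 2) + D ≤ tg)
    (ht2 : B.L / (1 + B.L) + (D + B.xi * B.L) / B.ra ≤ tg)
    {p : ℝ} (hp : p ∈ Ioc (0:ℝ) 1) :
    |Real.log (gd r lb W W1 p) - Real.log (gd r la V V1 p)|
      ≤ tg * (Real.log lb - Real.log la) + (B.L * (1 + 1 / B.ra) + 1 / (4 * B.H)) * E := by
  obtain ⟨A0, A1, A2, A3, A4, hX, hVV, a0, a0', a1, a1', a2, a3, a3', a4, a4'⟩ := H.pieces hp
  have h := H.h
  have h' := H.h'
  have hab := H.hab
  have hL := H.hL
  have hla := h.lam_pos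
  have hlb := h'.lam_pos
  have hla1 := h.lam_lt
  have hlb1 := h'.lam_lt
  have hLp := H.ok.L_pos
  have hL2 := H.ok.L_le
  have hp0 := hp.1
  have hp1 := hp.2
  have hd := H.d_nonneg
  have hE0 := H.E_nonneg
  have hD0 := H.D_nonneg
  have hHp := H.ok.H_pos
  have hra := H.hra
  have hra1 := H.ok.ra_ge
  have hr := h.r_pos
  have hpI : p ∈ Icc (0:ℝ) 1 := ⟨hp0.le, hp1⟩
  rw [gd_log h hpI, gd_log h' hpI]
  obtain ⟨D1, D2, m1, m2⟩ := Delta_bounds h h' hab hL le_rfl H.hD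
  set δ := Real.log lb - Real.log la with hδ
  set t := lb * p with ht
  have ht0 : 0 < t := mul_pos hlb hp0
  have htL : t ≤ B.L := by
    have : t ≤ lb := by rw [ht]; exact mul_le_self_of hlb hp1
    linarith
  set q := 1 - la * p with hq
  set q' := 1 - t with hq'
  have hq'0 : 0 < q' := by rw [hq']; linarith
  have hq'1 : q' < 1 := by rw [hq']; linarith
  have hq'm : q' ∈ Ioo (0:ℝ) 1 := ⟨hq'0, hq'1⟩
  have hV := h.V_mem hq'm
  have hW := h'.V_mem hq'm
  have h1L : 0 < 1 - B.L := by linarith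
  have hq'L : 1 - B.L ≤ q' := by rw [hq']; linarith
  have hEt : E * t ≤ E * B.L := mul_le_mul_of_nonneg_left htL hE0
  have hEt0 : 0 ≤ E * t := by positivity
  have hDd : 0 ≤ D * δ := by positivity
  -- P E ≤ 1/(4H) E
  have hP : q' * t / B.H * E ≤ 1 / (4 * B.H) * E := by
    apply mul_le_mul_of_nonneg_right _ hE0
    rw [div_le_div_iff₀ hHp (by positivity)]
    have hqt : q' * t ≤ 1 / 4 := by rw [hq']; exact quarter
    have := mul_le_mul_of_nonneg_right hqt (by linarith : 0 ≤ 4 * B.H)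
    linarith
  have ha2 := abs_le.mp (a2.trans hP)
  have e0 : δ * (1 / q' + B.L * (B.nm / 2)) ≤ δ * (1 / (1 - B.L) + B.L * (B.nm / 2)) := by
    apply mul_le_mul_of_nonneg_left _ hd
    have : 1 / q' ≤ 1 / (1 - B.L) := one_div_le_one_div_of_le h1L hq'L
    linarith
  have hir : 1 / r ≤ 1 / B.ra := one_div_le_one_div_of_le (by linarith) hra
  have hir0 : 0 < 1 / r := by positivity
  have hW1 : 0 ≤ 1 - W q' := by linarith [hW.2]
  have hV1 : 0 ≤ 1 - V q' := by linarith [hV.2]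
  have hE1 : 0 ≤ E * B.L := by positivity
  -- upper
  have up : A0 + A1 + A2 - (Real.log (1 + lb) - Real.log (1 + la)) + 1 / r * (A3 + A4)
      ≤ tg * δ + (B.L * (1 + 1 / B.ra) + 1 / (4 * B.H)) * E := by
    have e1 : A1 ≤ D * δ + E * B.L := by
      refine a1'.trans ?_
      calc V q' * (D * δ + E * t) ≤ 1 * (D * δ + E * t) :=
            mul_le_mul_of_nonneg_right hV.2.le (by linarith)
        _ ≤ _ := by linarith
    have e2 : 1 / r * (A3 + A4) ≤ 1 / B.ra * (E * B.L) := by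
      have f1 : A3 ≤ E * B.L := by
        refine a3'.trans ?_
        calc (1 - V q') * (E * t) ≤ 1 * (E * t) :=
              mul_le_mul_of_nonneg_right (by linarith [hV.1]) hEt0
          _ ≤ _ := by linarith
      calc 1 / r * (A3 + A4) ≤ 1 / r * (E * B.L) :=
            mul_le_mul_of_nonneg_left (by linarith) hir0.le
        _ ≤ _ := mul_le_mul_of_nonneg_right hir hE1
    have e3 := mul_le_mul_of_nonneg_right ht1 hd
    linarith [ha2.2]
  have lo : -(tg * δ + (B.L * (1 + 1 / B.ra) + 1 / (4 * B.H)) * E) ≤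
      A0 + A1 + A2 - (Real.log (1 + lb) - Real.log (1 + la)) + 1 / r * (A3 + A4) := by
    have e1 : -(E * B.L) ≤ A1 := by
      refine le_trans ?_ a1
      have : W q' * (E * t) ≤ 1 * (E * t) := mul_le_mul_of_nonneg_right hW.2.le hEt0
      linarith
    have e2 : -(1 / B.ra * ((D * δ + E * B.L) + B.xi * (B.L * δ))) ≤ 1 / r * (A3 + A4) := by
      have f1 : -(D * δ + E * B.L) ≤ A3 := by
        refine le_trans ?_ a3
        have : (1 - W q') * (D * δ + E * t) ≤ 1 * (D * δ + E * t) :=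
          mul_le_mul_of_nonneg_right (by linarith [hW.1]) (by linarith)
        linarith
      have f2 : 0 ≤ (D * δ + E * B.L) + B.xi * (B.L * δ) := by
        have := H.ok.xi_pos
        positivity
      have f3 : 1 / r * (-((D * δ + E * B.L) + B.xi * (B.L * δ))) ≤ 1 / r * (A3 + A4) :=
        mul_le_mul_of_nonneg_left (by linarith) hir0.le
      have f4 := mul_le_mul_of_nonneg_right hir f2
      linarith
    have e3 := mul_le_mul_of_nonneg_right ht2 hd
    have e4 : (B.L / (1 + B.L) + (D + B.xi * B.L) / B.ra) * δ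
        = B.L / (1 + B.L) * δ + 1 / B.ra * (D * δ + B.xi * (B.L * δ)) := by ring
    rw [e4] at e3
    linarith [ha2.1]
  have key : (Real.log (lb * Yf W W1 q') - Real.log r - Real.log (1 + lb)
      + 1 / r * Real.log (W q')) - (Real.log (la * Yf V V1 q) - Real.log r - Real.log (1 + la)
      + 1 / r * Real.log (V q))
      = A0 + A1 + A2 - (Real.log (1 + lb) - Real.log (1 + la)) + 1 / r * (A3 + A4) := by
    rw [← hX, ← hVV]; ring
  rw [key, abs_le]
  exact ⟨lo, up⟩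

/-- difference of `g`. -/
lemma gdiff (H : PairH B r la lb E D V V1 N N1 N2 W W1 M M1 M2) {Gd : ℝ}
    (ht1 : (D + B.xi * B.L) / B.ra ≤ Gd) (ht2 : B.L ≤ Gd)
    {p : ℝ} (hp : p ∈ Ioc (0:ℝ) 1) :
    |gm r la V p - gm r lb W p|
      ≤ Gd * (Real.log lb - Real.log la) + lb / B.ra * E := by
  obtain ⟨A0, A1, A2, A3, A4, hX, hVV, a0, a0', a1, a1', a2, a3, a3', a4, a4'⟩ := H.pieces hp
  have h := H.h
  have h' := H.h'
  have hab := H.hab
  have hL := H.hL
  have hla := h.lam_pos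
  have hlb := h'.lam_pos
  have hla1 := h.lam_lt
  have hlb1 := h'.lam_lt
  have hLp := H.ok.L_pos
  have hL2 := H.ok.L_le
  have hp0 := hp.1
  have hp1 := hp.2
  have hd := H.d_nonneg
  have hE0 := H.E_nonneg
  have hD0 := H.D_nonneg
  have hHp := H.ok.H_pos
  have hra := H.hra
  have hra1 := H.ok.ra_ge
  have hr := h.r_pos
  have hpI : p ∈ Icc (0:ℝ) 1 := ⟨hp0.le, hp1⟩
  have hxa := h.x_mem (h.q_mem (h.mem_b hpI))
  have hxb := h'.x_mem (h'.q_mem (h'.mem_b hpI))
  have hVq := h.V_pos (h.q_mem (h.mem_b hpI))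
  have hWq := h'.V_pos (h'.q_mem (h'.mem_b hpI))
  have hdl := lam_diff_le hla hlb
  unfold gm
  have hlog : Real.log (W (1 - lb * p) ^ (1 / r)) - Real.log (V (1 - la * p) ^ (1 / r))
      = 1 / r * (A3 + A4) := by
    rw [Real.log_rpow hVq, Real.log_rpow hWq, ← hVV]; ring
  set xa := V (1 - la * p) ^ (1 / r) with hxad
  set xb := W (1 - lb * p) ^ (1 / r) with hxbd
  set δ := Real.log lb - Real.log la with hδ
  set t := lb * p with ht
  have ht0 : 0 < t := mul_pos hlb hp0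
  have htl : t ≤ lb := by rw [ht]; exact mul_le_self_of hlb hp1
  have htL : t ≤ B.L := htl.trans hL
  set q' := 1 - t with hq'
  have hq'0 : 0 < q' := by rw [hq']; linarith
  have hq'1 : q' < 1 := by rw [hq']; linarith
  have hq'm : q' ∈ Ioo (0:ℝ) 1 := ⟨hq'0, hq'1⟩
  have hV := h.V_mem hq'm
  have hW := h'.V_mem hq'm
  have hEt : E * t ≤ E * lb := mul_le_mul_of_nonneg_left htl hE0
  have hEt0 : 0 ≤ E * t := by positivity
  have hDd : 0 ≤ D * δ := by positivity
  have hir : 1 / r ≤ 1 / B.ra := one_div_le_one_div_of_le (by linarith) hra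
  have hir0 : 0 < 1 / r := by positivity
  have hE1 : 0 ≤ E * lb := by positivity
  have hxi := H.ok.xi_pos
  -- x_b - x_a ≤ E lb / ra
  have u1 : xb - xa ≤ 1 / B.ra * (E * lb) := by
    apply sub_le_log hxb.1 hxa.1 hxb.2 (by positivity)
    rw [hlog]
    have f1 : A3 ≤ E * lb := by
      refine a3'.trans ?_
      calc (1 - V q') * (E * t) ≤ 1 * (E * t) :=
            mul_le_mul_of_nonneg_right (by linarith [hV.1]) hEt0
        _ ≤ _ := by linarith
    calc 1 / r * (A3 + A4) ≤ 1 / r * (E * lb) :=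
          mul_le_mul_of_nonneg_left (by linarith) hir0.le
      _ ≤ _ := mul_le_mul_of_nonneg_right hir hE1
  have u2 : xa - xb ≤ 1 / B.ra * ((D * δ + E * lb) + B.xi * (B.L * δ)) := by
    apply sub_le_log hxa.1 hxb.1 hxa.2 (by positivity)
    have : Real.log xa - Real.log xb = -(1 / r * (A3 + A4)) := by rw [← hlog]; ring
    rw [this]
    have f1 : -(D * δ + E * lb) ≤ A3 := by
      refine le_trans ?_ a3
      have : (1 - W q') * (D * δ + E * t) ≤ 1 * (D * δ + E * t) :=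
        mul_le_mul_of_nonneg_right (by linarith [hW.1]) (by linarith)
      linarith
    have f2 : 0 ≤ (D * δ + E * lb) + B.xi * (B.L * δ) := by
      positivity
    have f3 : 1 / r * (-((D * δ + E * lb) + B.xi * (B.L * δ))) ≤ 1 / r * (A3 + A4) :=
      mul_le_mul_of_nonneg_left (by linarith) hir0.le
    have f4 := mul_le_mul_of_nonneg_right hir f2
    linarith
  have w1 : 1 / B.ra * (E * lb) ≤ lb / B.ra * E := by
    apply le_of_eq; ring
  have w2 : 1 / B.ra * ((D * δ + E * lb) + B.xi * (B.L * δ)) ≤ Gd * δ + lb / B.ra * E := by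
    have := mul_le_mul_of_nonneg_right ht1 hd
    have e : (D + B.xi * B.L) / B.ra * δ + lb / B.ra * E
        = 1 / B.ra * ((D * δ + E * lb) + B.xi * (B.L * δ)) := by ring
    linarith
  have hGd : 0 ≤ Gd * δ := mul_nonneg (by linarith) hd
  have hlE : 0 ≤ lb / B.ra * E := by positivity
  rw [abs_le]
  constructor
  · -- g_b - g_a ≤ ...
    have e1 : (1 - xb) / (1 + lb) ≤ (1 - xb) / (1 + la) :=
      div_le_div_of_nonneg_left (by linarith [hxb.2]) (by linarith) (by linarith)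
    have e2 : (1 - xb) / (1 + la) - (1 - xa) / (1 + la) = (xa - xb) / (1 + la) := by ring
    have e3 : (xa - xb) / (1 + la) ≤ Gd * δ + lb / B.ra * E := by
      rw [div_le_iff₀ (by linarith)]
      have f := u2.trans w2
      have : Gd * δ + lb / B.ra * E ≤ (Gd * δ + lb / B.ra * E) * (1 + la) := by
        have : 0 ≤ (Gd * δ + lb / B.ra * E) * la := by positivity
        linarith
      linarith
    linarith
  · -- g_a - g_b ≤ ...
    have e1 : (1 - xa) / (1 + la) - (1 - xa) / (1 + lb) ≤ B.L * δ := by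
      have e : (1 - xa) / (1 + la) - (1 - xa) / (1 + lb)
          = (1 - xa) * (lb - la) / ((1 + la) * (1 + lb)) := by field_simp; ring
      rw [e, div_le_iff₀ (by positivity)]
      have f1 : (1 - xa) * (lb - la) ≤ 1 * (lb * δ) :=
        mul_le_mul (by linarith [hxa.1]) hdl (by linarith) zero_le_one
      have f2 : lb * δ ≤ B.L * δ := mul_le_mul_of_nonneg_right hL hd
      have f3 : B.L * δ ≤ B.L * δ * ((1 + la) * (1 + lb)) :=
        le_mul_prod (mul_nonneg hLp.le hd) hla hlb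
      linarith
    have e2 : (1 - xa) / (1 + lb) - (1 - xb) / (1 + lb) = (xb - xa) / (1 + lb) := by ring
    have e3 : (xb - xa) / (1 + lb) ≤ lb / B.ra * E := by
      rw [div_le_iff₀ (by linarith)]
      have f := u1.trans w1
      have : 0 ≤ lb / B.ra * E * lb := by positivity
      linarith
    have e4 := mul_le_mul_of_nonneg_right ht2 hd
    linarith

end PairH

end Pool.Agent.Feig
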