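import Pool.Agent.Feig.Pair4

/-!
# Two solutions: the Schwarzian difference is controlled by `log (lb/la)`
-/

open Set Filter Topology

noncomputable section

namespace Pool.Agent.Feig

/-- extra numerical parameters for the comparison of two solutions -/
structure Bx2 where
  (rb D e6 tg Gd T T' C : ℝ)

structure Bx2.Ok (B : Bx) (P : Bx2) : Prop where
  D_ge : P.rb - 1 + B.L / (1 + B.L) ≤ P.D
  nuL : B.L * B.nu ≤ 1
  a1 : 1 ≤ 32 / 25 * B.H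
  a2 : 32 / 25 * B.H ≤ 2
  b1 : B.vm * B.H ^ 2 ≤ 1
  prod : (1 - B.vm * B.H ^ 2) + 2 * (32 / 25 * B.H - 1) * (1 - B.vm * B.H ^ 2) * B.L
      + (32 / 25 * B.H - 1) ^ 2 * (1 - B.vm * B.H ^ 2) * B.L ^ 2 ≤ 2 * (32 / 25 * B.H - 1)
  e6_ge : 1 ≤ P.e6 * (6 * B.H * B.H)
  tg1 : 1 / (1 - B.L) + B.L * (B.nm / 2) + P.D ≤ P.tg
  tg2 : B.L / (1 + B.L) + (P.D + B.xi * B.L) / B.ra ≤ P.tg
  Gd1 : (P.D + B.xi * B.L) / B.ra ≤ P.Gd
  Gd2 : B.L ≤ P.Gd
  T_ge : 2 * B.L ^ 2 * B.s + B.L ^ 3 * B.rho + 2 * B.G * B.s * P.tg + B.G * B.rho * P.Gd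
      + 2 * (B.xi ^ 2 * (1 / (1 - B.L) + B.L * (B.nm / 2)) + (32 / 25) ^ 2 / (1 - B.L) * P.D) ≤ P.T
  T'_ge : 2 * ((32 / 25) ^ 2 * (B.L / (1 - B.L)) * (1 + 1 / B.H))
      + 2 * B.G * B.s * (B.L * (1 + 1 / B.ra) + 1 / (4 * B.H)) + B.G * B.rho * (B.L / B.ra) ≤ P.T'
  T'_nn : 0 ≤ P.T'
  den : P.T ≤ P.C * (1 - B.L ^ 2 - B.G - B.cm * B.L ^ 2 * P.e6 * P.T')
  den_pos : 0 < 1 - B.L ^ 2 - B.G - B.cm * B.L ^ 2 * P.e6 * P.T'
  C_nn : 0 ≤ P.C

namespace PairH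

variable {B : Bx} {r la lb E D : ℝ} {V V1 N N1 N2 W W1 M M1 M2 : ℝ → ℝ}

/-- `S` shift. -/
lemma S_shift {lam : ℝ} {V V1 N N1 N2 : ℝ → ℝ} (h : FV r lam V V1 N N1 N2) {K : ℝ}
    (hK : ∀ p ∈ Icc (0:ℝ) 1, |Sch1 N N1 N2 p| ≤ K) {a b : ℝ} (ha : a ∈ Icc (0:ℝ) 1)
    (hb : b ∈ Icc (0:ℝ) 1) : |Sch N N1 a - Sch N N1 b| ≤ K * |a - b| := by
  have key : ∀ a b : ℝ, a ∈ Icc (0:ℝ) 1 → b ∈ Icc (0:ℝ) 1 → a ≤ b →
      |Sch N N1 b - Sch N N1 a| ≤ K * (b - a) := fun a b ha hb hab =>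
    abs_sub_le_mul hab (fun x hx => h.dSch ⟨ha.1.trans hx.1, hx.2.trans hb.2⟩)
      (fun x hx => hK x ⟨ha.1.trans hx.1, hx.2.trans hb.2⟩)
  rcases le_total a b with hab | hab
  · rw [abs_sub_comm, abs_sub_comm a b, abs_of_nonneg (by linarith : 0 ≤ b - a)]
    exact key a b ha hb hab
  · rw [abs_of_nonneg (by linarith : 0 ≤ a - b)]
    exact key b a hb ha hab

lemma T1 (H : PairH B r la lb E D V V1 N N1 N2 W W1 M M1 M2) {σ : ℝ}
    (hσ : ∀ p ∈ Icc (0:ℝ) 1, |Sch N N1 p - Sch M M1 p| ≤ σ) {p : ℝ} (hp : p ∈ Icc (0:ℝ) 1) :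
    |la ^ 2 * Sch N N1 (1 - la * p) - lb ^ 2 * Sch M M1 (1 - lb * p)|
      ≤ B.L ^ 2 * σ + cc r * lb ^ 2 * ((2 * B.L ^ 2 * B.s + B.L ^ 3 * B.rho)
        * (Real.log lb - Real.log la)) := by
  have h := H.h
  have h' := H.h'
  have hab := H.hab
  have hL := H.hL
  have hla := h.lam_pos
  have hlb := h'.lam_pos
  have hla1 := h.lam_lt
  have hlb1 := h'.lam_lt
  have hLp := H.ok.L_pos
  have hd := H.d_nonneg
  have hc := h.cc_pos
  have hdl := lam_diff_le hla hlb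
  set δ := Real.log lb - Real.log la with hδ
  have hq := h.q_mem1' hp
  have hq' := h'.q_mem1' hp
  have hs := H.ok.s_nn
  have hrho := H.ok.rho_nn
  have hσ0 : 0 ≤ σ := (abs_nonneg _).trans (hσ p hp)
  have e : la ^ 2 * Sch N N1 (1 - la * p) - lb ^ 2 * Sch M M1 (1 - lb * p)
      = lb ^ 2 * (Sch N N1 (1 - lb * p) - Sch M M1 (1 - lb * p))
        + (la ^ 2 - lb ^ 2) * Sch N N1 (1 - lb * p)
        + la ^ 2 * (Sch N N1 (1 - la * p) - Sch N N1 (1 - lb * p)) := by ring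
  have hlbL2 : lb ^ 2 ≤ B.L ^ 2 := pow_le_pow_left₀ hlb.le hL 2
  have hab2 : la ^ 2 ≤ lb ^ 2 := pow_le_pow_left₀ hla.le hab 2
  have t1 : |lb ^ 2 * (Sch N N1 (1 - lb * p) - Sch M M1 (1 - lb * p))| ≤ B.L ^ 2 * σ := by
    rw [abs_mul, abs_of_pos (by positivity : 0 < lb ^ 2)]
    exact mul_le_mul hlbL2 (hσ _ hq') (abs_nonneg _) (by positivity)
  have hlL : lb * δ ≤ B.L * δ := mul_le_mul_of_nonneg_right hL hd
  have t2 : |(la ^ 2 - lb ^ 2) * Sch N N1 (1 - lb * p)|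
      ≤ cc r * lb ^ 2 * (2 * B.L ^ 2 * B.s * δ) := by
    have hS0 := h.Sch_nonneg hq'
    have hS := H.s.S_le _ hq'
    rw [abs_mul, abs_of_nonneg hS0, abs_sub_comm, abs_of_nonneg (by linarith)]
    have f1 : lb ^ 2 - la ^ 2 ≤ 2 * B.L ^ 2 * δ := by
      calc lb ^ 2 - la ^ 2 = (lb - la) * (lb + la) := by ring
        _ ≤ (B.L * δ) * (2 * B.L) :=
            mul_le_mul (hdl.trans hlL) (by linarith) (by linarith) (by positivity)
        _ = _ := by ring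
    have f2 : Sch N N1 (1 - lb * p) ≤ B.s * cc r * lb ^ 2 :=
      hS.trans (mul_le_mul_of_nonneg_left hab2 (by positivity))
    calc (lb ^ 2 - la ^ 2) * Sch N N1 (1 - lb * p) ≤ (2 * B.L ^ 2 * δ) * (B.s * cc r * lb ^ 2) :=
          mul_le_mul f1 f2 hS0 (by positivity)
      _ = _ := by ring
  have t3 : |la ^ 2 * (Sch N N1 (1 - la * p) - Sch N N1 (1 - lb * p))|
      ≤ cc r * lb ^ 2 * (B.L ^ 3 * B.rho * δ) := by
    rw [abs_mul, abs_of_pos (by positivity : 0 < la ^ 2)]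
    have f1 := S_shift h H.s.S1_le hq hq'
    have f2 : |1 - la * p - (1 - lb * p)| ≤ B.L * δ := by
      have : 1 - la * p - (1 - lb * p) = (lb - la) * p := by ring
      rw [this, abs_of_nonneg (mul_nonneg (by linarith) hp.1)]
      calc (lb - la) * p ≤ (lb - la) * 1 := mul_le_mul_of_nonneg_left hp.2 (by linarith)
        _ ≤ B.L * δ := by linarith
    have hlaL2 : la ^ 2 ≤ B.L ^ 2 := hab2.trans hlbL2
    calc la ^ 2 * |Sch N N1 (1 - la * p) - Sch N N1 (1 - lb * p)|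
        ≤ B.L ^ 2 * (B.rho * cc r * lb ^ 2 * (B.L * δ)) := by
          apply mul_le_mul hlaL2 _ (abs_nonneg _) (by positivity)
          refine f1.trans ?_
          apply mul_le_mul _ f2 (abs_nonneg _) (by positivity)
          exact mul_le_mul_of_nonneg_left hab2 (by positivity)
      _ = _ := by ring
  rw [e]
  calc _ ≤ B.L ^ 2 * σ + cc r * lb ^ 2 * (2 * B.L ^ 2 * B.s * δ)
        + cc r * lb ^ 2 * (B.L ^ 3 * B.rho * δ) :=
        (abs_add_le _ _).trans (add_le_add ((abs_add_le _ _).trans (add_le_add t1 t2)) t3)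
    _ = _ := by ring

lemma T2 (H : PairH B r la lb E D V V1 N N1 N2 W W1 M M1 M2) {σ : ℝ}
    (hσ : ∀ p ∈ Icc (0:ℝ) 1, |Sch N N1 p - Sch M M1 p| ≤ σ) {tg Gd : ℝ}
    (ht1 : 1 / (1 - B.L) + B.L * (B.nm / 2) + D ≤ tg)
    (ht2 : B.L / (1 + B.L) + (D + B.xi * B.L) / B.ra ≤ tg)
    (hg1 : (D + B.xi * B.L) / B.ra ≤ Gd) (hg2 : B.L ≤ Gd)
    {p : ℝ} (hp : p ∈ Ioc (0:ℝ) 1) :
    |gd r la V V1 p ^ 2 * Sch N N1 (gm r la V p) - gd r lb W W1 p ^ 2 * Sch M M1 (gm r lb W p)|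
      ≤ B.G * σ + cc r * lb ^ 2 * ((2 * B.G * B.s * tg + B.G * B.rho * Gd)
        * (Real.log lb - Real.log la)
        + (2 * B.G * B.s * (B.L * (1 + 1 / B.ra) + 1 / (4 * B.H)) + B.G * B.rho * (B.L / B.ra)) * E)
      := by
  have hG1 := H.Gdiff ht1 ht2 hp
  have hG2 := H.gdiff hg1 hg2 hp
  have h := H.h
  have h' := H.h'
  have hab := H.hab
  have hL := H.hL
  have hla := h.lam_pos
  have hlb := h'.lam_pos
  have hLp := H.ok.L_pos
  have hd := H.d_nonneg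
  have hE0 := H.E_nonneg
  have hc := h.cc_pos
  have hra1 := H.ok.ra_ge
  set δ := Real.log lb - Real.log la with hδ
  have hpI : p ∈ Icc (0:ℝ) 1 := ⟨hp.1.le, hp.2⟩
  have hga := h.g_mem' (h.mem_b hpI)
  have hgb := h'.g_mem' (h'.mem_b hpI)
  have hs := H.ok.s_nn
  have hrho := H.ok.rho_nn
  have hσ0 : 0 ≤ σ := (abs_nonneg _).trans (hσ p hpI)
  have hab2 : la ^ 2 ≤ lb ^ 2 := pow_le_pow_left₀ hla.le hab 2
  have hGa := H.s.gd_sq p hpI
  have hGb := H.s'.gd_sq p hpI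
  have hGnn : 0 ≤ B.G := (sq_nonneg _).trans hGa
  have e : gd r la V V1 p ^ 2 * Sch N N1 (gm r la V p) - gd r lb W W1 p ^ 2 * Sch M M1 (gm r lb W p)
      = gd r la V V1 p ^ 2 * (Sch N N1 (gm r la V p) - Sch M M1 (gm r la V p))
        + gd r la V V1 p ^ 2 * (Sch M M1 (gm r la V p) - Sch M M1 (gm r lb W p))
        + (gd r la V V1 p ^ 2 - gd r lb W W1 p ^ 2) * Sch M M1 (gm r lb W p) := by ring
  have t1 : |gd r la V V1 p ^ 2 * (Sch N N1 (gm r la V p) - Sch M M1 (gm r la V p))|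
      ≤ B.G * σ := by
    rw [abs_mul, abs_of_nonneg (sq_nonneg (gd r la V V1 p))]
    exact mul_le_mul hGa (hσ _ hga) (abs_nonneg _) hGnn
  have t2 : |gd r la V V1 p ^ 2 * (Sch M M1 (gm r la V p) - Sch M M1 (gm r lb W p))|
      ≤ cc r * lb ^ 2 * (B.G * B.rho * (Gd * δ + B.L / B.ra * E)) := by
    rw [abs_mul, abs_of_nonneg (sq_nonneg (gd r la V V1 p))]
    have f1 := S_shift h' H.s'.S1_le hga hgb
    have f2 : |gm r la V p - gm r lb W p| ≤ Gd * δ + B.L / B.ra * E := by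
      refine hG2.trans ?_
      have : lb / B.ra * E ≤ B.L / B.ra * E := by
        apply mul_le_mul_of_nonneg_right _ hE0
        exact div_le_div_of_nonneg_right hL (by linarith)
      linarith
    calc gd r la V V1 p ^ 2 * |Sch M M1 (gm r la V p) - Sch M M1 (gm r lb W p)|
        ≤ B.G * (B.rho * cc r * lb ^ 2 * (Gd * δ + B.L / B.ra * E)) := by
          apply mul_le_mul hGa _ (abs_nonneg _) hGnn
          refine f1.trans ?_
          exact mul_le_mul_of_nonneg_left f2 (by positivity)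
      _ = _ := by ring
  have t3 : |(gd r la V V1 p ^ 2 - gd r lb W W1 p ^ 2) * Sch M M1 (gm r lb W p)|
      ≤ cc r * lb ^ 2 * (2 * B.G * B.s * (tg * δ + (B.L * (1 + 1 / B.ra) + 1 / (4 * B.H)) * E)) := by
    have hS0 := h'.Sch_nonneg hgb
    have hS := H.s'.S_le _ hgb
    have hsq := sq_diff_log (h.gd_pos (h.mem_b hpI)) (h'.gd_pos (h'.mem_b hpI)) hGa hGb
    rw [abs_sub_comm (Real.log (gd r la V V1 p))] at hsq
    rw [abs_mul, abs_of_nonneg hS0]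
    calc |gd r la V V1 p ^ 2 - gd r lb W W1 p ^ 2| * Sch M M1 (gm r lb W p)
        ≤ (2 * B.G * (tg * δ + (B.L * (1 + 1 / B.ra) + 1 / (4 * B.H)) * E))
          * (B.s * cc r * lb ^ 2) := by
          have f0 : 2 * B.G * |Real.log (gd r lb W W1 p) - Real.log (gd r la V V1 p)|
              ≤ 2 * B.G * (tg * δ + (B.L * (1 + 1 / B.ra) + 1 / (4 * B.H)) * E) :=
            mul_le_mul_of_nonneg_left hG1 (by positivity)
          exact mul_le_mul (hsq.trans f0) hS hS0 ((abs_nonneg _).trans (hsq.trans f0))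
      _ = _ := by ring
  rw [e]
  calc _ ≤ B.G * σ + cc r * lb ^ 2 * (B.G * B.rho * (Gd * δ + B.L / B.ra * E))
        + cc r * lb ^ 2 * (2 * B.G * B.s * (tg * δ + (B.L * (1 + 1 / B.ra) + 1 / (4 * B.H)) * E)) :=
        (abs_add_le _ _).trans (add_le_add ((abs_add_le _ _).trans (add_le_add t1 t2)) t3)
    _ = _ := by ring

lemma total (H : PairH B r la lb E D V V1 N N1 N2 W W1 M M1 M2) {P : Bx2} (hP : P.Ok B)
    (hPD : P.D = D) {σ : ℝ}
    (hσ : ∀ p ∈ Icc (0:ℝ) 1, |Sch N N1 p - Sch M M1 p| ≤ σ)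
    {p : ℝ} (hp : p ∈ Ioc (0:ℝ) 1) :
    |Sch N N1 p - Sch M M1 p| ≤ (B.L ^ 2 + B.G) * σ
      + cc r * lb ^ 2 * (P.T * (Real.log lb - Real.log la) + P.T' * E) := by
  subst hPD
  have hpI : p ∈ Icc (0:ℝ) 1 := ⟨hp.1.le, hp.2⟩
  have t1 := H.T1 hσ hpI
  have t2 := H.T2 hσ hP.tg1 hP.tg2 hP.Gd1 hP.Gd2 hp
  have t3 := H.T3 hP.a1 hP.a2 hP.b1 hP.prod hp
  have hd := H.d_nonneg
  have hE0 := H.E_nonneg
  have hc := H.h.cc_pos
  have hlb := H.h'.lam_pos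
  rw [H.h.Sch_eq hpI, H.h'.Sch_eq hpI]
  set δ := Real.log lb - Real.log la with hδ
  have e : ∀ a b c a' b' c' : ℝ, a + b + c - (a' + b' + c') = (a - a') + (b - b') + (c - c') := by
    intros; ring
  rw [e]
  have f1 := mul_le_mul_of_nonneg_right hP.T_ge hd
  have f2 := mul_le_mul_of_nonneg_right hP.T'_ge hE0
  have f3 : 0 ≤ cc r * lb ^ 2 := by positivity
  have f4 := mul_le_mul_of_nonneg_left (add_le_add f1 f2) f3
  refine (abs_add_le _ _).trans ((add_le_add ((abs_add_le _ _).trans (add_le_add t1 t2)) t3).trans ?_)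
  linarith

/-- extension to `p = 0` by continuity. -/
lemma total' (H : PairH B r la lb E D V V1 N N1 N2 W W1 M M1 M2) {P : Bx2} (hP : P.Ok B)
    (hPD : P.D = D) {σ : ℝ}
    (hσ : ∀ p ∈ Icc (0:ℝ) 1, |Sch N N1 p - Sch M M1 p| ≤ σ)
    {p : ℝ} (hp : p ∈ Icc (0:ℝ) 1) :
    |Sch N N1 p - Sch M M1 p| ≤ (B.L ^ 2 + B.G) * σ
      + cc r * lb ^ 2 * (P.T * (Real.log lb - Real.log la) + P.T' * E) := by
  rcases hp.1.eq_or_lt with h0 | h0
  · rw [← h0]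
    have hc : ContinuousWithinAt (fun x => |Sch N N1 x - Sch M M1 x|) (Ioc 0 1) 0 :=
      (((H.h.contSch.sub H.h'.contSch).abs) 0 FV.zero_mem).mono Ioc_subset_Icc_self
    have hne : (𝓝[Ioc (0:ℝ) 1] 0).NeBot := by
      rw [← mem_closure_iff_nhdsWithin_neBot, closure_Ioc zero_ne_one]
      exact FV.zero_mem
    exact le_of_tendsto hc (by
      filter_upwards [self_mem_nhdsWithin] with x hx
      exact H.total hP hPD hσ hx)
  · exact H.total hP hPD hσ ⟨h0, hp.2⟩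

end PairH

end Pool.Agent.Feig
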