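import Pool.Agent.Feig.Pair5

/-!
# Two solutions coincide (box version)
-/

open Set Filter Topology

noncomputable section

namespace Pool.Agent.Feig

/-- `C`-bound of the sup of the Schwarzian difference. -/
lemma sup_bound {B : Bx} {r la lb : ℝ} {V V1 N N1 N2 W W1 M M1 M2 : ℝ → ℝ} {P : Bx2}
    (h : FV r la V V1 N N1 N2) (h' : FV r lb W W1 M M1 M2) (s : Sing B r la V V1 N N1 N2)
    (s' : Sing B r lb W W1 M M1 M2) (ok : B.Ok) (hP : P.Ok B) (hra : B.ra ≤ r) (hrb : r ≤ P.rb)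
    (hcm : cc r ≤ B.cm) (hab : la ≤ lb) (hL : lb ≤ B.L) :
    ∃ σ : ℝ, 0 ≤ σ ∧ σ ≤ P.C * cc r * lb ^ 2 * (Real.log lb - Real.log la) ∧
      PairH B r la lb (σ * P.e6) P.D V V1 N N1 N2 W W1 M M1 M2 := by
  have hcont : ContinuousOn (fun x => |Sch N N1 x - Sch M M1 x|) (Icc 0 1) :=
    (h.contSch.sub h'.contSch).abs
  obtain ⟨m, hm, hmax⟩ := isCompact_Icc.exists_isMaxOn (nonempty_Icc.mpr zero_le_one) hcont
  set σ := |Sch N N1 m - Sch M M1 m| with hσd
  have hσ : ∀ p ∈ Icc (0:ℝ) 1, |Sch N N1 p - Sch M M1 p| ≤ σ := fun p hp => hmax hp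
  have hσ0 : 0 ≤ σ := abs_nonneg _
  have hH := ok.H_pos
  have he6 : 0 < P.e6 := by
    have := hP.e6_ge
    by_contra hc
    push Not at hc
    have : P.e6 * (6 * B.H * B.H) ≤ 0 := mul_nonpos_of_nonpos_of_nonneg hc (by positivity)
    linarith
  have hPH : PairH B r la lb (σ * P.e6) P.D V V1 N N1 N2 W W1 M M1 M2 := by
    refine ⟨h, h', s, s', ok, hra, hab, hL, ?_, hP.nuL, ?_⟩
    · have := hP.D_ge
      linarith
    · intro p hp
      have hd := KJ.diff s.kj s'.kj hσ hp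
      have hpI := Ioo_subset_Icc_self hp
      rw [h.kj_eq hpI, h'.kj_eq hpI, one_div_div, one_div_div] at hd
      refine hd.trans ?_
      rw [div_le_iff₀ (by positivity)]
      have := mul_le_mul_of_nonneg_left hP.e6_ge hσ0
      linarith
  refine ⟨σ, hσ0, ?_, hPH⟩
  have ht := hPH.total' hP rfl hσ hm
  have hd := hPH.d_nonneg
  have hc := h.cc_pos
  have hlb := h'.lam_pos
  rw [← hσd] at ht
  set δ := Real.log lb - Real.log la with hδ
  have hT'0 := hP.T'_nn
  have hlb2 : lb ^ 2 ≤ B.L ^ 2 := pow_le_pow_left₀ hlb.le hL 2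
  have e1 : cc r * lb ^ 2 * (P.T' * (σ * P.e6)) ≤ B.cm * B.L ^ 2 * P.e6 * P.T' * σ := by
    calc cc r * lb ^ 2 * (P.T' * (σ * P.e6)) ≤ B.cm * B.L ^ 2 * (P.T' * (σ * P.e6)) := by
          have := ok.cm_nn
          gcongr
      _ = _ := by ring
  have e2 : σ * (1 - B.L ^ 2 - B.G - B.cm * B.L ^ 2 * P.e6 * P.T')
      ≤ cc r * lb ^ 2 * (P.T * δ) := by linarith
  have e3 : cc r * lb ^ 2 * (P.T * δ) ≤ cc r * lb ^ 2 * (P.C *
      (1 - B.L ^ 2 - B.G - B.cm * B.L ^ 2 * P.e6 * P.T') * δ) := by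
    have := mul_le_mul_of_nonneg_right hP.den hd
    exact mul_le_mul_of_nonneg_left this (by positivity)
  have e4 : σ * (1 - B.L ^ 2 - B.G - B.cm * B.L ^ 2 * P.e6 * P.T')
      ≤ (P.C * cc r * lb ^ 2 * δ) * (1 - B.L ^ 2 - B.G - B.cm * B.L ^ 2 * P.e6 * P.T') := by
    linarith
  exact le_of_mul_le_mul_right e4 hP.den_pos

/-- (M1) -/
lemma M1_aux {r x y : ℝ} (hr : 1 < r) (hx : 0 < x) (hxy : x ≤ y) (hy : y < 1) :
    (r - 1) * Real.log x + Real.log (1 - x) - Real.log (1 - x ^ r)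
      ≤ (r - 1) * Real.log y + Real.log (1 - y) - Real.log (1 - y ^ r) := by
  have hy0 : 0 < y := hx.trans_le hxy
  have hx1 : x < 1 := lt_of_le_of_lt hxy hy
  have key : ∀ z : ℝ, 0 < z → z < 1 → (r - 1) * Real.log z + Real.log (1 - z) - Real.log (1 - z ^ r)
      = - Real.log (((1 / z) ^ r - 1 ^ r) / (1 / z - 1)) := by
    intro z hz hz1
    have hzr : z ^ r < 1 := Real.rpow_lt_one hz.le hz1 (by linarith)
    have hzr0 : 0 < z ^ r := Real.rpow_pos_of_pos hz r
    have e1 : (1 / z) ^ r = 1 / z ^ r := by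
      rw [Real.div_rpow zero_le_one hz.le, Real.one_rpow]
    rw [e1, Real.one_rpow]
    have e2 : (1 / z ^ r - 1) / (1 / z - 1) = (1 - z ^ r) * z / ((1 - z) * z ^ r) := by
      have : 1 - z ≠ 0 := by linarith
      field_simp
    rw [e2, Real.log_div (by
        have : 0 < (1 - z ^ r) * z := mul_pos (by linarith) hz
        exact this.ne') (by
        have : 0 < (1 - z) * z ^ r := mul_pos (by linarith) hzr0
        exact this.ne'), Real.log_mul (by linarith) hz.ne', Real.log_mul (by linarith) hzr0.ne',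
      Real.log_rpow hz]
    ring
  rw [key x hx hx1, key y hy0 hy]
  have hs := (convexOn_rpow hr.le).secant_mono (a := 1) (x := 1 / y) (y := 1 / x)
    (by simp) (by simp [hy0.le]) (by simp [hx.le])
    (by
      have : 1 < 1 / y := by rw [lt_div_iff₀ hy0]; linarith
      exact this.ne')
    (by
      have : 1 < 1 / x := by rw [lt_div_iff₀ hx]; linarith
      exact this.ne') (one_div_le_one_div_of_le hx hxy)
  have hpos : 0 < ((1 / y) ^ r - 1 ^ r) / (1 / y - 1) := by
    have h1 : 1 < 1 / y := by rw [lt_div_iff₀ hy0]; linarith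
    have h2 : 1 < (1 / y) ^ r := Real.one_lt_rpow h1 (by linarith)
    rw [Real.one_rpow]
    exact div_pos (by linarith) (by linarith)
  have := Real.log_le_log hpos hs
  linarith

/-- (M3) -/
lemma M3_aux {r x y : ℝ} (hr : 1 < r) (hr2 : r ≤ 2) (hx : 0 < x) (hxy : x ≤ y) (hy : y < 1) :
    Real.log (1 - y ^ r) - Real.log (1 - y ^ 2) ≤ Real.log (1 - x ^ r) - Real.log (1 - x ^ 2) := by
  have hy0 : 0 < y := hx.trans_le hxy
  have hx1 : x < 1 := lt_of_le_of_lt hxy hy
  have key : ∀ z : ℝ, 0 < z → z < 1 → Real.log (1 - z ^ r) - Real.log (1 - z ^ 2)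
      = - Real.log (((z ^ r) ^ (2 / r) - 1 ^ (2 / r)) / (z ^ r - 1)) := by
    intro z hz hz1
    have hzr : z ^ r < 1 := Real.rpow_lt_one hz.le hz1 (by linarith)
    have hzr0 : 0 < z ^ r := Real.rpow_pos_of_pos hz r
    have hz2 : z ^ 2 < 1 := by nlinarith
    have e1 : (z ^ r) ^ (2 / r) = z ^ 2 := by
      rw [← Real.rpow_mul hz.le, mul_div_cancel₀ _ (by linarith), Real.rpow_two]
    rw [e1, Real.one_rpow]
    have e2 : (z ^ 2 - 1) / (z ^ r - 1) = (1 - z ^ 2) / (1 - z ^ r) := by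
      rw [← neg_div_neg_eq]; congr 1 <;> ring
    rw [e2, Real.log_div (by linarith) (by linarith)]
    ring
  rw [key x hx hx1, key y hy0 hy]
  have hxr : x ^ r < 1 := Real.rpow_lt_one hx.le hx1 (by linarith)
  have hyr : y ^ r < 1 := Real.rpow_lt_one hy0.le hy (by linarith)
  have hxr0 : 0 < x ^ r := Real.rpow_pos_of_pos hx r
  have hyr0 : 0 < y ^ r := Real.rpow_pos_of_pos hy0 r
  have hle : x ^ r ≤ y ^ r := Real.rpow_le_rpow hx.le hxy (by linarith)
  have h2r : 1 ≤ 2 / r := by rw [le_div_iff₀ (by linarith)]; linarith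
  have hs := (convexOn_rpow h2r).secant_mono (a := 1) (x := x ^ r) (y := y ^ r)
    (by simp) (by simp [hxr0.le]) (by simp [hyr0.le]) (by linarith) (by linarith) hle
  have hpos : 0 < ((x ^ r) ^ (2 / r) - 1 ^ (2 / r)) / (x ^ r - 1) := by
    have h2 : (x ^ r) ^ (2 / r) < 1 := Real.rpow_lt_one hxr0.le hxr (by linarith)
    rw [Real.one_rpow]
    exact div_pos_of_neg_of_neg (by linarith) (by linarith)
  have := Real.log_le_log hpos hs
  linarith

/-- (M2) -/
lemma M2_aux {la lb ka kb : ℝ} (hla : 0 < la) (hab : la ≤ lb) (hkb : 0 < kb) (hk : kb ≤ ka)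
    (hka : ka < 1) :
    Real.log (1 + lb) + Real.log kb - Real.log (lb + kb)
      ≤ Real.log (1 + la) + Real.log ka - Real.log (la + ka) := by
  have hlb : 0 < lb := hla.trans_le hab
  have hka0 : 0 < ka := hkb.trans_le hk
  have e : ∀ l k : ℝ, 0 < l → 0 < k → Real.log (1 + l) + Real.log k - Real.log (l + k)
      = Real.log ((1 + l) * k / (l + k)) := by
    intro l k hl hk
    rw [Real.log_div (by positivity) (by positivity), Real.log_mul (by positivity) (by positivity)]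
  rw [e _ _ hlb hkb, e _ _ hla hka0]
  apply Real.log_le_log (by positivity)
  rw [div_le_div_iff₀ (by positivity) (by positivity)]
  have h1 : 0 ≤ (la * lb + lb) * (ka - kb) := mul_nonneg (by positivity) (by linarith)
  have h2 : 0 ≤ kb * (lb - la) * (1 - ka) :=
    mul_nonneg (mul_nonneg hkb.le (by linarith)) (by linarith)
  nlinarith

/-- the `WW` comparison. -/
lemma WW_diff {r la lb ka kb : ℝ} (hr : 1 < r) (hr2 : r ≤ 2) (hla : 0 < la) (hab : la ≤ lb)
    (hlb1 : lb < 1) (hkb : 0 < kb) (hk : kb ≤ ka) (hka : ka < 1) :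
    (r - 1) * (Real.log lb - Real.log la) ≤
      (lgt (ka ^ r) - lgt (1 - la) - lgt (la ^ r) + lgt ((1 - ka) / (1 + la)))
      - (lgt (kb ^ r) - lgt (1 - lb) - lgt (lb ^ r) + lgt ((1 - kb) / (1 + lb))) := by
  have hlb : 0 < lb := hla.trans_le hab
  have hka0 : 0 < ka := hkb.trans_le hk
  have e : ∀ l k : ℝ, 0 < l → l < 1 → 0 < k → k < 1 →
      lgt (k ^ r) - lgt (1 - l) - lgt (l ^ r) + lgt ((1 - k) / (1 + l))
      = ((r - 1) * Real.log k + Real.log (1 - k) - Real.log (1 - k ^ r))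
        + (Real.log (1 + l) + Real.log k - Real.log (l + k))
        + (Real.log (1 - l ^ r) - Real.log (1 - l ^ 2)) - (r - 1) * Real.log l := by
    intro l k hl hl1 hk hk1
    unfold lgt
    rw [Real.log_rpow hk, Real.log_rpow hl]
    have e1 : 1 - (1 - k) / (1 + l) = (l + k) / (1 + l) := by field_simp; ring
    have e2 : 1 - (1 - l) = l := by ring
    have e3 : 1 - l ^ 2 = (1 - l) * (1 + l) := by ring
    rw [e1, e2, e3, Real.log_div (by linarith) (by positivity),
      Real.log_div (by positivity) (by positivity), Real.log_mul (by linarith) (by positivity)]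
    ring
  rw [e la ka hla (lt_of_le_of_lt hab hlb1) hka0 hka, e lb kb hlb hlb1 hkb (lt_of_le_of_lt hk hka)]
  have m1 := M1_aux hr hkb hk hka
  have m2 := M2_aux hla hab hkb hk hka
  have m3 := M3_aux hr hr2 hla hab hlb1
  linarith

end Pool.Agent.Feig
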