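import Pool.Agent.Feig.Pair6

/-!
# Two solutions coincide (box version), conclusion
-/

open Set Filter Topology

noncomputable section

namespace Pool.Agent.Feig

namespace FV

variable {r lam : ℝ} {V V1 N N1 N2 : ℝ → ℝ}

lemma kap_mem (h : FV r lam V V1 N N1 N2) : V (1 - lam) ^ (1 / r) ∈ Ioo (0:ℝ) 1 := by
  have hl := h.lam_pos
  have hl1 := h.lam_lt
  have hr := h.r_pos
  have hV := h.V_mem (p := 1 - lam) ⟨by linarith, by linarith⟩
  exact ⟨Real.rpow_pos_of_pos hV.1 _, Real.rpow_lt_one hV.1.le hV.2 (by positivity)⟩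

lemma kap_pow (h : FV r lam V V1 N N1 N2) : (V (1 - lam) ^ (1 / r)) ^ r = V (1 - lam) := by
  have hl := h.lam_pos
  have hl1 := h.lam_lt
  have hV := h.V_mem (p := 1 - lam) ⟨by linarith, by linarith⟩
  rw [← Real.rpow_mul hV.1.le, one_div_mul_cancel h.r_pos.ne', Real.rpow_one]

lemma g1_mem (h : FV r lam V V1 N N1 N2) : gm r lam V 1 ∈ Ioo (0:ℝ) (1 - lam) := by
  refine ⟨?_, h.g_one_lt⟩
  unfold gm
  rw [mul_one]
  have := h.kap_mem
  have hl := h.lam_pos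
  exact div_pos (by linarith [this.2]) (by linarith)

lemma V_g1 (h : FV r lam V V1 N N1 N2) : V (gm r lam V 1) = lam ^ r := by
  have := h.eqn 1 FV.one_mem
  rw [h.V_one, mul_one (lam ^ r)] at this
  exact this

/-- `Λ(p) = logit V(p) - logit p` shift. -/
lemma Lam_shift (h : FV r lam V V1 N N1 N2) {H K : ℝ}
    (hkj : KJ (Sch N N1) (kf V V1) (kf1 V V1 N) (jf V V1) (jf1 V V1 N) H)
    (hS : ∀ p ∈ Icc (0:ℝ) 1, Sch N N1 p ≤ K) {a b : ℝ} (ha : a ∈ Ioo (0:ℝ) 1)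
    (hb : b ∈ Ioo (0:ℝ) 1) :
    |(lgt (V a) - lgt a) - (lgt (V b) - lgt b)| ≤ K / (6 * H) * |a - b| := by
  have hlg : ∀ p ∈ Ioo (0:ℝ) 1, HasDerivAt lgt (1 / (p * (1 - p))) p := by
    intro p hp
    have h0 := hp.1.ne'
    have h1 : 0 < 1 - p := by linarith [hp.2]
    have e1 := Real.hasDerivAt_log h0
    have e2 := ((hasDerivAt_id p).const_sub 1).log h1.ne'
    refine (e1.sub e2).congr_deriv ?_
    simp only [id]
    field_simp
    ring
  have key : ∀ a b : ℝ, a ∈ Ioo (0:ℝ) 1 → b ∈ Ioo (0:ℝ) 1 → a ≤ b →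
      |(lgt (V b) - lgt b) - (lgt (V a) - lgt a)| ≤ K / (6 * H) * (b - a) := by
    intro a b ha hb hab
    apply abs_sub_le_mul (f := fun x => lgt (V x) - lgt x)
      (f1 := fun x => V1 x / (V x * (1 - V x)) - 1 / (x * (1 - x))) hab
    · intro x hx
      have hx' : x ∈ Ioo (0:ℝ) 1 := ⟨ha.1.trans_le hx.1, lt_of_le_of_lt hx.2 hb.2⟩
      exact (h.dlgt hx').sub (hlg x hx')
    · intro x hx
      have hx' : x ∈ Ioo (0:ℝ) 1 := ⟨ha.1.trans_le hx.1, lt_of_le_of_lt hx.2 hb.2⟩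
      have := KJ.diff hkj KJ_triv (σ := K) (fun p hp => by
        rw [sub_zero, abs_of_nonneg (h.Sch_nonneg hp)]; exact hS p hp) hx'
      rw [h.kj_eq (Ioo_subset_Icc_self hx'), one_div_div] at this
      rw [mul_one] at this
      exact this
  rcases le_total a b with hab | hab
  · rw [abs_sub_comm, abs_sub_comm a b, abs_of_nonneg (by linarith : 0 ≤ b - a)]
    exact key a b ha hb hab
  · rw [abs_of_nonneg (by linarith : 0 ≤ a - b)]
    exact key b a hb ha hab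

end FV

/-- numerical conditions for the final step. -/
structure Fin2 (B : Bx) (P : Bx2) (K : ℝ) : Prop where
  K_nn : 0 ≤ K
  K_ge : (B.ra + 1) ≤ K * (2 * B.ra ^ 2)
  f1 : K * P.C * B.L ^ 3 * P.e6 ≤ 1
  f2 : K * B.L ^ 2 * (P.C * P.e6 * (1 - B.L) + B.s / (6 * B.H) *
    (B.L + P.Gd + B.L / B.ra * (P.C * B.cm * B.L ^ 2 * P.e6))) < 1

lemma cc_le_K {r ra K : ℝ} (hra : 1 ≤ ra) (hr : ra ≤ r) (hr1 : 1 < r) (hK : ra + 1 ≤ K * (2 * ra ^ 2)) :
    cc r ≤ K * (r - 1) := by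
  have h0 : 0 < ra := by linarith
  have h1 : (r + 1) * ra ^ 2 ≤ (ra + 1) * r ^ 2 := by
    have : 0 ≤ (r - ra) * (r * ra + r + ra) := mul_nonneg (by linarith) (by positivity)
    nlinarith
  have h2 : r + 1 ≤ K * (2 * r ^ 2) := by
    have : (r + 1) * ra ^ 2 ≤ K * (2 * r ^ 2) * ra ^ 2 := by
      calc (r + 1) * ra ^ 2 ≤ (ra + 1) * r ^ 2 := h1
        _ ≤ K * (2 * ra ^ 2) * r ^ 2 := mul_le_mul_of_nonneg_right hK (sq_nonneg r)
        _ = _ := by ring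
    exact le_of_mul_le_mul_right this (by positivity)
  have e : cc r = (r - 1) * (r + 1) / (2 * r ^ 2) := by
    unfold cc
    have : r ≠ 0 := by linarith
    field_simp
    ring
  rw [e, div_le_iff₀ (by positivity)]
  have := mul_le_mul_of_nonneg_left h2 (by linarith : 0 ≤ r - 1)
  linarith

lemma cube_mono {x L : ℝ} (hx : 0 ≤ x) (hxL : x ≤ L) (hL : L ≤ 1 / 2) :
    x ^ 2 * (1 - x) ≤ L ^ 2 * (1 - L) := by
  have h1 : 0 ≤ L + x - L ^ 2 - L * x - x ^ 2 := by nlinarith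
  have h2 := mul_nonneg (by linarith : 0 ≤ L - x) h1
  nlinarith

theorem unique_box {B : Bx} {r la lb : ℝ} {V V1 N N1 N2 W W1 M M1 M2 : ℝ → ℝ} {P : Bx2} {K : ℝ}
    (h : FV r la V V1 N N1 N2) (h' : FV r lb W W1 M M1 M2) (s : Sing B r la V V1 N N1 N2)
    (s' : Sing B r lb W W1 M M1 M2) (ok : B.Ok) (hP : P.Ok B) (hF : Fin2 B P K)
    (hr2 : r ≤ 2) (hra : B.ra ≤ r) (hrb : r ≤ P.rb)
    (hcm : cc r ≤ B.cm) (hab : la ≤ lb) (hL : lb ≤ B.L) :
    la = lb ∧ ∀ p ∈ Icc (0:ℝ) 1, V p = W p := by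
  obtain ⟨σ, hσ0, hσ, H⟩ := sup_bound h h' s s' ok hP hra hrb hcm hab hL
  have hla := h.lam_pos
  have hlb := h'.lam_pos
  have hla1 := h.lam_lt
  have hlb1 := h'.lam_lt
  have hr := h.hr
  have hr0 := h.r_pos
  have hd := H.d_nonneg
  have hE0 := H.E_nonneg
  have hc := h.cc_pos
  have hLp := ok.L_pos
  have hL2 := ok.L_le
  have hHp := ok.H_pos
  have hC := hP.C_nn
  have hK := hF.K_nn
  have hdl := lam_diff_le hla hlb
  have hra1 := ok.ra_ge
  have hcK := cc_le_K hra1 hra hr hF.K_ge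
  have he6 : 0 < P.e6 := by
    have := hP.e6_ge
    by_contra hcn
    push Not at hcn
    have : P.e6 * (6 * B.H * B.H) ≤ 0 := mul_nonpos_of_nonpos_of_nonneg hcn (by positivity)
    linarith
  obtain ⟨D1, D2, -, -⟩ := Delta_bounds h h' hab hL le_rfl H.hD
  set δ := Real.log lb - Real.log la with hδ
  set E := σ * P.e6 with hEd
  have hlbL2 : lb ^ 2 ≤ B.L ^ 2 := pow_le_pow_left₀ hlb.le hL 2
  have hr1 : 0 < r - 1 := by linarith
  -- E bounds
  have hE1 : E ≤ P.C * (K * (r - 1)) * lb ^ 2 * δ * P.e6 := by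
    rw [hEd]
    apply mul_le_mul_of_nonneg_right _ he6.le
    refine hσ.trans ?_
    gcongr
  have hE2 : E ≤ P.C * B.cm * B.L ^ 2 * P.e6 * δ := by
    rw [hEd]
    calc σ * P.e6 ≤ (P.C * cc r * lb ^ 2 * δ) * P.e6 := mul_le_mul_of_nonneg_right hσ he6.le
      _ ≤ (P.C * B.cm * B.L ^ 2 * δ) * P.e6 := by
          have := ok.cm_nn
          gcongr
      _ = _ := by ring
  -- κ_b ≤ κ_a
  have hqa : (1 - la) ∈ Ioo (0:ℝ) 1 := ⟨by linarith, by linarith⟩
  have hqb : (1 - lb) ∈ Ioo (0:ℝ) 1 := ⟨by linarith, by linarith⟩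
  have hkk : W (1 - lb) ≤ V (1 - la) := by
    have e1 : V (1 - lb) ≤ V (1 - la) :=
      h.strictMono.monotoneOn (Ioo_subset_Icc_self hqb) (Ioo_subset_Icc_self hqa) (by linarith)
    have e2 : W (1 - lb) ≤ V (1 - lb) := by
      apply lgt_mono (h'.V_mem hqb) (h.V_mem hqb)
      have ht := tdiff h h' H.hE hqb
      rw [abs_le] at ht
      have e3 : E * (1 - (1 - lb)) ≤ (r - 1) * δ := by
        calc E * (1 - (1 - lb)) = E * lb := by ring
          _ ≤ (P.C * (K * (r - 1)) * lb ^ 2 * δ * P.e6) * lb :=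
              mul_le_mul_of_nonneg_right hE1 hlb.le
          _ = (P.C * (K * (r - 1)) * δ * P.e6) * lb ^ 3 := by ring
          _ ≤ (P.C * (K * (r - 1)) * δ * P.e6) * B.L ^ 3 := by
              gcongr
          _ = (K * P.C * B.L ^ 3 * P.e6) * ((r - 1) * δ) := by ring
          _ ≤ 1 * ((r - 1) * δ) := mul_le_mul_of_nonneg_right hF.f1 (by positivity)
          _ = _ := one_mul _
      linarith [ht.1]
    exact e2.trans e1
  have hka := h.kap_mem
  have hkb := h'.kap_mem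
  have hkle : W (1 - lb) ^ (1 / r) ≤ V (1 - la) ^ (1 / r) :=
    Real.rpow_le_rpow (h'.V_mem hqb).1.le hkk (by positivity)
  have hWW := WW_diff hr hr2 hla hab hlb1 hkb.1 hkle hka.2
  rw [h.kap_pow, h'.kap_pow] at hWW
  have hga := h.g1_mem
  have hgb := h'.g1_mem
  have hVg := h.V_g1
  have hWg := h'.V_g1
  have hgda : (1 - V (1 - la) ^ (1 / r)) / (1 + la) = gm r la V 1 := by
    unfold gm; rw [mul_one]
  have hgdb : (1 - W (1 - lb) ^ (1 / r)) / (1 + lb) = gm r lb W 1 := by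
    unfold gm; rw [mul_one]
  rw [hgda, hgdb, ← hVg, ← hWg] at hWW
  set ga := gm r la V 1 with hgad
  set gb := gm r lb W 1 with hgbd
  have hga' : ga ∈ Ioo (0:ℝ) 1 := ⟨hga.1, by linarith [hga.2]⟩
  have hgb' : gb ∈ Ioo (0:ℝ) 1 := ⟨hgb.1, by linarith [hgb.2]⟩
  -- shifts
  have S1 := h.Lam_shift s.kj s.S_le hqa hqb
  have S2 := h.Lam_shift s.kj s.S_le hga' hgb'
  have S3 : |(lgt (V (1 - lb)) - lgt (W (1 - lb))) - (lgt (V gb) - lgt (W gb))|
      ≤ E * ((1 - lb) - gb) := by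
    apply abs_sub_le_mul (f := fun x => lgt (V x) - lgt (W x))
      (f1 := fun p => V1 p / (V p * (1 - V p)) - W1 p / (W p * (1 - W p))) hgb.2.le
    · intro x hx
      have hx' : x ∈ Ioo (0:ℝ) 1 := ⟨hgb.1.trans_le hx.1, lt_of_le_of_lt hx.2 hqb.2⟩
      exact (h.dlgt hx').sub (h'.dlgt hx')
    · intro x hx
      exact H.hE x ⟨hgb.1.trans_le hx.1, lt_of_le_of_lt hx.2 hqb.2⟩
  have hG := H.gdiff hP.Gd1 hP.Gd2 (p := 1) ⟨one_pos, le_rfl⟩
  rw [← hgad, ← hgbd, ← hδ] at hG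
  -- bounding
  have b1 : |1 - la - (1 - lb)| ≤ B.L * δ := by
    have : 1 - la - (1 - lb) = lb - la := by ring
    rw [this, abs_of_nonneg (by linarith)]
    exact hdl.trans (mul_le_mul_of_nonneg_right hL hd)
  have b2 : |ga - gb| ≤ P.Gd * δ + B.L / B.ra * (P.C * B.cm * B.L ^ 2 * P.e6) * δ := by
    refine hG.trans ?_
    have : lb / B.ra * E ≤ B.L / B.ra * (P.C * B.cm * B.L ^ 2 * P.e6 * δ) :=
      mul_le_mul (div_le_div_of_nonneg_right hL (by linarith)) hE2 hE0 (by positivity)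
    linarith
  have b3 : B.s * cc r * la ^ 2 / (6 * B.H) ≤ K * (r - 1) * B.L ^ 2 * (B.s / (6 * B.H)) := by
    have hs := ok.s_nn
    have hlaL2 : la ^ 2 ≤ B.L ^ 2 := pow_le_pow_left₀ hla.le (hab.trans hL) 2
    have : B.s * cc r * la ^ 2 ≤ B.s * (K * (r - 1)) * B.L ^ 2 := by gcongr
    calc B.s * cc r * la ^ 2 / (6 * B.H) ≤ B.s * (K * (r - 1)) * B.L ^ 2 / (6 * B.H) :=
          div_le_div_of_nonneg_right this (by positivity)
      _ = _ := by ring
  have hb3nn : 0 ≤ K * (r - 1) * B.L ^ 2 * (B.s / (6 * B.H)) := by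
    have hs := ok.s_nn
    positivity
  have c1 := S1.trans (mul_le_mul b3 b1 (abs_nonneg _) hb3nn)
  have c2 := S2.trans (mul_le_mul b3 b2 (abs_nonneg _) hb3nn)
  have c3 : E * ((1 - lb) - gb) ≤ K * (r - 1) * B.L ^ 2 * (P.C * P.e6 * (1 - B.L)) * δ := by
    have e1 : E * ((1 - lb) - gb) ≤ E * (1 - lb) :=
      mul_le_mul_of_nonneg_left (by linarith [hgb.1]) hE0
    have e2 : lb ^ 2 * (1 - lb) ≤ B.L ^ 2 * (1 - B.L) := cube_mono hlb.le hL hL2
    calc E * ((1 - lb) - gb) ≤ E * (1 - lb) := e1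
      _ ≤ (P.C * (K * (r - 1)) * lb ^ 2 * δ * P.e6) * (1 - lb) :=
          mul_le_mul_of_nonneg_right hE1 (by linarith)
      _ = (P.C * (K * (r - 1)) * δ * P.e6) * (lb ^ 2 * (1 - lb)) := by ring
      _ ≤ (P.C * (K * (r - 1)) * δ * P.e6) * (B.L ^ 2 * (1 - B.L)) :=
          mul_le_mul_of_nonneg_left e2 (by positivity)
      _ = _ := by ring
  have c1' := abs_le.mp c1
  have c2' := abs_le.mp c2
  have c3' := abs_le.mp (S3.trans c3)
  -- conclusion
  have fin : (r - 1) * δ ≤ (K * B.L ^ 2 * (P.C * P.e6 * (1 - B.L) + B.s / (6 * B.H) *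
    (B.L + P.Gd + B.L / B.ra * (P.C * B.cm * B.L ^ 2 * P.e6)))) * ((r - 1) * δ) := by
    have e1 : lgt (V (1 - la)) - lgt (1 - la) - lgt (V ga) + lgt ga
        - (lgt (W (1 - lb)) - lgt (1 - lb) - lgt (W gb) + lgt gb)
      = ((lgt (V (1 - la)) - lgt (1 - la)) - (lgt (V (1 - lb)) - lgt (1 - lb)))
        - ((lgt (V ga) - lgt ga) - (lgt (V gb) - lgt gb))
        + ((lgt (V (1 - lb)) - lgt (W (1 - lb))) - (lgt (V gb) - lgt (W gb))) := by ring
    have e2 : (r - 1) * δ ≤ K * (r - 1) * B.L ^ 2 * (B.s / (6 * B.H)) * (B.L * δ)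
        + K * (r - 1) * B.L ^ 2 * (B.s / (6 * B.H)) *
          (P.Gd * δ + B.L / B.ra * (P.C * B.cm * B.L ^ 2 * P.e6) * δ)
        + K * (r - 1) * B.L ^ 2 * (P.C * P.e6 * (1 - B.L)) * δ := by
      rw [e1] at hWW
      linarith [c1'.2, c2'.1, c3'.2]
    calc (r - 1) * δ ≤ _ := e2
      _ = _ := by ring
  have hδ0 : δ = 0 := by
    by_contra hne
    have hδp : 0 < δ := lt_of_le_of_ne hd (Ne.symm hne)
    have hp : 0 < (r - 1) * δ := mul_pos hr1 hδp
    have := mul_lt_mul_of_pos_right hF.f2 hp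
    linarith
  have hlab : la = lb := by
    have : Real.log la = Real.log lb := by linarith
    exact Real.log_injOn_pos hla hlb this
  refine ⟨hlab, ?_⟩
  have hEz : E = 0 := by
    have : E ≤ 0 := by rw [hδ0, mul_zero] at hE2; exact hE2
    linarith
  intro p hp
  rcases hp.1.eq_or_lt with h0 | h0
  · rw [← h0, h.V_zero, h'.V_zero]
  rcases hp.2.eq_or_lt with h1 | h1
  · rw [h1, h.V_one, h'.V_one]
  have ht := tdiff h h' H.hE ⟨h0, h1⟩
  rw [hEz, zero_mul] at ht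
  have ht0 := abs_nonpos_iff.mp ht
  have hDz : Real.log (W1 1) - Real.log (V1 1) = 0 := by
    rw [hδ0, mul_zero] at D1 D2
    linarith
  rw [hDz, sub_zero] at ht0
  exact lgt_inj (h.V_mem ⟨h0, h1⟩) (h'.V_mem ⟨h0, h1⟩) (by linarith)

end Pool.Agent.Feig
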