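import Pool.Agent.Feig.Ext

/-!
# The Schwarzian of `V` is nonnegative
-/

open Set

noncomputable section

namespace Pool.Agent.Feig

lemma le_add_of_sq_le {x a b : ℝ} (ha : 0 ≤ a) (hb : 0 ≤ b)
    (h : x ^ 2 ≤ a ^ 2 + b ^ 2) : x ≤ a + b := by
  by_contra hc
  push Not at hc
  nlinarith [mul_nonneg ha hb]

lemma lt_add_of_sq_lt {x a b : ℝ} (ha : 0 ≤ a) (hb : 0 ≤ b)
    (h : x ^ 2 < a ^ 2 + b ^ 2) : x < a + b := by
  by_contra hc
  push Not at hc
  nlinarith [mul_nonneg ha hb]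

namespace FV

variable {r lam : ℝ} {V V1 N N1 N2 : ℝ → ℝ}

lemma q_mem1 (h : FV r lam V V1 N N1 N2) {p : ℝ} (hp : p ∈ Icc (0:ℝ) 1) :
    1 - lam * p ∈ Icc (1 - lam) 1 := by
  have hl := h.lam_pos
  constructor
  · nlinarith [hp.2]
  · nlinarith [hp.1]

lemma q_mem1' (h : FV r lam V V1 N N1 N2) {p : ℝ} (hp : p ∈ Icc (0:ℝ) 1) :
    1 - lam * p ∈ Icc (0:ℝ) 1 := by
  have := h.q_mem (h.mem_b hp)
  exact ⟨this.1.le, this.2⟩

lemma kappa_gt (h : FV r lam V V1 N N1 N2) : lam < V (1 - lam) ^ (1 / r) := by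
  have h1 : (lam ^ r) ^ (1 / r) < V (1 - lam) ^ (1 / r) :=
    Real.rpow_lt_rpow h.tau_pos.le h.kap (by have := h.r_pos; positivity)
  rwa [← Real.rpow_mul h.lam_pos.le, mul_one_div_cancel h.r_pos.ne', Real.rpow_one] at h1

lemma g_one_lt (h : FV r lam V V1 N N1 N2) : gm r lam V 1 < 1 - lam := by
  have hk := h.kappa_gt
  have hl := h.lam_pos
  have hl1 := h.lam_lt
  unfold gm
  rw [mul_one, div_lt_iff₀ (by linarith)]
  nlinarith

lemma contq : Continuous (fun p : ℝ => 1 - lam * p) := by fun_prop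

lemma contg (h : FV r lam V V1 N N1 N2) : ContinuousOn (gm r lam V) (Icc 0 1) :=
  fun _ hp => (h.dg (h.mem_b hp)).continuousAt.continuousWithinAt

lemma contgd (h : FV r lam V V1 N N1 N2) : ContinuousOn (gd r lam V V1) (Icc 0 1) :=
  fun _ hp => (h.dgd (h.mem_b hp)).continuousAt.continuousWithinAt

/-- negative part root -/
def mf (N N1 : ℝ → ℝ) (p : ℝ) : ℝ := Real.sqrt (max (-(Sch N N1 p)) 0)

lemma mf_nonneg (p : ℝ) : 0 ≤ mf N N1 p := Real.sqrt_nonneg _

lemma mf_sq (p : ℝ) : mf N N1 p ^ 2 = max (-(Sch N N1 p)) 0 :=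
  Real.sq_sqrt (le_max_right _ _)

lemma contmf (h : FV r lam V V1 N N1 N2) : ContinuousOn (mf N N1) (Icc 0 1) := by
  unfold mf
  exact Real.continuous_sqrt.comp_continuousOn (h.contSch.neg.sup continuousOn_const)

lemma mf_key (h : FV r lam V V1 N N1 N2) {p : ℝ} (hp : p ∈ Icc (0:ℝ) 1) :
    mf N N1 p ≤ mf N N1 (1 - lam * p) * lam + mf N N1 (gm r lam V p) * gd r lam V V1 p ∧
    (0 < mf N N1 p →
      mf N N1 p < mf N N1 (1 - lam * p) * lam + mf N N1 (gm r lam V p) * gd r lam V V1 p) := by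
  have hS := h.Sch_eq hp
  have hg := (h.gd_pos (h.mem_b hp)).le
  have hl := h.lam_pos
  have hc := h.cc_pos
  have hY := h.Y_pos (h.q_mem (h.mem_b hp))
  have hpos : 0 < cc r * lam ^ 2 * Yf V V1 (1 - lam * p) ^ 2 := by positivity
  have hA : 0 ≤ mf N N1 (1 - lam * p) * lam := mul_nonneg (mf_nonneg _) hl.le
  have hB : 0 ≤ mf N N1 (gm r lam V p) * gd r lam V V1 p := mul_nonneg (mf_nonneg _) hg
  have h1 := mf_sq (N := N) (N1 := N1) (1 - lam * p)
  have h2 := mf_sq (N := N) (N1 := N1) (gm r lam V p)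
  have h3 := mf_sq (N := N) (N1 := N1) p
  have h1' : -(Sch N N1 (1 - lam * p)) ≤ mf N N1 (1 - lam * p) ^ 2 := h1 ▸ le_max_left _ _
  have h2' : -(Sch N N1 (gm r lam V p)) ≤ mf N N1 (gm r lam V p) ^ 2 := h2 ▸ le_max_left _ _
  have key : -(Sch N N1 p) < (mf N N1 (1 - lam * p) * lam) ^ 2
      + (mf N N1 (gm r lam V p) * gd r lam V V1 p) ^ 2 := by
    have e1 : lam ^ 2 * -(Sch N N1 (1 - lam * p)) ≤ lam ^ 2 * mf N N1 (1 - lam * p) ^ 2 :=
      mul_le_mul_of_nonneg_left h1' (sq_nonneg _)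
    have e2 : gd r lam V V1 p ^ 2 * -(Sch N N1 (gm r lam V p))
        ≤ gd r lam V V1 p ^ 2 * mf N N1 (gm r lam V p) ^ 2 :=
      mul_le_mul_of_nonneg_left h2' (sq_nonneg _)
    nlinarith
  have hle : mf N N1 p ^ 2 ≤ (mf N N1 (1 - lam * p) * lam) ^ 2
      + (mf N N1 (gm r lam V p) * gd r lam V V1 p) ^ 2 := by
    rw [h3]
    exact max_le key.le (by positivity)
  constructor
  · exact le_add_of_sq_le hA hB hle
  · intro hpm
    refine lt_add_of_sq_lt hA hB ?_
    rw [h3]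
    refine max_lt key ?_
    have : 0 < max (-(Sch N N1 p)) 0 := by rw [← h3]; positivity
    rw [h3] at hle
    linarith

theorem Sch_nonneg (h : FV r lam V V1 N N1 N2) {p : ℝ} (hp : p ∈ Icc (0:ℝ) 1) :
    0 ≤ Sch N N1 p := by
  by_contra hneg
  push Not at hneg
  have hl := h.lam_pos
  have hl1 := h.lam_lt
  have hmp : 0 < mf N N1 p := by
    unfold mf
    exact Real.sqrt_pos.mpr (lt_max_of_lt_left (by linarith))
  -- integrals
  have hcont := h.contmf
  have hint : ∀ a ∈ Icc (0:ℝ) 1, ∀ b ∈ Icc (0:ℝ) 1,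
      IntervalIntegrable (mf N N1) MeasureTheory.volume a b := by
    intro a ha b hb
    apply ContinuousOn.intervalIntegrable
    apply hcont.mono
    intro x hx
    rw [mem_uIcc] at hx
    rcases hx with hx | hx
    · exact ⟨ha.1.trans hx.1, hx.2.trans hb.2⟩
    · exact ⟨hb.1.trans hx.1, hx.2.trans ha.2⟩
  have hqmaps : MapsTo (fun p : ℝ => 1 - lam * p) (Icc 0 1) (Icc 0 1) :=
    fun x hx => h.q_mem1' hx
  have hgmaps : MapsTo (gm r lam V) (Icc 0 1) (Icc 0 1) :=
    fun x hx => h.g_mem' (h.mem_b hx)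
  have I1 : ∫ x in (0:ℝ)..1, mf N N1 (1 - lam * x) * lam = ∫ x in (1 - lam)..1, mf N N1 x := by
    have := intervalIntegral.integral_comp_mul_deriv'' (a := 0) (b := 1)
      (f := fun p : ℝ => 1 - lam * p) (f' := fun _ => -lam) (g := mf N N1)
      contq.continuousOn (fun x _ => (dq (lam := lam) x).hasDerivWithinAt)
      continuousOn_const (by
        apply hcont.mono
        rw [uIcc_of_le zero_le_one]
        exact hqmaps.image_subset)
    simp only [Function.comp, mul_zero, sub_zero, mul_one] at this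
    rw [intervalIntegral.integral_symm (a := 1) (b := 1 - lam), ← this,
      ← intervalIntegral.integral_neg]
    congr 1
    ext x
    ring
  have I2 : ∫ x in (0:ℝ)..1, mf N N1 (gm r lam V x) * gd r lam V V1 x
      = ∫ x in (0:ℝ)..(gm r lam V 1), mf N N1 x := by
    have := intervalIntegral.integral_comp_mul_deriv'' (a := 0) (b := 1)
      (f := gm r lam V) (f' := gd r lam V V1) (g := mf N N1)
      (by rw [uIcc_of_le zero_le_one]; exact h.contg)
      (fun x hx => by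
        rw [min_eq_left zero_le_one, max_eq_right zero_le_one] at hx
        exact (h.dg (h.mem_b (Ioo_subset_Icc_self hx))).hasDerivWithinAt)
      (by rw [uIcc_of_le zero_le_one]; exact h.contgd) (by
        apply hcont.mono
        rw [uIcc_of_le zero_le_one]
        exact hgmaps.image_subset)
    rw [h.gm_zero] at this
    exact this
  have hc1 : ContinuousOn (fun x => mf N N1 (1 - lam * x) * lam) (Icc 0 1) :=
    (hcont.comp contq.continuousOn hqmaps).mul continuousOn_const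
  have hc2 : ContinuousOn (fun x => mf N N1 (gm r lam V x) * gd r lam V V1 x) (Icc 0 1) :=
    (hcont.comp h.contg hgmaps).mul h.contgd
  have hlt : ∫ x in (0:ℝ)..1, mf N N1 x <
      ∫ x in (0:ℝ)..1, (mf N N1 (1 - lam * x) * lam + mf N N1 (gm r lam V x) * gd r lam V V1 x) := by
    apply intervalIntegral.integral_lt_integral_of_continuousOn_of_le_of_exists_lt zero_lt_one
      hcont (hc1.add hc2)
    · intro x hx
      exact (h.mf_key ⟨hx.1.le, hx.2⟩).1
    · exact ⟨p, hp, (h.mf_key hp).2 hmp⟩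
  rw [intervalIntegral.integral_add
    (hc1.intervalIntegrable_of_Icc zero_le_one) (hc2.intervalIntegrable_of_Icc zero_le_one),
    I1, I2] at hlt
  have hg1 := h.g_one_lt
  have hg0 := h.g_mem (h.mem_b ⟨zero_le_one, le_refl (1:ℝ)⟩)
  have hsplit : ∫ x in (0:ℝ)..1, mf N N1 x
      = (∫ x in (0:ℝ)..(gm r lam V 1), mf N N1 x)
        + (∫ x in (gm r lam V 1)..(1 - lam), mf N N1 x) + ∫ x in (1 - lam)..1, mf N N1 x := by
    rw [intervalIntegral.integral_add_adjacent_intervals (hint _ ⟨le_rfl, zero_le_one⟩ _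
      ⟨hg0.1, by linarith⟩) (hint _ ⟨hg0.1, by linarith⟩ _ ⟨by linarith, by linarith⟩),
      intervalIntegral.integral_add_adjacent_intervals (hint _ ⟨le_rfl, zero_le_one⟩ _
      ⟨by linarith, by linarith⟩) (hint _ ⟨by linarith, by linarith⟩ _ ⟨zero_le_one, le_rfl⟩)]
  have hmid : 0 ≤ ∫ x in (gm r lam V 1)..(1 - lam), mf N N1 x :=
    intervalIntegral.integral_nonneg hg1.le (fun x _ => mf_nonneg x)
  linarith

end FV

end Pool.Agent.Feig
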