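import Pool.Agent.Feig.KJ

/-!
# Bounds for a single solution
-/

open Set

noncomputable section

namespace Pool.Agent.Feig

/-- the functions `k` and `j` attached to `V` (with `v = V'(1)`). -/
def kf (V V1 : ℝ → ℝ) : ℝ → ℝ := yy V V1 0 (Real.sqrt (V1 1))
def kf1 (V V1 N : ℝ → ℝ) : ℝ → ℝ := yy1 V V1 N 0 (Real.sqrt (V1 1))
def jf (V V1 : ℝ → ℝ) : ℝ → ℝ := yy V V1 (1 / Real.sqrt (V1 1)) (-(1 / Real.sqrt (V1 1)))
def jf1 (V V1 N : ℝ → ℝ) : ℝ → ℝ := yy1 V V1 N (1 / Real.sqrt (V1 1)) (-(1 / Real.sqrt (V1 1)))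

namespace FV

variable {r lam : ℝ} {V V1 N N1 N2 : ℝ → ℝ}

lemma one_mem : (1:ℝ) ∈ Icc (0:ℝ) 1 := ⟨zero_le_one, le_rfl⟩
lemma zero_mem : (0:ℝ) ∈ Icc (0:ℝ) 1 := ⟨le_rfl, zero_le_one⟩

lemma sv_pos (h : FV r lam V V1 N N1 N2) : 0 < Real.sqrt (V1 1) := Real.sqrt_pos.mpr h.v_nonneg

lemma sv_sq (h : FV r lam V V1 N N1 N2) : Real.sqrt (V1 1) * Real.sqrt (V1 1) = V1 1 :=
  Real.mul_self_sqrt h.v_nonneg.le

lemma kf_one (h : FV r lam V V1 N N1 N2) : kf V V1 1 = 1 := by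
  have := h.sv_pos
  unfold kf yy
  rw [h.V_one]
  field_simp
  ring

lemma kf1_one (h : FV r lam V V1 N N1 N2) : kf1 V V1 N 1 = V1 1 - N 1 / 2 := by
  have h1 := h.kf_one
  have h2 := h.sv_sq
  unfold kf at h1
  unfold kf1 yy1
  rw [h1, h2]
  ring

/-- `KJ` structure from an upper bound of the Schwarzian. -/
lemma toKJ (h : FV r lam V V1 N N1 N2) {s H : ℝ} (hs : ∀ p ∈ Icc (0:ℝ) 1, Sch N N1 p ≤ s)
    (hH : 0 < H) (hHs : H ≤ 1 - s / 12) :
    KJ (Sch N N1) (kf V V1) (kf1 V V1 N) (jf V V1) (jf1 V V1 N) H := by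
  have hsv := h.sv_pos
  apply KJ.mk' (s := s) (fun p hp => h.toWD.dyy _ _ hp) (fun p hp => h.toWD.dyy1 _ _ hp)
    (fun p hp => h.toWD.dyy _ _ hp) (fun p hp => h.toWD.dyy1 _ _ hp)
  · intro p hp
    have := yy_wr V V1 N 0 (Real.sqrt (V1 1)) (1 / Real.sqrt (V1 1)) (-(1 / Real.sqrt (V1 1))) p
      (h.V1_pos p hp)
    rw [this]
    field_simp
    ring
  · unfold yy
    rw [h.V_zero]
    simp
  · exact h.kf_one
  · unfold yy
    rw [h.V_one]
    simp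
  · unfold yy1 yy
    rw [h.V_one]
    field_simp
    ring
  · intro p hp
    unfold yy
    have := h.V_nonneg hp
    positivity
  · intro p hp
    unfold yy
    apply div_nonneg _ (Real.sqrt_nonneg _)
    have := h.V_le_one hp
    have h2 : 1 / Real.sqrt (V1 1) + -(1 / Real.sqrt (V1 1)) * V p
      = (1 / Real.sqrt (V1 1)) * (1 - V p) := by ring
    rw [h2]
    exact mul_nonneg (by positivity) (by linarith)
  · exact fun p hp => h.Sch_nonneg hp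
  · exact hs
  · exact hH
  · exact hHs

/-- `k j = V (1 - V) / V'`. -/
lemma kj_eq (h : FV r lam V V1 N N1 N2) {p : ℝ} (hp : p ∈ Icc (0:ℝ) 1) :
    kf V V1 p * jf V V1 p = V p * (1 - V p) / V1 p := by
  have hV1 := h.V1_pos p hp
  have hsv := h.sv_pos
  have hs : Real.sqrt (V1 p) * Real.sqrt (V1 p) = V1 p := Real.mul_self_sqrt hV1.le
  unfold kf jf yy
  rw [div_mul_div_comm, hs]
  congr 1
  field_simp
  ring

/-- `k + v j = sqrt (v / V')`, so `V = k / (k + v j)`. -/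
lemma m_eq (h : FV r lam V V1 N N1 N2) {p : ℝ} (_hp : p ∈ Icc (0:ℝ) 1) :
    kf V V1 p + V1 1 * jf V V1 p = Real.sqrt (V1 1) / Real.sqrt (V1 p) := by
  have hsv := h.sv_pos
  have h2 := h.sv_sq
  unfold kf jf yy
  rw [mul_div_assoc', ← add_div]
  congr 1
  have h3 : V1 1 * (1 / Real.sqrt (V1 1) + -(1 / Real.sqrt (V1 1)) * V p)
      = Real.sqrt (V1 1) * (1 - V p) := by
    nth_rewrite 1 [← h2]
    field_simp
    ring
  rw [h3]
  ring

/-- `k (k + v j) V' = v V`. -/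
lemma km_eq (h : FV r lam V V1 N N1 N2) {p : ℝ} (hp : p ∈ Icc (0:ℝ) 1) :
    kf V V1 p * (kf V V1 p + V1 1 * jf V V1 p) * V1 p = V1 1 * V p := by
  have hV1 := h.V1_pos p hp
  have hs : Real.sqrt (V1 p) * Real.sqrt (V1 p) = V1 p := Real.mul_self_sqrt hV1.le
  have hs' : 0 < Real.sqrt (V1 p) := Real.sqrt_pos.mpr hV1
  rw [h.m_eq hp]
  have h2 := h.sv_sq
  unfold kf yy
  rw [div_mul_div_comm, hs, div_mul_cancel₀ _ hV1.ne']
  linear_combination (V p) * h2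

/-- `(k + v j)^2 V' = v`. -/
lemma mm_eq (h : FV r lam V V1 N N1 N2) {p : ℝ} (hp : p ∈ Icc (0:ℝ) 1) :
    (kf V V1 p + V1 1 * jf V V1 p) ^ 2 * V1 p = V1 1 := by
  have hV1 := h.V1_pos p hp
  rw [h.m_eq hp, div_pow, Real.sq_sqrt hV1.le, Real.sq_sqrt h.v_nonneg.le]
  field_simp

/-- the lower bound for `k (k + v j)`. -/
lemma Y_le' (h : FV r lam V V1 N N1 N2) {H : ℝ}
    (hkj : KJ (Sch N N1) (kf V V1) (kf1 V V1 N) (jf V V1) (jf1 V V1 N) H) {q : ℝ}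
    (hq : q ∈ Ioc (0:ℝ) 1) : Yf V V1 q * (q * (q + V1 1 * (H * (1 - q)))) ≤ V1 1 := by
  have hq' : q ∈ Icc (0:ℝ) 1 := ⟨hq.1.le, hq.2⟩
  have e := h.km_eq hq'
  have hV := h.V_pos hq
  have hV1 := h.V1_pos q hq'
  have hv := h.v_nonneg
  have h1 := hkj.k_ge q hq'
  have h2 := hkj.j_ge q hq'
  have hH := hkj.Hpos
  have h3 : q * (q + V1 1 * (H * (1 - q))) ≤ kf V V1 q * (kf V V1 q + V1 1 * jf V V1 q) := by
    apply mul_le_mul h1 _ _ (hq.1.le.trans h1)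
    · have := mul_le_mul_of_nonneg_left h2 hv.le
      linarith
    · have : 0 ≤ V1 1 * (H * (1 - q)) := mul_nonneg hv.le (mul_nonneg hH.le (by linarith [hq.2]))
      linarith [hq.1]
  unfold Yf
  rw [div_mul_eq_mul_div, div_le_iff₀ hV]
  nlinarith [mul_le_mul_of_nonneg_left h3 hV1.le]

lemma V_le' (h : FV r lam V V1 N N1 N2) {H : ℝ}
    (hkj : KJ (Sch N N1) (kf V V1) (kf1 V V1 N) (jf V V1) (jf1 V V1 N) H) {q : ℝ}
    (hq : q ∈ Ioc (0:ℝ) 1) : V q * (q + V1 1 * (H ^ 2 * (1 - q))) ≤ q := by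
  have hq' : q ∈ Icc (0:ℝ) 1 := ⟨hq.1.le, hq.2⟩
  have hv := h.v_nonneg
  have hH := hkj.Hpos
  have h1 := hkj.k_le q hq'
  have h2 := hkj.j_ge q hq'
  have hk := hkj.k_ge q hq'
  -- V * (k + v j) = k
  have e : V q * (kf V V1 q + V1 1 * jf V V1 q) = kf V V1 q := by
    have a1 := h.km_eq hq'
    have a2 := h.mm_eq hq'
    have hm : 0 < kf V V1 q + V1 1 * jf V V1 q := by
      have : 0 ≤ V1 1 * (H * (1 - q)) := mul_nonneg hv.le (mul_nonneg hH.le (by linarith [hq.2]))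
      have := mul_le_mul_of_nonneg_left h2 hv.le
      linarith [hq.1]
    have hV1 := h.V1_pos q hq'
    have : (kf V V1 q + V1 1 * jf V V1 q) * V1 q * (V q * (kf V V1 q + V1 1 * jf V V1 q))
        = (kf V V1 q + V1 1 * jf V V1 q) * V1 q * kf V V1 q := by
      linear_combination (V q) * a2 - a1
    exact mul_left_cancel₀ (mul_pos hm hV1).ne' this
  have hV0 := h.V_nonneg hq'
  have hV1' := h.V_le_one hq'
  rw [le_div_iff₀ hH] at h1
  -- V (q + v H^2 (1-q)) ≤ q  from  V v j = (1 - V) k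
  have e2 : V q * (V1 1 * jf V V1 q) = (1 - V q) * kf V V1 q := by linarith
  have e3 : V q * (V1 1 * (H * (1 - q))) ≤ (1 - V q) * kf V V1 q := by
    rw [← e2]
    gcongr
  have e4 : V q * (V1 1 * (H ^ 2 * (1 - q))) ≤ (1 - V q) * (kf V V1 q * H) := by nlinarith
  have e5 : (1 - V q) * (kf V V1 q * H) ≤ (1 - V q) * q :=
    mul_le_mul_of_nonneg_left h1 (by linarith)
  linarith

lemma P_le (h : FV r lam V V1 N N1 N2) {H : ℝ}
    (hkj : KJ (Sch N N1) (kf V V1) (kf1 V V1 N) (jf V V1) (jf1 V V1 N) H) {q : ℝ}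
    (hq : q ∈ Icc (0:ℝ) 1) : V q * (1 - V q) / V1 q * H ≤ q * (1 - q) := by
  rw [← h.kj_eq hq]
  have h1 := hkj.k_le q hq
  have h2 := hkj.j_le q hq
  have hH := hkj.Hpos
  rw [le_div_iff₀ hH] at h1
  have h3 : 0 ≤ jf V V1 q := (mul_nonneg hH.le (by linarith [hq.2])).trans (hkj.j_ge q hq)
  calc kf V V1 q * jf V V1 q * H = kf V V1 q * H * jf V V1 q := by ring
    _ ≤ q * (1 - q) := mul_le_mul h1 h2 h3 hq.1

lemma N_mono (h : FV r lam V V1 N N1 N2) {a b : ℝ} (ha : 0 ≤ a) (hab : a ≤ b) (hb : b ≤ 1) :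
    N a ≤ N b := by
  apply monotone_sub hab (f := N) (f1 := N1)
  · intro x hx
    exact h.dN x ⟨ha.trans hx.1, hx.2.trans hb⟩
  · intro x hx
    have := h.Sch_nonneg (p := x) ⟨ha.trans hx.1, hx.2.trans hb⟩
    unfold Sch at this
    nlinarith [sq_nonneg (N x)]

lemma N_one_pos (h : FV r lam V V1 N N1 N2) : 0 < N 1 := by
  have hZ := h.Z_eq
  have hm := h.N_mono (a := 0) (b := 1) le_rfl zero_le_one le_rfl
  have hl := h.lam_pos
  have ht := h.tau_lt_one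
  have hv := h.v_nonneg
  have hr := h.hr
  have he : 0 < 1 - 1 / r := by
    rw [sub_pos, div_lt_one h.r_pos]; exact hr
  have hpos : 0 < (1 - 1 / r) * lam * V1 1 := by positivity
  by_contra hc
  push Not at hc
  nlinarith

/-- `Y - N ≤ 1/q - N/2`, i.e. `k'/k ≤ 1/q`. -/
lemma Y_sub_N (h : FV r lam V V1 N N1 N2) {q : ℝ} (hq : q ∈ Ioc (0:ℝ) 1) :
    Yf V V1 q - N q ≤ 1 / q - N q / 2 := by
  have h0 : (0:ℝ) ∈ Icc (0:ℝ) 1 := zero_mem
  have hq' : q ∈ Icc (0:ℝ) 1 := ⟨hq.1.le, hq.2⟩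
  have := (h.y1_ineq h0 hq').1
  rw [h.V_zero, neg_zero, sub_zero] at this
  have hV := h.V_pos hq
  have hV1 := h.V1_pos q hq'
  have hs : Real.sqrt (V1 q) * Real.sqrt (V1 q) = V1 q := Real.mul_self_sqrt hV1.le
  have hs' : 0 < Real.sqrt (V1 q) := Real.sqrt_pos.mpr hV1
  unfold yy1 yy at this
  have e1 : (0 + 1 * V q) / Real.sqrt (V1 q) = V q / Real.sqrt (V1 q) := by ring
  rw [e1] at this
  have e2 : (1 * Real.sqrt (V1 q) - 1 / 2 * N q * (V q / Real.sqrt (V1 q))) * q * Real.sqrt (V1 q)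
      ≤ V q / Real.sqrt (V1 q) * Real.sqrt (V1 q) := mul_le_mul_of_nonneg_right this hs'.le
  rw [div_mul_cancel₀ _ hs'.ne'] at e2
  have e3 : (1 * Real.sqrt (V1 q) - 1 / 2 * N q * (V q / Real.sqrt (V1 q))) * q * Real.sqrt (V1 q)
      = (V1 q - 1 / 2 * N q * V q) * q := by
    generalize Real.sqrt (V1 q) = s at hs hs'
    rw [← hs]
    field_simp
  rw [e3] at e2
  unfold Yf
  have hq0 := hq.1
  have : V1 q / V q ≤ 1 / q + N q / 2 := by
    rw [div_le_iff₀ hV]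
    have : (1 / q + N q / 2) * V q = (V q + N q / 2 * V q * q) / q := by field_simp
    rw [this, le_div_iff₀ hq0]
    linarith
  linarith

end FV

end Pool.Agent.Feig
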