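import Pool.Agent.Feig.Single

/-!
# Box bounds for a single solution
-/

open Set

noncomputable section

namespace Pool.Agent.Feig

/-- numerical parameters -/
structure Bx where
  (L ra em cm x0 S0 G0 H vm xi G gam s rho nu nm hb : ℝ)

/-- numerical inequalities used for the single-solution bounds -/
structure Bx.Ok (B : Bx) : Prop where
  L_pos : 0 < B.L
  L_le : B.L ≤ 1 / 2
  ra_ge : 1 ≤ B.ra
  em_nn : 0 ≤ B.em
  cm_nn : 0 ≤ B.cm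
  x0_nn : 0 ≤ B.x0
  S0_nn : 0 ≤ B.S0
  ok1 : 1 ≤ B.x0 * ((1 - B.L) * (1 - B.L + B.L ^ 2))
  ok2 : (B.L * B.x0 / (B.ra * (1 + B.L))) ^ 2 ≤ B.G0
  ok2' : B.L ^ 2 + B.G0 < 1
  ok3 : B.cm * B.L ^ 2 * B.x0 ^ 2 ≤ B.S0 * (1 - B.L ^ 2 - B.G0)
  H_pos : 0 < B.H
  ok4 : B.H ≤ 1 - B.S0 / 12
  vm_pos : 0 < B.vm
  ok5 : B.vm ≤ 1 - B.S0 / (6 * B.H)
  xi_pos : 0 < B.xi
  ok6 : 32 / 25 ≤ B.xi * ((1 - B.L) * (1 - B.L + 32 / 25 * (B.H * B.L)))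
  ok7 : 1 ≤ (32 / 25) ^ 2 * B.vm * B.H ^ 3
  ok8 : (B.L / (B.ra * (1 + B.L))) ^ 2 * (32 / 25) ^ 2 ≤ B.G * (1 - B.L)
  ok8' : B.L ^ 2 + B.G < 1
  s_nn : 0 ≤ B.s
  ok9 : B.xi ^ 2 ≤ B.s * (1 - B.L ^ 2 - B.G)
  nu_nn : 0 ≤ B.nu
  ok10 : 2 * (32 / 25 - (1 - B.S0 / (6 * B.H))) ≤ B.nu
  nm_nn : 0 ≤ B.nm
  ok11 : B.L * B.nu ≤ B.nm * (1 - B.L * (32 / 25) / (B.ra * (1 + B.L)))
  ok11' : B.L * (32 / 25) / (B.ra * (1 + B.L)) < 1
  gam_nn : 0 ≤ B.gam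
  ok12 : B.G ≤ B.gam ^ 2
  ok13 : B.nu ≤ 1 / (1 - B.L) + B.nm / 2
  ok14 : B.em * B.xi + B.nm ≤ B.hb
  ok15 : B.nu ≤ B.hb
  rho_nn : 0 ≤ B.rho
  ok16 : 2 * B.xi ^ 2 * B.L * (1 / (1 - B.L) + B.nm / 2) + 2 * B.G * B.L * B.hb * B.s
    ≤ B.rho * (1 - B.L ^ 3 - B.G * B.gam)
  ok16' : B.L ^ 3 + B.G * B.gam < 1

namespace FV

variable {r lam : ℝ} {V V1 N N1 N2 : ℝ → ℝ}

/-- maximum principle for the Schwarzian. -/
lemma S_max (h : FV r lam V V1 N N1 N2) {x G L : ℝ} (hL : lam ≤ L)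
    (hY : ∀ q ∈ Icc (1 - lam) 1, Yf V V1 q ≤ x)
    (hG : ∀ p ∈ Icc (0:ℝ) 1, gd r lam V V1 p ^ 2 ≤ G) (hLG : L ^ 2 + G < 1)
    {p : ℝ} (hp : p ∈ Icc (0:ℝ) 1) :
    Sch N N1 p * (1 - L ^ 2 - G) ≤ cc r * lam ^ 2 * x ^ 2 := by
  obtain ⟨m, hm, hmax⟩ := isCompact_Icc.exists_isMaxOn (nonempty_Icc.mpr zero_le_one) h.contSch
  have hM : ∀ t ∈ Icc (0:ℝ) 1, Sch N N1 t ≤ Sch N N1 m := fun t ht => hmax ht
  have hS := h.Sch_eq hm
  have hM0 := h.Sch_nonneg hm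
  have h1 := hM _ (h.q_mem1' hm)
  have h2 := hM _ (h.g_mem' (h.mem_b hm))
  have h3 := hG m hm
  have h4 := hY _ (h.q_mem1 hm)
  have h4' := (h.Y_pos (h.q_mem (h.mem_b hm))).le
  have hl := h.lam_pos
  have hc := h.cc_pos
  have h5 : Yf V V1 (1 - lam * m) ^ 2 ≤ x ^ 2 := pow_le_pow_left₀ h4' h4 2
  have h6 : lam ^ 2 ≤ L ^ 2 := pow_le_pow_left₀ hl.le hL 2
  have e1 : lam ^ 2 * Sch N N1 (1 - lam * m) ≤ L ^ 2 * Sch N N1 m := by
    calc lam ^ 2 * Sch N N1 (1 - lam * m) ≤ lam ^ 2 * Sch N N1 m := by gcongr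
      _ ≤ L ^ 2 * Sch N N1 m := by gcongr
  have e2 : gd r lam V V1 m ^ 2 * Sch N N1 (gm r lam V m) ≤ G * Sch N N1 m := by
    calc gd r lam V V1 m ^ 2 * Sch N N1 (gm r lam V m) ≤ gd r lam V V1 m ^ 2 * Sch N N1 m := by
          gcongr
      _ ≤ G * Sch N N1 m := by gcongr
  have e3 : cc r * lam ^ 2 * Yf V V1 (1 - lam * m) ^ 2 ≤ cc r * lam ^ 2 * x ^ 2 := by gcongr
  have e4 : Sch N N1 m * (1 - L ^ 2 - G) ≤ cc r * lam ^ 2 * x ^ 2 := by linarith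
  calc Sch N N1 p * (1 - L ^ 2 - G) ≤ Sch N N1 m * (1 - L ^ 2 - G) :=
        mul_le_mul_of_nonneg_right (hM p hp) (by linarith)
    _ ≤ _ := e4

/-- crude bound `g' ≤ lam Y / (r (1 + lam))`. -/
lemma gd_le (h : FV r lam V V1 N N1 N2) {x : ℝ} {p : ℝ} (hp : p ∈ Icc (0:ℝ) 1)
    (hY : Yf V V1 (1 - lam * p) ≤ x) : gd r lam V V1 p ≤ lam / (r * (1 + lam)) * x := by
  have hq := h.q_mem (h.mem_b hp)
  have hx := h.x_mem hq
  have hl := h.lam_pos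
  have hr := h.r_pos
  unfold gd
  apply mul_le_mul_of_nonneg_left _ (by positivity)
  calc Yf V V1 (1 - lam * p) * V (1 - lam * p) ^ (1 / r) ≤ Yf V V1 (1 - lam * p) * 1 := by
        apply mul_le_mul_of_nonneg_left hx.2 (h.Y_pos hq).le
    _ ≤ x := by linarith

/-- `lam / (r (1 + lam))` is increasing in `lam`. -/
lemma coef_le (h : FV r lam V V1 N N1 N2) {L ra : ℝ} (hL : lam ≤ L) (hra : ra ≤ r)
    (hra1 : 1 ≤ ra) : lam / (r * (1 + lam)) ≤ L / (ra * (1 + L)) := by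
  have hl := h.lam_pos
  have hr := h.r_pos
  rw [div_le_div_iff₀ (by positivity) (by nlinarith)]
  have : lam * ra * (1 + L) ≤ L * r * (1 + lam) := by
    have e1 : lam * (1 + L) ≤ L * (1 + lam) := by linarith
    have e2 : 0 ≤ lam * (1 + L) := by nlinarith
    nlinarith
  linarith

/-- `q (1 - lam q) ≥ (1 - L)(1 - L + L^2)` for `q ≥ 1 - lam`. -/
lemma q_low (h : FV r lam V V1 N N1 N2) {L : ℝ} (hL : lam ≤ L) (hL2 : L ≤ 1 / 2) {q : ℝ}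
    (hq : q ∈ Icc (1 - lam) 1) : (1 - L) * (1 - L + L ^ 2) ≤ q * (1 - lam * q) := by
  have hl := h.lam_pos
  have e1 : (1 - lam) * (1 - lam * (1 - lam)) ≤ q * (1 - lam * q) := by
    have : 0 ≤ (q - (1 - lam)) * (1 - lam * (q + (1 - lam))) := by
      apply mul_nonneg (by linarith [hq.1])
      nlinarith [hq.2]
    nlinarith
  have e2 : (1 - L) * (1 - L + L ^ 2) ≤ (1 - lam) * (1 - lam * (1 - lam)) := by
    have f1 : 1 - L + L ^ 2 ≤ 1 - lam * (1 - lam) := by nlinarith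
    have f2 : 0 ≤ 1 - L + L ^ 2 := by nlinarith
    have f3 : 0 ≤ 1 - lam := by linarith
    calc (1 - L) * (1 - L + L ^ 2) ≤ (1 - lam) * (1 - L + L ^ 2) :=
          mul_le_mul_of_nonneg_right (by linarith) f2
      _ ≤ _ := mul_le_mul_of_nonneg_left f1 f3
  linarith

end FV

/-- conclusions of the single-solution analysis. -/
structure Sing (B : Bx) (r lam : ℝ) (V V1 N N1 N2 : ℝ → ℝ) : Prop where
  kj : KJ (Sch N N1) (kf V V1) (kf1 V V1 N) (jf V V1) (jf1 V V1 N) B.H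
  v_le : V1 1 ≤ 32 / 25
  v_ge : B.vm ≤ V1 1
  N_le : ∀ p ∈ Icc (0:ℝ) 1, N p ≤ B.nu
  N_ge : ∀ p ∈ Icc (0:ℝ) 1, -B.nm ≤ N p
  gd_sq : ∀ p ∈ Icc (0:ℝ) 1, gd r lam V V1 p ^ 2 ≤ B.G
  Y_le : ∀ q ∈ Icc (1 - B.L) 1, Yf V V1 q ≤ B.xi
  S_le : ∀ p ∈ Icc (0:ℝ) 1, Sch N N1 p ≤ B.s * cc r * lam ^ 2
  S1_le : ∀ p ∈ Icc (0:ℝ) 1, |Sch1 N N1 N2 p| ≤ B.rho * cc r * lam ^ 2

namespace FV

variable {r lam : ℝ} {V V1 N N1 N2 : ℝ → ℝ}

/-- the equation for `S'`. -/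
lemma Sch1_eq (h : FV r lam V V1 N N1 N2) {p : ℝ} (hp : p ∈ Icc (0:ℝ) 1) :
    Sch1 N N1 N2 p = -lam ^ 3 * Sch1 N N1 N2 (1 - lam * p)
      + gd r lam V V1 p ^ 3 * Sch1 N N1 N2 (gm r lam V p)
      + 2 * gd r lam V V1 p ^ 2 * hh r lam V V1 N p * Sch N N1 (gm r lam V p)
      + 2 * cc r * lam ^ 3 * (Yf V V1 (1 - lam * p) ^ 2
        * (Yf V V1 (1 - lam * p) - N (1 - lam * p))) := by
  have hpb := h.mem_b hp
  have hq := h.q_mem hpb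
  have d1 := HasDerivAt.comp p (h.dSch (h.q_mem1' hp)) (dq (lam := lam) p)
  have d2 := HasDerivAt.comp p (h.dSch (h.g_mem' hpb)) (h.dg hpb)
  have d3 := h.dgd hpb
  have d4 := HasDerivAt.comp p (h.dY hq) (dq (lam := lam) p)
  have d5 := ((d1.const_mul (lam ^ 2)).add ((d3.pow 2).mul d2)).add
    ((d4.pow 2).const_mul (cc r * lam ^ 2))
  have := deriv_unique (fun x hx => h.Sch_eq hx) hp (h.dSch hp) d5
  rw [this]
  simp only [Function.comp, Pi.pow_apply]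
  norm_num
  ring

/-- bound for `g'^2` using `V^(2/r) ≤ V`. -/
lemma gd_sq_le (h : FV r lam V V1 N N1 N2) (hr2 : r ≤ 2) {H vm : ℝ}
    (hkj : KJ (Sch N N1) (kf V V1) (kf1 V V1 N) (jf V V1) (jf1 V V1 N) H)
    (hvb : V1 1 ≤ 32 / 25) (hvm : 0 < vm) (hv : vm ≤ V1 1)
    (h7 : 1 ≤ (32 / 25) ^ 2 * vm * H ^ 3) {p : ℝ} (hp : p ∈ Icc (0:ℝ) 1) :
    gd r lam V V1 p ^ 2 * (1 - lam) ≤ (lam / (r * (1 + lam))) ^ 2 * (32 / 25) ^ 2 := by
  have hq := h.q_mem (h.mem_b hp)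
  have hq1 := h.q_mem1 hp
  set q := 1 - lam * p with hqd
  have hq' : q ∈ Icc (0:ℝ) 1 := ⟨hq.1.le, hq.2⟩
  have hVp := h.V_pos hq
  have hV1 := h.V1_pos q hq'
  have hVle := h.V_le_one hq'
  have hH := hkj.Hpos
  have hl := h.lam_pos
  have hr := h.r_pos
  have hvp := h.v_nonneg
  -- x^2 ≤ V
  have hx2 : (V q ^ (1 / r)) ^ 2 ≤ V q := by
    rw [← Real.rpow_natCast, ← Real.rpow_mul hVp.le]
    have h1 : (1:ℝ) ≤ 1 / r * ((2:ℕ):ℝ) := by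
      push_cast
      rw [one_div_mul_eq_div, le_div_iff₀ hr]
      linarith
    calc V q ^ (1 / r * ((2:ℕ):ℝ)) ≤ V q ^ (1:ℝ) :=
          Real.rpow_le_rpow_of_exponent_ge hVp hVle h1
      _ = V q := Real.rpow_one _
  -- V1^2 / V * q ≤ (32/25)^2
  have hk := hkj.k_ge q hq'
  have hj := hkj.j_ge q hq'
  have e1 := h.km_eq hq'
  have e2 := h.mm_eq hq'
  set k := kf V V1 q
  set m := kf V V1 q + V1 1 * jf V V1 q with hm
  have hmge : q + V1 1 * (H * (1 - q)) ≤ m := by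
    have := mul_le_mul_of_nonneg_left hj hvp.le
    rw [hm]; linarith
  have hkp : 0 < k := lt_of_lt_of_le hq.1 hk
  have hkey : V1 q ^ 2 * q ≤ (32 / 25) ^ 2 * V q := by
    -- v^2 V = V1^2 k m^3
    have hmp : 0 < m := by
      have : 0 ≤ V1 1 * (H * (1 - q)) :=
        mul_nonneg hvp.le (mul_nonneg hH.le (by linarith [hq.2]))
      linarith [hq.1]
    have f1 : V1 1 ^ 2 * V q = V1 q ^ 2 * (k * m ^ 3) := by
      calc V1 1 ^ 2 * V q = V1 1 * (V1 1 * V q) := by ring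
        _ = (m ^ 2 * V1 q) * (k * m * V1 q) := by rw [e1, e2]
        _ = _ := by ring
    have f2 : V1 1 ^ 2 * q ≤ (32 / 25) ^ 2 * (k * m ^ 3) := by
      rcases le_total 1 (V1 1 * H) with hc | hc
      · have g1 : 1 ≤ m := by nlinarith [hq.2, hq.1]
        have g2 : 1 ≤ m ^ 3 := one_le_pow₀ g1
        have g3 : V1 1 ^ 2 ≤ (32 / 25) ^ 2 := pow_le_pow_left₀ hvp.le hvb 2
        calc V1 1 ^ 2 * q ≤ (32 / 25) ^ 2 * q := mul_le_mul_of_nonneg_right g3 hq.1.le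
          _ ≤ (32 / 25) ^ 2 * (k * m ^ 3) := by
              apply mul_le_mul_of_nonneg_left _ (by norm_num)
              calc q = q * 1 := by ring
                _ ≤ k * m ^ 3 := mul_le_mul hk g2 zero_le_one hkp.le
      · have g1 : V1 1 * H ≤ m := by nlinarith [hq.2, hq.1]
        have g2 : (V1 1 * H) ^ 3 ≤ m ^ 3 := pow_le_pow_left₀ (by positivity) g1 3
        calc V1 1 ^ 2 * q = V1 1 ^ 2 * q * 1 := by ring
          _ ≤ V1 1 ^ 2 * q * ((32 / 25) ^ 2 * vm * H ^ 3) := by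
              apply mul_le_mul_of_nonneg_left h7
              have := hq.1; positivity
          _ ≤ V1 1 ^ 2 * q * ((32 / 25) ^ 2 * V1 1 * H ^ 3) := by
              have := hq.1
              gcongr
          _ = (32 / 25) ^ 2 * (q * (V1 1 * H) ^ 3) := by ring
          _ ≤ (32 / 25) ^ 2 * (k * m ^ 3) := by
              apply mul_le_mul_of_nonneg_left _ (by norm_num)
              exact mul_le_mul hk g2 (by positivity) hkp.le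
    have f3 : V1 q ^ 2 * q * (k * m ^ 3) ≤ (32 / 25) ^ 2 * V q * (k * m ^ 3) := by
      calc V1 q ^ 2 * q * (k * m ^ 3) = q * (V1 q ^ 2 * (k * m ^ 3)) := by ring
        _ = q * (V1 1 ^ 2 * V q) := by rw [f1]
        _ = V1 1 ^ 2 * q * V q := by ring
        _ ≤ (32 / 25) ^ 2 * (k * m ^ 3) * V q := mul_le_mul_of_nonneg_right f2 hVp.le
        _ = _ := by ring
    exact le_of_mul_le_mul_right f3 (by positivity)
  have hY2 : (Yf V V1 q * V q ^ (1 / r)) ^ 2 * (1 - lam) ≤ (32 / 25) ^ 2 := by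
    have g0 : 0 ≤ 1 - lam := by linarith [h.lam_lt]
    calc (Yf V V1 q * V q ^ (1 / r)) ^ 2 * (1 - lam)
        = Yf V V1 q ^ 2 * (V q ^ (1 / r)) ^ 2 * (1 - lam) := by ring
      _ ≤ Yf V V1 q ^ 2 * V q * q := by
          have := hq1.1
          gcongr
      _ = V1 q ^ 2 * q / V q := by unfold Yf; field_simp
      _ ≤ (32 / 25) ^ 2 := by
          rw [div_le_iff₀ hVp]; exact hkey
  unfold gd
  rw [← hqd]
  calc (lam / (r * (1 + lam)) * (Yf V V1 q * V q ^ (1 / r))) ^ 2 * (1 - lam)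
      = (lam / (r * (1 + lam))) ^ 2 * ((Yf V V1 q * V q ^ (1 / r)) ^ 2 * (1 - lam)) := by ring
    _ ≤ _ := mul_le_mul_of_nonneg_left hY2 (sq_nonneg _)

end FV

end Pool.Agent.Feig
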