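import Pool.Agent.Feig.Single2

/-!
# The single-solution theorem
-/

open Set

noncomputable section

namespace Pool.Agent.Feig

namespace FV

variable {r lam : ℝ} {V V1 N N1 N2 : ℝ → ℝ}

lemma contN2 (h : FV r lam V V1 N N1 N2) : ContinuousOn (Sch1 N N1 N2) (Icc 0 1) := by
  unfold Sch1
  exact h.cN2.sub (h.contN.mul h.contN1)

/-- monotone version of `Y_le'`. -/
lemma Y_le_v (h : FV r lam V V1 N N1 N2) {H vb : ℝ}
    (hkj : KJ (Sch N N1) (kf V V1) (kf1 V V1 N) (jf V V1) (jf1 V V1 N) H)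
    (hvb : V1 1 ≤ vb) {q : ℝ}
    (hq : q ∈ Ioc (0:ℝ) 1) : Yf V V1 q * (q * (q + vb * (H * (1 - q)))) ≤ vb := by
  have h1 := h.Y_le' hkj hq
  have hY := h.Y_pos hq
  have hv := h.v_nonneg
  have hq0 := hq.1
  have h2 : 0 ≤ 1 - Yf V V1 q * q * (H * (1 - q)) := by
    by_contra hc
    push Not at hc
    have : 0 < Yf V V1 q * (q * q) := by positivity
    nlinarith
  nlinarith [mul_le_mul_of_nonneg_right hvb h2]

theorem sing (h : FV r lam V V1 N N1 N2) (hr2 : r ≤ 2) {B : Bx} (hB : B.Ok)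
    (hra : B.ra ≤ r) (hem : 1 - 1 / r ≤ B.em) (hcm : cc r ≤ B.cm) (hL : lam ≤ B.L) :
    Sing B r lam V V1 N N1 N2 := by
  have hl := h.lam_pos
  have hr := h.r_pos
  have hv := h.v_nonneg
  have hvb := h.v_le hr2
  have hc := h.cc_pos
  have hLp := hB.L_pos
  have hL2 := hB.L_le
  have h1L : 0 < 1 - B.L := by linarith
  -- Y ≤ x0
  have hY0 : ∀ q ∈ Icc (1 - lam) 1, Yf V V1 q ≤ B.x0 := by
    intro q hq
    have hq' : q ∈ Ioc (0:ℝ) 1 := ⟨by linarith [hq.1], hq.2⟩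
    have e1 := h.Y_le hq'
    have e2 := h.q_low hL hL2 hq
    have e3 := h.Y_pos hq'
    have e4 : 0 < (1 - B.L) * (1 - B.L + B.L ^ 2) := by positivity
    have e5 := hB.ok1
    have e6 : Yf V V1 q * ((1 - B.L) * (1 - B.L + B.L ^ 2)) ≤ 1 := by
      refine le_trans ?_ e1
      exact mul_le_mul_of_nonneg_left e2 e3.le
    exact le_of_mul_le_mul_right (e6.trans e5) e4
  have hco := h.coef_le hL hra hB.ra_ge
  have hco0 : 0 ≤ lam / (r * (1 + lam)) := by positivity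
  -- gd^2 ≤ G0
  have hG0 : ∀ p ∈ Icc (0:ℝ) 1, gd r lam V V1 p ^ 2 ≤ B.G0 := by
    intro p hp
    have e1 := h.gd_le hp (hY0 _ (h.q_mem1 hp))
    have e2 := (h.gd_pos (h.mem_b hp)).le
    have e3 : gd r lam V V1 p ≤ B.L * B.x0 / (B.ra * (1 + B.L)) := by
      calc gd r lam V V1 p ≤ lam / (r * (1 + lam)) * B.x0 := e1
        _ ≤ B.L / (B.ra * (1 + B.L)) * B.x0 := mul_le_mul_of_nonneg_right hco hB.x0_nn
        _ = _ := by ring
    exact (pow_le_pow_left₀ e2 e3 2).trans hB.ok2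
  -- S ≤ S0
  have hlL2 : lam ^ 2 ≤ B.L ^ 2 := pow_le_pow_left₀ hl.le hL 2
  have hS0 : ∀ p ∈ Icc (0:ℝ) 1, Sch N N1 p ≤ B.S0 := by
    intro p hp
    have e1 := h.S_max hL hY0 hG0 hB.ok2' hp
    have e2 : cc r * lam ^ 2 * B.x0 ^ 2 ≤ B.cm * B.L ^ 2 * B.x0 ^ 2 := by
      have := hB.cm_nn
      gcongr
    have e3 := hB.ok3
    have e4 := hB.ok2'
    exact le_of_mul_le_mul_right (e1.trans (e2.trans e3)) (by linarith)
  have hkj := h.toKJ hS0 hB.H_pos hB.ok4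
  have hH1 : B.H ≤ 1 := by
    have := hB.ok4
    have := hB.S0_nn
    linarith
  -- v ≥ vm
  have hk1 := hkj.k1_one_ge h.kf_one hS0 hB.S0_nn
  rw [h.kf1_one] at hk1
  have hN1 := h.N_one_pos
  have hvm : B.vm ≤ V1 1 := by
    have := hB.ok5
    linarith
  have hN1u : N 1 ≤ B.nu := by
    have := hB.ok10
    linarith
  -- Y ≤ xi
  have hYx : ∀ q ∈ Icc (1 - B.L) 1, Yf V V1 q ≤ B.xi := by
    intro q hq
    have hq' : q ∈ Ioc (0:ℝ) 1 := ⟨by linarith [hq.1], hq.2⟩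
    have e1 := h.Y_le_v hkj hvb hq'
    have e3 := h.Y_pos hq'
    have hHp := hB.H_pos
    have e2 : (1 - B.L) * (1 - B.L + 32 / 25 * (B.H * B.L)) ≤ q * (q + 32 / 25 * (B.H * (1 - q))) := by
      have hqL : 1 - B.L ≤ q := hq.1
      have : 0 ≤ (q - (1 - B.L)) * (32 / 25 * B.H + (1 - 32 / 25 * B.H) * (q + (1 - B.L))) := by
        apply mul_nonneg (by linarith)
        have g1 : q + (1 - B.L) ≤ 2 := by linarith [hq.2]
        have g2 : 0 ≤ q + (1 - B.L) := by linarith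
        rcases le_total (1 - 32 / 25 * B.H) 0 with hs | hs
        · nlinarith
        · have := mul_nonneg hs g2
          nlinarith
      nlinarith
    have e4 : 0 < (1 - B.L) * (1 - B.L + 32 / 25 * (B.H * B.L)) := by positivity
    have e6 : Yf V V1 q * ((1 - B.L) * (1 - B.L + 32 / 25 * (B.H * B.L))) ≤ 32 / 25 := by
      refine le_trans ?_ e1
      exact mul_le_mul_of_nonneg_left e2 e3.le
    exact le_of_mul_le_mul_right (e6.trans hB.ok6) e4
  -- gd^2 ≤ G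
  have hGnn : 0 ≤ B.G := by
    have := hB.ok8
    have e1 : 0 ≤ B.G * (1 - B.L) := le_trans (by positivity) this
    exact nonneg_of_mul_nonneg_left e1 h1L
  have hG : ∀ p ∈ Icc (0:ℝ) 1, gd r lam V V1 p ^ 2 ≤ B.G := by
    intro p hp
    have e1 := h.gd_sq_le hr2 hkj hvb hB.vm_pos hvm hB.ok7 hp
    have e2 : (lam / (r * (1 + lam))) ^ 2 * (32 / 25) ^ 2
        ≤ (B.L / (B.ra * (1 + B.L))) ^ 2 * (32 / 25) ^ 2 := by gcongr
    have e3 := hB.ok8
    have e4 : gd r lam V V1 p ^ 2 * (1 - B.L) ≤ gd r lam V V1 p ^ 2 * (1 - lam) :=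
      mul_le_mul_of_nonneg_left (by linarith) (sq_nonneg _)
    exact le_of_mul_le_mul_right (e4.trans (e1.trans (e2.trans e3))) h1L
  -- S ≤ s cc lam^2
  have hS : ∀ p ∈ Icc (0:ℝ) 1, Sch N N1 p ≤ B.s * cc r * lam ^ 2 := by
    intro p hp
    have e1 := h.S_max hL (fun q hq => hYx q ⟨by linarith [hq.1], hq.2⟩) hG hB.ok8' hp
    have e2 : cc r * lam ^ 2 * B.xi ^ 2 ≤ cc r * lam ^ 2 * (B.s * (1 - B.L ^ 2 - B.G)) :=
      mul_le_mul_of_nonneg_left hB.ok9 (by positivity)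
    have e4 := hB.ok8'
    have e5 : Sch N N1 p * (1 - B.L ^ 2 - B.G) ≤ (B.s * cc r * lam ^ 2) * (1 - B.L ^ 2 - B.G) := by
      calc Sch N N1 p * (1 - B.L ^ 2 - B.G) ≤ cc r * lam ^ 2 * B.xi ^ 2 := e1
        _ ≤ cc r * lam ^ 2 * (B.s * (1 - B.L ^ 2 - B.G)) := e2
        _ = _ := by ring
    exact le_of_mul_le_mul_right e5 (by linarith)
  -- N bounds
  have hNle : ∀ p ∈ Icc (0:ℝ) 1, N p ≤ B.nu := fun p hp =>
    (h.N_mono hp.1 hp.2 le_rfl).trans hN1u
  have hN0 : -B.nm ≤ N 0 := by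
    have hZ := h.Z_eq
    have he : 0 < 1 - 1 / r := by
      rw [sub_pos, div_lt_one hr]; exact h.hr
    have e1 : 0 ≤ (1 - 1 / r) * lam * V1 1 := by positivity
    have htau : lam ^ r ≤ B.L * (32 / 25) / (B.ra * (1 + B.L)) := by
      have g1 := h.v_eq
      have g2 : lam ^ r = lam / (r * (1 + lam)) * V1 1 := by
        field_simp
        linarith
      rw [g2]
      calc lam / (r * (1 + lam)) * V1 1 ≤ B.L / (B.ra * (1 + B.L)) * (32 / 25) := by
            apply mul_le_mul hco hvb hv.le (hco0.trans hco)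
        _ = _ := by ring
    have e2 := hB.ok11
    have e3 := hB.ok11'
    by_contra hcn
    push Not at hcn
    have e4 : lam * N 1 ≤ B.L * B.nu := mul_le_mul hL hN1u hN1.le hLp.le
    have hnm := hB.nm_nn
    have e5 : (1 - lam ^ r) * N 0 ≤ (1 - B.L * (32 / 25) / (B.ra * (1 + B.L))) * N 0 :=
      mul_le_mul_of_nonpos_right (by linarith) (by linarith)
    have e6 : (1 - B.L * (32 / 25) / (B.ra * (1 + B.L))) * N 0
        < (1 - B.L * (32 / 25) / (B.ra * (1 + B.L))) * (-B.nm) :=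
      mul_lt_mul_of_pos_left hcn (by linarith)
    linarith
  have hNge : ∀ p ∈ Icc (0:ℝ) 1, -B.nm ≤ N p := fun p hp =>
    hN0.trans (h.N_mono le_rfl hp.1 hp.2)
  -- S' bound
  have hS1 : ∀ p ∈ Icc (0:ℝ) 1, |Sch1 N N1 N2 p| ≤ B.rho * cc r * lam ^ 2 := by
    obtain ⟨m, hm, hmax⟩ := isCompact_Icc.exists_isMaxOn (nonempty_Icc.mpr zero_le_one)
      h.contN2.abs
    have hM : ∀ t ∈ Icc (0:ℝ) 1, |Sch1 N N1 N2 t| ≤ |Sch1 N N1 N2 m| := fun t ht => hmax ht
    intro p hp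
    refine (hM p hp).trans ?_
    have hq1 := h.q_mem1 hm
    have hq2 := h.q_mem1' hm
    have hq3 := h.q_mem (h.mem_b hm)
    have hg2 := h.g_mem' (h.mem_b hm)
    have hgd0 := (h.gd_pos (h.mem_b hm)).le
    have hgd2 := hG m hm
    have hgdg : gd r lam V V1 m ≤ B.gam := by
      apply le_of_sq_le_sq _ hB.gam_nn
      exact hgd2.trans hB.ok12
    have hgd3 : gd r lam V V1 m ^ 3 ≤ B.G * B.gam := by
      calc gd r lam V V1 m ^ 3 = gd r lam V V1 m ^ 2 * gd r lam V V1 m := by ring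
        _ ≤ B.G * B.gam := mul_le_mul hgd2 hgdg hgd0 hGnn
    have hl3 : lam ^ 3 ≤ B.L ^ 3 := pow_le_pow_left₀ hl.le hL 3
    have hYq := hYx (1 - lam * m) ⟨by linarith [hq1.1], hq1.2⟩
    have hYq0 := (h.Y_pos hq3).le
    have hNq := hNle _ hq2
    have hNq' := hNge _ hq2
    have hhb : |hh r lam V V1 N m| ≤ lam * B.hb := by
      have he : 0 ≤ 1 - 1 / r := by
        rw [sub_nonneg, div_le_one hr]; exact h.hr.le
      unfold hh
      rw [abs_mul, abs_of_pos hl]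
      apply mul_le_mul_of_nonneg_left _ hl.le
      have g1 : (1 - 1 / r) * Yf V V1 (1 - lam * m) ≤ B.em * B.xi :=
        mul_le_mul hem hYq hYq0 hB.em_nn
      have g2 : 0 ≤ (1 - 1 / r) * Yf V V1 (1 - lam * m) := mul_nonneg he hYq0
      have g3 := hB.ok14
      have g4 := hB.ok15
      rw [abs_le]
      constructor <;> linarith
    have hYN : |Yf V V1 (1 - lam * m) - N (1 - lam * m)| ≤ 1 / (1 - B.L) + B.nm / 2 := by
      have g1 := h.Y_sub_N hq3
      have g2 : 1 / (1 - lam * m) ≤ 1 / (1 - B.L) := by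
        apply one_div_le_one_div_of_le h1L
        linarith [hq1.1]
      have g3 := hB.ok13
      rw [abs_le]
      constructor <;> linarith
    have hSg := hS _ hg2
    have hSg0 := h.Sch_nonneg hg2
    have e0 := h.Sch1_eq hm
    set M := |Sch1 N N1 N2 m| with hMd
    have hM0 : 0 ≤ M := abs_nonneg _
    have t1 : |-lam ^ 3 * Sch1 N N1 N2 (1 - lam * m)| ≤ B.L ^ 3 * M := by
      rw [abs_mul, abs_neg, abs_of_pos (by positivity : 0 < lam ^ 3)]
      exact mul_le_mul hl3 (hM _ hq2) (abs_nonneg _) (by positivity)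
    have t2 : |gd r lam V V1 m ^ 3 * Sch1 N N1 N2 (gm r lam V m)| ≤ B.G * B.gam * M := by
      rw [abs_mul, abs_of_nonneg (by positivity : 0 ≤ gd r lam V V1 m ^ 3)]
      exact mul_le_mul hgd3 (hM _ hg2) (abs_nonneg _) (mul_nonneg hGnn hB.gam_nn)
    have hb0 : 0 ≤ B.hb := hB.nu_nn.trans hB.ok15
    have t3 : |2 * gd r lam V V1 m ^ 2 * hh r lam V V1 N m * Sch N N1 (gm r lam V m)|
        ≤ 2 * B.G * (B.L * B.hb) * (B.s * cc r * lam ^ 2) := by
      rw [abs_mul, abs_mul, abs_of_nonneg (by positivity : 0 ≤ 2 * gd r lam V V1 m ^ 2),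
        abs_of_nonneg hSg0]
      have g1 : |hh r lam V V1 N m| ≤ B.L * B.hb :=
        hhb.trans (mul_le_mul_of_nonneg_right hL hb0)
      gcongr
    have t4 : |2 * cc r * lam ^ 3 * (Yf V V1 (1 - lam * m) ^ 2
        * (Yf V V1 (1 - lam * m) - N (1 - lam * m)))|
        ≤ 2 * cc r * lam ^ 2 * B.L * (B.xi ^ 2 * (1 / (1 - B.L) + B.nm / 2)) := by
      rw [abs_mul (2 * cc r * lam ^ 3), abs_mul (Yf V V1 (1 - lam * m) ^ 2),
        abs_of_pos (by positivity : 0 < 2 * cc r * lam ^ 3),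
        abs_of_nonneg (sq_nonneg (Yf V V1 (1 - lam * m)))]
      have g1 : 2 * cc r * lam ^ 3 ≤ 2 * cc r * lam ^ 2 * B.L := by
        calc 2 * cc r * lam ^ 3 = 2 * cc r * lam ^ 2 * lam := by ring
          _ ≤ 2 * cc r * lam ^ 2 * B.L := by gcongr
      have g2 : Yf V V1 (1 - lam * m) ^ 2 * |Yf V V1 (1 - lam * m) - N (1 - lam * m)|
          ≤ B.xi ^ 2 * (1 / (1 - B.L) + B.nm / 2) :=
        mul_le_mul (pow_le_pow_left₀ hYq0 hYq 2) hYN (abs_nonneg _) (sq_nonneg _)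
      exact mul_le_mul g1 g2 (by positivity) (by positivity)
    have tot : M ≤ B.L ^ 3 * M + B.G * B.gam * M
        + 2 * B.G * (B.L * B.hb) * (B.s * cc r * lam ^ 2)
        + 2 * cc r * lam ^ 2 * B.L * (B.xi ^ 2 * (1 / (1 - B.L) + B.nm / 2)) := by
      calc M = |Sch1 N N1 N2 m| := hMd
        _ = |-lam ^ 3 * Sch1 N N1 N2 (1 - lam * m)
            + gd r lam V V1 m ^ 3 * Sch1 N N1 N2 (gm r lam V m)
            + 2 * gd r lam V V1 m ^ 2 * hh r lam V V1 N m * Sch N N1 (gm r lam V m)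
            + 2 * cc r * lam ^ 3 * (Yf V V1 (1 - lam * m) ^ 2
              * (Yf V V1 (1 - lam * m) - N (1 - lam * m)))| := by rw [← e0]
        _ ≤ _ := (abs_add_le _ _).trans (add_le_add ((abs_add_le _ _).trans
            (add_le_add ((abs_add_le _ _).trans (add_le_add t1 t2)) t3)) t4)
    have e16 := hB.ok16
    have e16' := hB.ok16'
    have fin : M * (1 - B.L ^ 3 - B.G * B.gam) ≤ (B.rho * cc r * lam ^ 2)
        * (1 - B.L ^ 3 - B.G * B.gam) := by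
      have g1 : cc r * lam ^ 2 * (2 * B.xi ^ 2 * B.L * (1 / (1 - B.L) + B.nm / 2)
          + 2 * B.G * B.L * B.hb * B.s) ≤ cc r * lam ^ 2 *
            (B.rho * (1 - B.L ^ 3 - B.G * B.gam)) :=
        mul_le_mul_of_nonneg_left e16 (by positivity)
      linarith
    exact le_of_mul_le_mul_right fin (by linarith)
  exact ⟨hkj, hvb, hvm, hNle, hNge, hG, hYx, hS, hS1⟩

end FV

end Pool.Agent.Feig
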